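import Pool.Agent.Q291.FK.Fin

/-!
The curve and its natural time are functions of the path.
-/

set_option autoImplicit false

namespace Q291.FK

open H974 Finset H342P H984P H984N Q291.EP

theorem pl_congr {N : ℕ} {p p' : ℕ → ℂ} (h : ∀ k ≤ N, p k = p' k) : pl N p = pl N p' := by
  apply ContinuousMap.ext
  intro s
  show p 0 + ∑ k ∈ Finset.range N, ((clamp (s * N - k) : ℝ) : ℂ) * (p (k + 1) - p k) =
    p' 0 + ∑ k ∈ Finset.range N, ((clamp (s * N - k) : ℝ) : ℂ) * (p' (k + 1) - p' k)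
  rw [h 0 (Nat.zero_le _)]
  congr 1
  refine Finset.sum_congr rfl fun k hk => ?_
  rw [Finset.mem_range] at hk
  rw [h (k + 1) hk, h k hk.le]

theorem curve_path (R : Rect) {δ : ℝ} (hD : (R.dm δ).Ok) : ∃ g : (ℕ → St) → X,
    ∀ F, F ⊆ (R.dm δ).edges → (R.curve δ F, R.time δ F) = g (path (R.dm δ) F) := by
  classical
  refine ⟨fun x => if h : ∃ F, F ⊆ (R.dm δ).edges ∧ path (R.dm δ) F = x then
    (R.curve δ h.choose, R.time δ h.choose) else (R.curve δ ∅, 0), ?_⟩
  intro F hF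
  have h : ∃ G, G ⊆ (R.dm δ).edges ∧ path (R.dm δ) G = path (R.dm δ) F := ⟨F, hF, rfl⟩
  beta_reduce
  rw [dif_pos h]
  obtain ⟨h1, h2⟩ := h.choose_spec
  obtain ⟨G, hG⟩ : ∃ G, G = h.choose := ⟨_, rfl⟩
  rw [← hG] at h1 h2 ⊢
  have h3 := path_len hD h1 hF h2
  have h4 : R.curve δ F = R.curve δ G := by
    unfold Rect.curve
    rw [h3]
    apply pl_congr
    intro k hk
    have h5 := congrFun h2 k
    unfold path at h5
    rw [h3, min_eq_left hk] at h5
    rw [h5]
  rw [h4]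
  unfold Rect.time
  rw [h3]

/-- All functions of the curve and its natural time. -/
theorem fk_curve {C δ q : ℝ} {R : Rect} (hD : (R.dm δ).Ok)
    (h : ∀ f : (ℕ → St) → ℝ, (∀ x, 0 ≤ f x) → (∀ x, f x ≤ 1) →
        |fke q (R.dm δ) (fun F => f (path (R.dm δ) F)) -
          fke 1 (R.dm δ) (fun F => f (path (R.dm δ) F))| ≤ C * (|th q| * δ ^ (-(7/8) : ℝ)))
    (f : X → ℝ) (h0 : ∀ x, 0 ≤ f x) (h1 : ∀ x, f x ≤ 1) :
    |fke q (R.dm δ) (fun F => f (R.curve δ F, R.time δ F)) -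
      E (R.dm δ).edges (fun F => f (R.curve δ F, R.time δ F))| ≤
        C * (|th q| * δ ^ (-(7/8) : ℝ)) := by
  obtain ⟨g, hg⟩ := curve_path R hD
  have h2 := h (fun x => f (g x)) (fun x => h0 _) (fun x => h1 _)
  have e1 : ∀ q, fke q (R.dm δ) (fun F => f (g (path (R.dm δ) F))) =
      fke q (R.dm δ) (fun F => f (R.curve δ F, R.time δ F)) := by
    intro q
    unfold fke
    exact em_congr fun F hF => by
      beta_reduce
      rw [hg F (hF.trans (rnd_sub _))]
  rw [e1, e1] at h2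
  have e2 : fke 1 (R.dm δ) (fun F => f (R.curve δ F, R.time δ F)) =
      E (R.dm δ).edges (fun F => f (R.curve δ F, R.time δ F)) := by
    unfold fke
    rw [fkm_un]
    apply em_rnd
    intro F hF
    have h3 : path (R.dm δ) (F ∩ rnd (R.dm δ)) = path (R.dm δ) F := by
      unfold path
      rw [walk_rnd hF, len_rnd hF]
    rw [hg F hF, hg _ (Finset.inter_subset_left.trans hF), h3]
  rwa [e2] at h2

end Q291.FK
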