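import Pool.Agent.Q291.FK.Clus

/-!
The exploration of the path as a sequential exploration of the random edges.
-/

set_option autoImplicit false

namespace Q291.FK

open H974 Finset H342P H984P H984N Q291.EP

theorem rnd_sub (D : Dm) : rnd D ⊆ D.edges := fun _ he => (mem_rnd.mp he).1

theorem tm_mono {D : Dm} (hD : D.Ok) (m : ℕ) {F : Finset Edg} (hF : F ⊆ D.edges) :
    tm D m F ≤ tm D (m + 1) F := by
  apply Nat.sInf_le
  rcases tm_spec hD (m + 1) hF with h | h
  · exact Or.inl h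
  · exact Or.inr (by omega)

theorem Yk_lt_congr {D : Dm} {F G : Finset Edg} {T : ℕ}
    (h : ∀ k < T, D.walk G k = D.walk F k) : Yk D G T = Yk D F T := by
  ext e
  rw [mem_Yk, mem_Yk]
  constructor
  · rintro ⟨⟨s, hs, h1⟩, h2⟩
    rw [h s hs] at h1
    exact ⟨⟨s, hs, h1⟩, h2⟩
  · rintro ⟨⟨s, hs, h1⟩, h2⟩
    rw [← h s hs] at h1
    exact ⟨⟨s, hs, h1⟩, h2⟩

/-- Before the `(m+1)`-st new edge is examined, the set of examined edges is `Xm m`. -/
theorem Yk_eq_Xm {D : Dm} (hD : D.Ok) (m : ℕ) {F : Finset Edg} (hF : F ⊆ D.edges) {k : ℕ}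
    (h1 : tm D m F ≤ k) (h2 : (Yk D F k).card ≤ m) (h3 : k ≤ tm D (m + 1) F) :
    Yk D F k = Xm D m F := by
  have hsub : Xm D m F ⊆ Yk D F k := Yk_mono D F h1
  symm
  rcases tm_spec hD m hF with h | h
  · have h4 : tm D (m + 1) F ≤ tm D m F := Nat.sInf_le (Or.inl h)
    have : k = tm D m F := by omega
    rw [this]
    rfl
  · exact Finset.eq_of_subset_of_card_le hsub (h2.trans h)

theorem tm_eq_of {D : Dm} {m t : ℕ} {F : Finset Edg}
    (h1 : D.walk F t = Dm.stop ∨ m ≤ (Yk D F t).card)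
    (h2 : ∀ k < t, ¬ (D.walk F k = Dm.stop ∨ m ≤ (Yk D F k).card)) : tm D m F = t := by
  apply le_antisymm
  · exact Nat.sInf_le h1
  · by_contra hlt
    push Not at hlt
    have hne : ({k | D.walk F k = Dm.stop ∨ m ≤ (Yk D F k).card} : Set ℕ).Nonempty := ⟨t, h1⟩
    exact h2 _ hlt (Nat.sInf_mem hne)

theorem pre_aux {D : Dm} (hD : D.Ok) (m : ℕ) {F G : Finset Edg} (hF : F ⊆ D.edges)
    (hG : G ⊆ D.edges) (h : F ∩ Xm D m F = G ∩ Xm D m F) : Xm D (m + 1) G = Xm D (m + 1) F := by
  obtain ⟨t, ht⟩ : ∃ t, t = tm D (m + 1) F := ⟨_, rfl⟩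
  have htm := tm_mono hD m hF
  rw [← ht] at htm
  rcases Nat.lt_or_ge m (Yk D F t).card with hc | hc
  · have ht0 : 0 < t := by
      by_contra h0
      have : t = 0 := by omega
      rw [this, Yk_zero] at hc
      simp at hc
    have hk : ∀ k < t, ¬ (D.walk F k = Dm.stop ∨ m + 1 ≤ (Yk D F k).card) := fun k hk =>
      tm_min (by rw [← ht]; exact hk)
    have h1 := hk (t - 1) (by omega)
    push Not at h1
    have hlt : tm D m F ≤ t - 1 := by
      by_contra hcon
      have : tm D m F = t := by omega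
      have h2 : Xm D m F = Yk D F t := by unfold Xm; rw [this]
      have h3 := Xm_card m F (D := D)
      rw [h2] at h3
      omega
    have h2 : Yk D F (t - 1) = Xm D m F := Yk_eq_Xm hD m hF hlt (by omega) (by omega)
    have h3 : ∀ k ≤ t - 1, D.walk G k = D.walk F k := agree hF hG (by rw [h2]; exact h)
    have h4 : ∀ k ≤ t, Yk D G k = Yk D F k := fun k hk' =>
      Yk_lt_congr fun j hj => h3 j (by omega)
    have h5 : tm D (m + 1) G = t := by
      apply tm_eq_of
      · right
        rw [h4 t le_rfl]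
        omega
      · intro k hk'
        rw [h3 k (by omega), h4 k (by omega)]
        exact hk k hk'
    unfold Xm
    rw [h5, ← ht, h4 t le_rfl]
  · have h2 : Yk D F t = Xm D m F := Yk_eq_Xm hD m hF htm hc (by omega)
    have h3 : ∀ k ≤ t, D.walk G k = D.walk F k := agree hF hG (by rw [h2]; exact h)
    have h4 := tm_congr hD (m + 1) hF (G := G) (by rw [← ht]; exact h3)
    unfold Xm
    rw [h4, ← ht, Yk_congr h3 t le_rfl]

/-- The exploration. -/
theorem chn {D : Dm} (hD : D.Ok) : Chn (rnd D) (Xm D) where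
  zero F _ := by
    unfold Xm
    have : tm D 0 F = 0 := tm_eq_of (Or.inr (Nat.zero_le _)) (fun k hk => absurd hk (by omega))
    rw [this, Yk_zero]
  sub m F _ := fun e he => mem_rnd.mpr (mem_Yk.mp he).2
  mono m F hF := Yk_mono D F (tm_mono hD m (hF.trans (rnd_sub D)))
  one m F hF := by
    have hF' := hF.trans (rnd_sub D)
    rcases tm_spec hD m hF' with h | h
    · have h4 : tm D (m + 1) F ≤ tm D m F := Nat.sInf_le (Or.inl h)
      have h5 := tm_mono hD m hF'
      have : tm D (m + 1) F = tm D m F := by omega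
      unfold Xm
      rw [this]
      omega
    · have := Xm_card (m + 1) F (D := D)
      have h5 : m ≤ (Xm D m F).card := h
      omega
  pre m F G hF hG h := pre_aux hD m (hF.trans (rnd_sub D)) (hG.trans (rnd_sub D)) h

/-- A new random edge is examined at time `s`. -/
def New (D : Dm) (F : Finset Edg) (s : ℕ) : Prop :=
  ae (D.walk F s) ∈ rnd D ∧ ae (D.walk F s) ∉ Yk D F s

theorem Yk_new {D : Dm} {F : Finset Edg} {s : ℕ} (h : New D F s) :
    Yk D F (s + 1) = insert (ae (D.walk F s)) (Yk D F s) := by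
  ext e
  rw [mem_Yk, Finset.mem_insert, mem_Yk]
  constructor
  · rintro ⟨⟨k, hk, h1⟩, h2⟩
    rcases Nat.lt_succ_iff_lt_or_eq.mp hk with h3 | h3
    · exact Or.inr ⟨⟨k, h3, h1⟩, h2⟩
    · left
      rw [← h1, h3]
  · rintro (h1 | ⟨⟨k, hk, h1⟩, h2⟩)
    · exact ⟨⟨s, Nat.lt_succ_self s, h1.symm⟩, by
        have := mem_rnd.mp h.1
        rw [← h1] at this
        exact this⟩
    · exact ⟨⟨k, by omega, h1⟩, h2⟩

theorem Yk_new_card {D : Dm} {F : Finset Edg} {s : ℕ} (h : New D F s) :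
    (Yk D F (s + 1)).card = (Yk D F s).card + 1 := by
  rw [Yk_new h, Finset.card_insert_of_notMem h.2]

theorem walk_ne {D : Dm} {F : Finset Edg} {k : ℕ} (hk : k < D.len F) : D.walk F k ≠ Dm.stop := by
  intro h
  exact absurd (Nat.sInf_le (s := {k | D.walk F k = Dm.stop}) h) (not_le.mpr hk)

/-- The index of a new edge. -/
theorem idx {D : Dm} (hD : D.Ok) {F : Finset Edg} (hF : F ⊆ D.edges) {s : ℕ} (hs : s < D.len F)
    (h : New D F s) : tm D ((Yk D F s).card + 1) F = s + 1 ∧
      Xm D (Yk D F s).card F = Yk D F s ∧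
      Xm D ((Yk D F s).card + 1) F = insert (ae (D.walk F s)) (Xm D (Yk D F s).card F) := by
  have h1 : tm D ((Yk D F s).card + 1) F = s + 1 := by
    apply tm_eq_of
    · right
      rw [Yk_new_card h]
    · intro k hk
      push Not
      refine ⟨walk_ne (by omega), ?_⟩
      have := Finset.card_le_card (Yk_mono D F (show k ≤ s by omega))
      omega
  have h2 : Xm D (Yk D F s).card F = Yk D F s := by
    symm
    apply Yk_eq_Xm hD _ hF
    · exact Nat.sInf_le (Or.inr le_rfl)
    · exact le_rfl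
    · omega
  refine ⟨h1, h2, ?_⟩
  rw [h2, ← Yk_new h]
  unfold Xm
  rw [h1]

/-- The next revealed edge closes a cycle with the revealed open edges and the wired arc. -/
def Cy (D : Dm) (m : ℕ) (F : Finset Edg) : Prop :=
  ∃ e, e ∉ Xm D m F ∧ Xm D (m + 1) F = insert e (Xm D m F) ∧
    Reach (↑(F ∩ Xm D m F) ∪ D.wir) (src e) (tgt e)

theorem cy_msr {D : Dm} (hD : D.Ok) (m : ℕ) : Msr (rnd D) (Xm D m) (Cy D m) := by
  intro F G hF hG h
  have e1 := (chn hD).pre m F G hF hG h
  have e2 := (chn hD).st m hF hG h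
  unfold Cy
  rw [e1, e2, h]

theorem cy_rat {D : Dm} (_hD : D.Ok) (m : ℕ) {q : ℝ} (hq : 0 < q) :
    Rat (rnd D) (Xm D) (fkm q D) (Real.sqrt q) m (fun F => ind (Cy D m F)) := by
  intro F hF h0
  have hc : Cy D m F := by
    by_contra hn
    exact h0 (ind_not_of hn)
  obtain ⟨e, he, hX, hr⟩ := hc
  refine ⟨e, he, hX, ?_⟩
  have heE : e ∈ rnd D := by
    have : e ∈ Xm D (m + 1) F := by rw [hX]; exact Finset.mem_insert_self _ _
    exact mem_rnd.mpr (mem_Yk.mp this).2
  have h1 := (fk_ratio hq (mem_rnd.mp heE).1 (Finset.notMem_erase e F)).1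
  have h2 : Reach (D.cfg (F.erase e)) (src e) (tgt e) := by
    refine hr.mono ?_
    unfold Dm.cfg
    apply Set.union_subset_union_left
    intro x hx
    rw [Finset.mem_coe, Finset.mem_inter] at hx
    rw [Finset.mem_coe, Finset.mem_erase]
    exact ⟨fun h => he (h ▸ hx.2), hx.1⟩
  have h3 := h1 h2
  have h4 : insert e (F.erase e) = insert e F := by
    ext x
    simp only [Finset.mem_insert, Finset.mem_erase]
    tauto
  rwa [h4] at h3

end Q291.FK
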