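import Pool.Agent.Q291.FK.Sg
import Pool.Agent.Q291.EP.Wk
import Pool.Agent.H973R2.Conn

/-!
The number of clusters, and the random-cluster weights with Dobrushin boundary condition.
-/

set_option autoImplicit false

namespace Q291.FK

open H974 Finset H342P H984P H984N Q291.EP

/-- The cluster of a vertex. -/
def cl (G : Set Edg) (v : Vtx) : Set Vtx := {w | Reach G v w}

/-- The number of clusters which meet `R`. -/
noncomputable def ncl (R : Finset Vtx) (G : Set Edg) : ℕ := Set.ncard (cl G '' (R : Set Vtx))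

theorem cl_eq {G : Set Edg} {u v : Vtx} (h : Reach G u v) : cl G u = cl G v := by
  ext w
  exact ⟨fun h1 => h.symm.trans h1, fun h1 => h.trans h1⟩

theorem cl_eq_iff {G : Set Edg} {u v : Vtx} : cl G u = cl G v ↔ Reach G u v := by
  constructor
  · intro h
    have : v ∈ cl G v := Reach.refl _ _
    rw [← h] at this
    exact this
  · exact cl_eq

theorem ncl_same (R : Finset Vtx) {G : Set Edg} {e : Edg} (h : Reach G (src e) (tgt e)) :
    ncl R (insert e G) = ncl R G := by
  have : ∀ v, cl (insert e G) v = cl G v := by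
    intro v
    ext w
    unfold cl
    simp only [Set.mem_ofPred_eq]
    rw [H973.reach_insert]
    constructor
    · rintro (h1 | ⟨h1, h2⟩ | ⟨h1, h2⟩)
      · exact h1
      · exact (h1.trans h).trans h2
      · exact (h1.trans h.symm).trans h2
    · exact fun h1 => Or.inl h1
  unfold ncl
  congr 1
  exact Set.image_congr fun v _ => this v

theorem ncl_merge {R : Finset Vtx} {G : Set Edg} {e : Edg} (h : ¬ Reach G (src e) (tgt e))
    (hs : src e ∈ R) (ht : tgt e ∈ R) : ncl R G = ncl R (insert e G) + 1 := by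
  classical
  obtain ⟨u, hu⟩ : ∃ u, u = src e := ⟨_, rfl⟩
  obtain ⟨v, hv⟩ : ∃ v, v = tgt e := ⟨_, rfl⟩
  rw [← hu] at hs
  rw [← hv] at ht
  rw [← hu, ← hv] at h
  have hins : ∀ x y, Reach (insert e G) x y ↔ Reach G x y ∨ (Reach G x u ∧ Reach G v y) ∨
      (Reach G x v ∧ Reach G u y) := by
    intro x y
    rw [hu, hv]
    exact H973.reach_insert
  have hc : ∀ x, cl (insert e G) x = if Reach G x u ∨ Reach G x v then cl G u ∪ cl G v
      else cl G x := by
    intro x
    split_ifs with hx
    · ext y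
      unfold cl
      simp only [Set.mem_ofPred_eq, Set.mem_union]
      rw [hins]
      rcases hx with hx | hx
      · constructor
        · rintro (h1 | ⟨h1, h2⟩ | ⟨h1, h2⟩)
          · exact Or.inl (hx.symm.trans h1)
          · exact Or.inr h2
          · exact Or.inl h2
        · rintro (h1 | h1)
          · exact Or.inl (hx.trans h1)
          · exact Or.inr (Or.inl ⟨hx, h1⟩)
      · constructor
        · rintro (h1 | ⟨h1, h2⟩ | ⟨h1, h2⟩)
          · exact Or.inr (hx.symm.trans h1)
          · exact Or.inr h2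
          · exact Or.inl h2
        · rintro (h1 | h1)
          · exact Or.inr (Or.inr ⟨hx, h1⟩)
          · exact Or.inl (hx.trans h1)
    · ext y
      unfold cl
      simp only [Set.mem_ofPred_eq]
      rw [hins]
      constructor
      · rintro (h1 | ⟨h1, h2⟩ | ⟨h1, h2⟩)
        · exact h1
        · exact absurd (Or.inl h1) hx
        · exact absurd (Or.inr h1) hx
      · exact fun h1 => Or.inl h1
  have hfin : (cl G '' (R : Set Vtx)).Finite := R.finite_toSet.image _
  have hset : cl (insert e G) '' (R : Set Vtx) =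
      insert (cl G u ∪ cl G v) ((cl G '' (R : Set Vtx)) \ {cl G u, cl G v}) := by
    ext C
    simp only [Set.mem_image, Set.mem_insert_iff, Set.mem_diff, Set.mem_singleton_iff]
    constructor
    · rintro ⟨x, hx, rfl⟩
      rw [hc x]
      split_ifs with h1
      · exact Or.inl rfl
      · right
        refine ⟨⟨x, hx, rfl⟩, ?_⟩
        rintro (h2 | h2)
        · exact h1 (Or.inl (cl_eq_iff.mp h2))
        · exact h1 (Or.inr (cl_eq_iff.mp h2))
    · rintro (rfl | ⟨⟨x, hx, rfl⟩, h1⟩)
      · refine ⟨u, hs, ?_⟩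
        rw [hc u, if_pos (Or.inl (Reach.refl _ _))]
      · refine ⟨x, hx, ?_⟩
        rw [hc x, if_neg]
        rintro (h2 | h2)
        · exact h1 (Or.inl (cl_eq h2))
        · exact h1 (Or.inr (cl_eq h2))
  have hne : cl G u ≠ cl G v := fun h1 => h (cl_eq_iff.mp h1)
  have hnot : (cl G u ∪ cl G v) ∉ ((cl G '' (R : Set Vtx)) \ {cl G u, cl G v}) := by
    rintro ⟨⟨x, _, hx⟩, h1⟩
    simp only [Set.mem_insert_iff, Set.mem_singleton_iff] at h1
    apply h1
    left
    have hxu : u ∈ cl G x := by rw [hx]; exact Or.inl (Reach.refl _ _)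
    rw [← hx]
    exact cl_eq hxu
  unfold ncl
  rw [hset, Set.ncard_insert_of_notMem hnot (hfin.subset Set.sdiff_subset)]
  have hsub : ({cl G u, cl G v} : Set (Set Vtx)) ⊆ cl G '' (R : Set Vtx) := by
    rintro C (rfl | rfl)
    · exact ⟨u, hs, rfl⟩
    · exact ⟨v, ht, rfl⟩
  have h2 := Set.ncard_sdiff_add_ncard_of_subset hsub hfin
  rw [Set.ncard_pair hne] at h2
  omega

/-- The vertices of the rectangle. -/
noncomputable def vts (D : Dm) : Finset Vtx := Finset.Icc D.l D.r ×ˢ Finset.Icc 0 D.h

/-- The critical random-cluster weight with the wired arc open. -/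
noncomputable def fkw (q : ℝ) (D : Dm) (F : Finset Edg) : ℝ :=
  Real.sqrt q ^ F.card * q ^ ncl (vts D) (D.cfg F)

/-- The partition function. -/
noncomputable def fkz (q : ℝ) (D : Dm) : ℝ := ∑ F ∈ (rnd D).powerset, fkw q D F

/-- The normalised weights. -/
noncomputable def fkm (q : ℝ) (D : Dm) (F : Finset Edg) : ℝ := fkw q D F / fkz q D

theorem fkw_pos {q : ℝ} (hq : 0 < q) (D : Dm) (F : Finset Edg) : 0 < fkw q D F := by
  unfold fkw
  have := Real.sqrt_pos.mpr hq
  positivity

theorem fkz_pos {q : ℝ} (hq : 0 < q) (D : Dm) : 0 < fkz q D :=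
  Finset.sum_pos (fun F _ => fkw_pos hq D F) ⟨∅, Finset.mem_powerset.mpr (Finset.empty_subset _)⟩

theorem fk_law {q : ℝ} (hq : 0 < q) (D : Dm) : Law (rnd D) (fkm q D) where
  pos F _ := div_pos (fkw_pos hq D F) (fkz_pos hq D)
  one := by
    unfold fkm
    rw [← Finset.sum_div]
    exact div_self (fkz_pos hq D).ne'

theorem cfg_insert (D : Dm) (e : Edg) (F : Finset Edg) :
    D.cfg (insert e F) = insert e (D.cfg F) := by
  unfold Dm.cfg
  rw [Finset.coe_insert, Set.insert_union]

theorem ends_mem {D : Dm} {e : Edg} (he : e ∈ D.edges) : src e ∈ vts D ∧ tgt e ∈ vts D := by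
  obtain ⟨x, y, b⟩ := e
  unfold Dm.edges at he
  unfold vts
  cases b
  · rw [mem_RE_false] at he
    simp only [src_mk, tgt_false, Finset.mem_product, Finset.mem_Icc]
    omega
  · rw [mem_RE_true] at he
    simp only [src_mk, tgt_true, Finset.mem_product, Finset.mem_Icc]
    omega

/-- The two possible ratios. -/
theorem fk_ratio {q : ℝ} (hq : 0 < q) {D : Dm} {e : Edg} (he : e ∈ D.edges) {G : Finset Edg}
    (heG : e ∉ G) :
    (Reach (D.cfg G) (src e) (tgt e) → fkm q D (insert e G) = Real.sqrt q * fkm q D G) ∧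
    (¬ Reach (D.cfg G) (src e) (tgt e) → fkm q D G = Real.sqrt q * fkm q D (insert e G)) := by
  have hs := Real.sqrt_pos.mpr hq
  have h2 : Real.sqrt q * Real.sqrt q = q := Real.mul_self_sqrt hq.le
  constructor
  · intro h
    unfold fkm fkw
    rw [cfg_insert, ncl_same _ h, Finset.card_insert_of_notMem heG, pow_succ]
    ring
  · intro h
    unfold fkm fkw
    obtain ⟨h3, h4⟩ := ends_mem he
    rw [cfg_insert, ncl_merge h h3 h4, Finset.card_insert_of_notMem heG, pow_succ, pow_succ]
    rw [← mul_div_assoc]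
    congr 1
    calc Real.sqrt q ^ G.card * (q ^ ncl (vts D) (insert e (D.cfg G)) * q)
        = Real.sqrt q ^ G.card * (q ^ ncl (vts D) (insert e (D.cfg G)) *
            (Real.sqrt q * Real.sqrt q)) := by rw [h2]
      _ = _ := by ring

/-- The larger of the two ratios. -/
noncomputable def rr (q : ℝ) : ℝ := max (Real.sqrt q) (1 / Real.sqrt q)

theorem one_le_rr {q : ℝ} (hq : 0 < q) : 1 ≤ rr q := by
  have hs := Real.sqrt_pos.mpr hq
  rcases le_total 1 (Real.sqrt q) with h | h
  · exact h.trans (le_max_left _ _)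
  · refine le_trans ?_ (le_max_right _ _)
    rw [le_div_iff₀ hs]
    linarith

theorem fk_near {q : ℝ} (hq : 0 < q) (D : Dm) : Near (rnd D) (fkm q D) (rr q) := by
  intro e he G _ heG
  have hs := Real.sqrt_pos.mpr hq
  obtain ⟨h1, h2⟩ := fk_ratio hq (mem_rnd.mp he).1 heG
  have p1 : 0 < fkm q D G := div_pos (fkw_pos hq D _) (fkz_pos hq D)
  have p2 : 0 < fkm q D (insert e G) := div_pos (fkw_pos hq D _) (fkz_pos hq D)
  have r1 : Real.sqrt q ≤ rr q := le_max_left _ _
  have r2 : 1 / Real.sqrt q ≤ rr q := le_max_right _ _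
  by_cases h : Reach (D.cfg G) (src e) (tgt e)
  · have h3 := h1 h
    refine ⟨?_, ?_⟩
    · rw [h3]; exact mul_le_mul_of_nonneg_right r1 p1.le
    · have h4 : fkm q D G = 1 / Real.sqrt q * fkm q D (insert e G) := by
        rw [h3]; field_simp
      rw [h4]
      exact mul_le_mul_of_nonneg_right r2 p2.le
  · have h3 := h2 h
    refine ⟨?_, ?_⟩
    · have h4 : fkm q D (insert e G) = 1 / Real.sqrt q * fkm q D G := by
        rw [h3]; field_simp
      rw [h4]
      exact mul_le_mul_of_nonneg_right r2 p1.le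
    · rw [h3]
      exact mul_le_mul_of_nonneg_right r1 p2.le

theorem fkm_one (D : Dm) : ∀ F, fkm 1 D F = un (rnd D) F := by
  intro F
  have h1 : ∀ G, fkw 1 D G = 1 := by
    intro G
    unfold fkw
    rw [Real.sqrt_one, one_pow, one_pow, one_mul]
  unfold fkm fkz un
  simp only [h1, Finset.sum_const, Finset.card_powerset, nsmul_eq_mul, mul_one]
  push_cast
  rw [one_div, one_div, inv_pow]

end Q291.FK
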