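import Pool.Agent.Q291.FK.Pat

/-!
Counting: many edges which close cycles are examined.
-/

set_option autoImplicit false

namespace Q291.FK

open H974 Finset H342P H984P H984N Q291.EP

/-- The `m`-th new edge has a new face on its other side. -/
def Al (D : Dm) (m : ℕ) (F : Finset Edg) : Prop :=
  ∃ s, s < D.len F ∧ New D F s ∧ (Yk D F s).card = m ∧ Inn D (face (rt (D.walk F s))) ∧
    face (rt (D.walk F s)) ∉ VF D F s

/-- Moreover its other end point is new. -/
def Am (D : Dm) (m : ℕ) (F : Finset Edg) : Prop :=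
  ∃ s, s < D.len F ∧ New D F s ∧ (Yk D F s).card = m ∧ Inn D (face (rt (D.walk F s))) ∧
    face (rt (D.walk F s)) ∉ VF D F s ∧ (mv (D.walk F s)).1 ∉ VV D F s

/-- One of the nine next new edges closes a cycle. -/
def Pm (D : Dm) (m : ℕ) (F : Finset Edg) : Prop := ∃ m', m + 1 ≤ m' ∧ m' ≤ m + 9 ∧ Cy D m' F

theorem al_cases {D : Dm} (hD : D.Ok) {m : ℕ} {F : Finset Edg} (hF : F ⊆ rnd D)
    (h : Al D m F) : Am D m F ∨ Cy D m F := by
  obtain ⟨s, h1, h2, h3, h4, h5⟩ := h
  by_cases hc : (mv (D.walk F s)).1 ∈ VV D F s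
  · right
    obtain ⟨-, i2, i3⟩ := idx hD (hF.trans (rnd_sub D)) h1 h2
    rw [h3] at i2 i3
    refine ⟨ae (D.walk F s), ?_, i3, ?_⟩
    · rw [i2]; exact h2.2
    · rw [i2]
      have r1 := VV_conn hD hF (s := s) (Or.inl ⟨s, le_rfl, rfl⟩)
      have r2 := VV_conn hD hF hc
      rcases ends (D.walk F s) with h | h
      · rw [h.1, h.2]
        exact r1.symm.trans r2
      · rw [h.1, h.2]
        exact r2.symm.trans r1
  · exact Or.inl ⟨s, h1, h2, h3, h4, h5, hc⟩

theorem pat_m {D : Dm} (hD : D.Ok) {m : ℕ} {F : Finset Edg} (hF : F ⊆ rnd D)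
    (h : Am D m F) : ∃ F', F' ⊆ rnd D ∧ F ∩ Xm D m F = F' ∩ Xm D m F ∧ Pm D m F' ∧
      ∀ e, e ∉ KK (D.walk F' (tm D (m + 1) F' - 1)) → (e ∈ F ↔ e ∈ F') := by
  obtain ⟨s, h1, h2, h3, h4, h5, h6⟩ := h
  obtain ⟨F', a1, a2, a3, a4, a5, a6, a7, m', a8, a9, a10⟩ := pat hD hF h1 h2 h4 h5 h6
  obtain ⟨-, i2, -⟩ := idx hD (hF.trans (rnd_sub D)) h1 h2
  obtain ⟨j1, -, -⟩ := idx hD (a1.trans (rnd_sub D)) a5 a4
  rw [h3] at i2
  rw [a7, h3] at j1
  refine ⟨F', a1, by rw [i2]; exact a2, ⟨m', by omega, by omega, a10⟩, ?_⟩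
  rw [j1, Nat.add_sub_cancel, a6]
  exact a3

/-- The price of the turn. -/
theorem price {D : Dm} (hD : D.Ok) (m : ℕ) {a : Finset Edg → ℝ} (ha : Msr (rnd D) (Xm D m) a)
    (ha0 : ∀ F, F ⊆ rnd D → 0 ≤ a F) :
    em (un (rnd D)) (rnd D) (fun F => a F * ind (Am D m F)) ≤
      512 * em (un (rnd D)) (rnd D) (fun F => a F * ind (Pm D m F)) := by
  classical
  have hsplit : ∀ A : Finset Edg → Prop, em (un (rnd D)) (rnd D) (fun F => a F * ind (A F)) =
      (1/2) ^ (rnd D).card * ∑ F ∈ (rnd D).powerset.filter A, a F := by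
    intro A
    unfold em un
    rw [Finset.mul_sum, Finset.sum_filter]
    refine Finset.sum_congr rfl fun F _ => ?_
    beta_reduce
    by_cases hA : A F
    · rw [if_pos hA, ind_of hA, mul_one]
    · rw [if_neg hA, ind_not_of hA, mul_zero, mul_zero]
  rw [hsplit, hsplit, mul_left_comm]
  apply mul_le_mul_of_nonneg_left _ (by positivity)
  have hex : ∀ F, F ∈ (rnd D).powerset.filter (Am D m) → ∃ F', F' ⊆ rnd D ∧
      F ∩ Xm D m F = F' ∩ Xm D m F ∧ Pm D m F' ∧
      ∀ e, e ∉ KK (D.walk F' (tm D (m + 1) F' - 1)) → (e ∈ F ↔ e ∈ F') := by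
    intro F hF
    rw [Finset.mem_filter, Finset.mem_powerset] at hF
    exact pat_m hD hF.1 hF.2
  choose! φ hφ using hex
  have hmaps : ∀ F ∈ (rnd D).powerset.filter (Am D m), φ F ∈ (rnd D).powerset.filter (Pm D m) :=
    fun F hF => Finset.mem_filter.mpr ⟨Finset.mem_powerset.mpr (hφ F hF).1, (hφ F hF).2.2.1⟩
  rw [← Finset.sum_fiberwise_of_maps_to hmaps, Finset.mul_sum]
  apply Finset.sum_le_sum
  intro G hG
  have hG' := (Finset.mem_powerset.mp (Finset.mem_filter.mp hG).1)
  have e1 : ∑ F ∈ (rnd D).powerset.filter (Am D m) with φ F = G, a F =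
      ∑ F ∈ (rnd D).powerset.filter (Am D m) with φ F = G, a G := by
    refine Finset.sum_congr rfl fun F hF => ?_
    rw [Finset.mem_filter] at hF
    obtain ⟨h1, h2, -, -⟩ := hφ F hF.1
    rw [hF.2] at h1 h2
    exact (ha F G (Finset.mem_powerset.mp (Finset.mem_filter.mp hF.1).1) h1 h2).symm
  rw [e1, Finset.sum_const, nsmul_eq_mul]
  apply mul_le_mul_of_nonneg_right _ (ha0 G hG')
  have hcard : ((rnd D).powerset.filter (Am D m) |>.filter (fun F => φ F = G)).card ≤
      (KK (D.walk G (tm D (m + 1) G - 1))).powerset.card := by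
    apply Finset.card_le_card_of_injOn (fun F => F ∩ KK (D.walk G (tm D (m + 1) G - 1)))
    · intro F _
      exact Finset.mem_coe.mpr (Finset.mem_powerset.mpr Finset.inter_subset_right)
    · intro F hF F2 hF2 hFF
      simp only [Finset.coe_filter, Set.mem_ofPred_eq] at hF hF2
      have k1 := (hφ F hF.1).2.2.2
      have k2 := (hφ F2 hF2.1).2.2.2
      rw [hF.2] at k1
      rw [hF2.2] at k2
      ext e
      by_cases he : e ∈ KK (D.walk G (tm D (m + 1) G - 1))
      · have : e ∈ F ∩ KK (D.walk G (tm D (m + 1) G - 1)) ↔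
            e ∈ F2 ∩ KK (D.walk G (tm D (m + 1) G - 1)) := by
          have h := hFF
          simp only at h
          rw [h]
        simpa [he] using this
      · rw [k1 e he, k2 e he]
  rw [Finset.card_powerset] at hcard
  have h9 : 2 ^ (KK (D.walk G (tm D (m + 1) G - 1))).card ≤ 2 ^ 9 :=
    Nat.pow_le_pow_right (by norm_num) (card_KK _)
  have : ((rnd D).powerset.filter (Am D m) |>.filter (fun F => φ F = G)).card ≤ 512 :=
    hcard.trans (h9.trans (by norm_num))
  exact_mod_cast this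

/-! ### the deterministic count -/

/-- The edges of a face. -/
def ef (f : Vtx) : Finset Edg :=
  {(f.1, f.2, true), (f.1, f.2 + 1, true), (f.1, f.2, false), (f.1 + 1, f.2, false)}

theorem card_ef (f : Vtx) : (ef f).card ≤ 4 := by
  unfold ef
  exact (Finset.card_insert_le _ _).trans (by
    have := (Finset.card_insert_le (f.1, f.2 + 1, true)
      ({(f.1, f.2, false), (f.1 + 1, f.2, false)} : Finset Edg))
    have h2 := (Finset.card_insert_le (f.1, f.2, false) ({(f.1 + 1, f.2, false)} : Finset Edg))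
    rw [Finset.card_singleton] at h2
    omega)

theorem mem_ef (σ : St) : ae σ ∈ ef (face σ) ∧ ae σ ∈ ef (face (rt σ)) := by
  obtain ⟨⟨x, y⟩, q⟩ := σ
  cases q <;> simp [ef]

theorem ef_rnd {D : Dm} {f : Vtx} (hf : Inn D f) {e : Edg} (he : e ∈ ef f) : e ∈ D.edges := by
  obtain ⟨x, y⟩ := f
  unfold Inn at hf
  simp only at hf
  unfold ef at he
  simp only [Finset.mem_insert, Finset.mem_singleton] at he
  unfold Dm.edges
  rcases he with rfl | rfl | rfl | rfl
  · rw [mem_RE_true]; omega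
  · rw [mem_RE_true]; omega
  · rw [mem_RE_false]; omega
  · rw [mem_RE_false]; omega

theorem one_inn {D : Dm} (hD : D.Ok) {σ : St} (h : ae σ ∈ D.edges) :
    Inn D (face σ) ∨ Inn D (face (rt σ)) := by
  obtain ⟨⟨x, y⟩, q⟩ := σ
  have h1 := hD.l_neg
  have h2 := hD.r_pos
  have h3 := hD.h_pos
  unfold Dm.edges at h
  unfold Inn
  cases q <;> simp only [ae_ne, ae_nw, ae_se, ae_sw] at h <;>
    simp only [rt_ne, rt_nw, rt_se, rt_sw, face_ne, face_nw, face_se, face_sw]
  · rw [mem_RE_true] at h; omega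
  · rw [mem_RE_false] at h; omega
  · rw [mem_RE_true] at h; omega
  · rw [mem_RE_false] at h; omega

/-- A visited face of the rectangle was entered through a new edge. -/
theorem entered {D : Dm} {F : Finset Edg} {T : ℕ} {f : Vtx}
    (hf : f ∈ VF D F T) (hi : Inn D f) : ∃ j < T, New D F j ∧ face (rt (D.walk F j)) = f ∧
      f ∉ VF D F j := by
  classical
  have hex : ∃ i, face (D.walk F i) = f := by
    obtain ⟨i, -, h⟩ := hf
    exact ⟨i, h⟩
  obtain ⟨i, hi0, hmin⟩ : ∃ i, face (D.walk F i) = f ∧ ∀ k < i, face (D.walk F k) ≠ f :=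
    ⟨Nat.find hex, Nat.find_spec hex, fun k hk => Nat.find_min hex hk⟩
  have hiT : i ≤ T := by
    obtain ⟨k, hk, h⟩ := hf
    by_contra hcon
    exact hmin k (by omega) h
  have hi1 : i ≠ 0 := by
    intro h
    rw [h, walk_zero] at hi0
    have : face D.start = (D.t, D.h) := rfl
    rw [this] at hi0
    rw [← hi0] at hi
    unfold Inn at hi
    simp only at hi
    omega
  obtain ⟨j, rfl⟩ : ∃ j, i = j + 1 := ⟨i - 1, by omega⟩
  have hc : ae (D.walk F j) ∉ D.cfg F := by
    intro hc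
    rw [walk_succ, nxt_open hc, face_mv] at hi0
    exact hmin j (Nat.lt_succ_self j) hi0
  rw [walk_succ, nxt_closed hc] at hi0
  have hnv : f ∉ VF D F j := by
    rintro ⟨k, hk, h⟩
    exact hmin k (by omega) h
  refine ⟨j, by omega, ⟨?_, ?_⟩, hi0, hnv⟩
  · refine mem_rnd.mpr ⟨ef_rnd hi ?_, fun h => hc (Or.inr h)⟩
    rw [← hi0]
    exact (mem_ef _).2
  · intro h
    have h1 := (exam h).2 hc
    rcases sides (D.walk F j) with h2 | h2
    · rw [h2.2, hi0] at h1; exact hnv h1.2
    · rw [h2.2, hi0] at h1; exact hnv h1.1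

/-- At least a fifth of the new edges have a new face on the other side. -/
theorem fifth {D : Dm} (hD : D.Ok) {F : Finset Edg} {T : ℕ}
    (hT : T ≤ D.len F) : ∀ M, (Yk D F T).card = M →
    ∃ Z : Finset ℕ, Z ⊆ range M ∧ M ≤ 5 * Z.card ∧ ∀ m ∈ Z, Al D m F := by
  classical
  intro M hM
  obtain ⟨AT, hAT⟩ : ∃ AT, AT = (range T).filter (fun j => New D F j ∧
    Inn D (face (rt (D.walk F j))) ∧ face (rt (D.walk F j)) ∉ VF D F j) := ⟨_, rfl⟩
  have hmem : ∀ j, j ∈ AT ↔ j < T ∧ New D F j ∧ Inn D (face (rt (D.walk F j))) ∧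
      face (rt (D.walk F j)) ∉ VF D F j := by
    intro j
    rw [hAT, Finset.mem_filter, Finset.mem_range]
  have hcov : Yk D F T ⊆ AT.image (fun j => ae (D.walk F j)) ∪
      (AT.image (fun j => face (rt (D.walk F j)))).biUnion ef := by
    intro e he
    obtain ⟨⟨i, hi, h1⟩, h2, h3⟩ := mem_Yk.mp he
    have hex : ∃ i, ae (D.walk F i) = e := ⟨i, h1⟩
    obtain ⟨j, hj0, hmin⟩ : ∃ j, ae (D.walk F j) = e ∧ ∀ k < j, ae (D.walk F k) ≠ e :=
      ⟨Nat.find hex, Nat.find_spec hex, fun k hk => Nat.find_min hex hk⟩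
    have hjT : j < T := by
      by_contra hcon
      exact hmin i (by omega) h1
    have hnew : New D F j := by
      refine ⟨by rw [hj0]; exact mem_rnd.mpr ⟨h2, h3⟩, fun h => ?_⟩
      obtain ⟨⟨k, hk, h4⟩, -⟩ := mem_Yk.mp h
      exact hmin k hk (h4.trans hj0)
    rw [Finset.mem_union]
    by_cases hal : Inn D (face (rt (D.walk F j))) ∧ face (rt (D.walk F j)) ∉ VF D F j
    · left
      exact Finset.mem_image.mpr ⟨j, (hmem j).mpr ⟨hjT, hnew, hal⟩, hj0⟩
    · right
      have hfin : ∃ f, Inn D f ∧ f ∈ VF D F T ∧ e ∈ ef f := by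
        rcases one_inn hD (σ := D.walk F j) (by rw [hj0]; exact h2) with h | h
        · exact ⟨_, h, ⟨j, hjT.le, rfl⟩, by rw [← hj0]; exact (mem_ef _).1⟩
        · have : face (rt (D.walk F j)) ∈ VF D F j := by
            by_contra hn
            exact hal ⟨h, hn⟩
          obtain ⟨k, hk, h5⟩ := this
          exact ⟨_, h, ⟨k, by omega, h5⟩, by rw [← hj0]; exact (mem_ef _).2⟩
      obtain ⟨f, h4, h5, h6⟩ := hfin
      obtain ⟨k, hk, h7, h8, h9⟩ := entered h5 h4
      refine Finset.mem_biUnion.mpr ⟨f, Finset.mem_image.mpr ⟨k, (hmem k).mpr ⟨hk, h7, ?_, ?_⟩,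
        h8⟩, h6⟩
      · rw [h8]; exact h4
      · rw [h8]; exact h9
  have hc1 : (Yk D F T).card ≤ 5 * AT.card := by
    refine (Finset.card_le_card hcov).trans ((Finset.card_union_le _ _).trans ?_)
    have c1 : (AT.image (fun j => ae (D.walk F j))).card ≤ AT.card := Finset.card_image_le
    have c2 : ((AT.image (fun j => face (rt (D.walk F j)))).biUnion ef).card ≤ 4 * AT.card := by
      refine Finset.card_biUnion_le.trans ?_
      refine (Finset.sum_le_card_nsmul _ _ 4 (fun f _ => card_ef f)).trans ?_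
      rw [smul_eq_mul, Nat.mul_comm]
      exact Nat.mul_le_mul_left _ Finset.card_image_le
    omega
  have hinj : Set.InjOn (fun j => (Yk D F j).card) (AT : Set ℕ) := by
    intro i hi j hj hij
    rw [Finset.mem_coe, hmem] at hi hj
    have key : ∀ a b, New D F a → a < b → (Yk D F a).card < (Yk D F b).card := by
      intro a b ha hab
      have h1 := Finset.card_le_card (Yk_mono D F (show a + 1 ≤ b by omega))
      rw [Yk_new_card ha] at h1
      omega
    rcases Nat.lt_trichotomy i j with h | h | h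
    · have := key i j hi.2.1 h
      simp only at hij
      omega
    · exact h
    · have := key j i hj.2.1 h
      simp only at hij
      omega
  refine ⟨AT.image (fun j => (Yk D F j).card), ?_, ?_, ?_⟩
  · intro m hm
    obtain ⟨j, hj, rfl⟩ := Finset.mem_image.mp hm
    rw [hmem] at hj
    rw [Finset.mem_range, ← hM]
    have h1 := Finset.card_le_card (Yk_mono D F (show j + 1 ≤ T by omega))
    rw [Yk_new_card hj.2.1] at h1
    omega
  · rw [Finset.card_image_of_injOn hinj, ← hM]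
    exact hc1
  · intro m hm
    obtain ⟨j, hj, rfl⟩ := Finset.mem_image.mp hm
    rw [hmem] at hj
    exact ⟨j, by omega, hj.2.1, rfl, hj.2.2⟩

end Q291.FK
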