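import Pool.Agent.Q291.FK.Cnt

/-!
Under fair coins, a positive fraction of the examined edges close a cycle, with high probability.
-/

set_option autoImplicit false

namespace Q291.FK

open H974 Finset H342P H984P H984N Q291.EP

theorem am_msr {D : Dm} (hD : D.Ok) (m : ℕ) : Msr (rnd D) (Xm D m) (Am D m) := by
  have key : ∀ F G, F ⊆ rnd D → G ⊆ rnd D → F ∩ Xm D m F = G ∩ Xm D m F → Am D m F →
      Am D m G := by
    rintro F G hF hG h ⟨s, h1, h2, h3, h4, h5, h6⟩
    obtain ⟨-, i2, -⟩ := idx hD (hF.trans (rnd_sub D)) h1 h2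
    rw [h3] at i2
    rw [i2] at h
    have hw : ∀ j ≤ s, D.walk G j = D.walk F j :=
      agree (hF.trans (rnd_sub D)) (hG.trans (rnd_sub D)) h
    have hY : ∀ j ≤ s, Yk D G j = Yk D F j := Yk_congr hw
    refine ⟨s, ?_, ?_, ?_, ?_, ?_, ?_⟩
    · by_contra hcon
      push Not at hcon
      have h7 := walk_len hD (hG.trans (rnd_sub D))
      rw [hw _ hcon] at h7
      exact walk_ne (by omega) h7
    · unfold New
      rw [hw s le_rfl, hY s le_rfl]
      exact h2
    · rw [hY s le_rfl, h3]
    · rw [hw s le_rfl]; exact h4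
    · rw [hw s le_rfl]
      rintro ⟨i, hi, h7⟩
      exact h5 ⟨i, hi, by rw [← hw i hi]; exact h7⟩
    · rw [hw s le_rfl]
      rintro (⟨i, hi, h7⟩ | h7)
      · exact h6 (Or.inl ⟨i, hi, by rw [← hw i hi]; exact h7⟩)
      · exact h6 (Or.inr h7)
  intro F G hF hG h
  apply propext
  constructor
  · intro h1
    apply key G F hG hF _ h1
    rw [(chn hD).st m hF hG h]
    exact h.symm
  · exact key F G hF hG h

theorem pm_msr {D : Dm} (hD : D.Ok) (m : ℕ) : Msr (rnd D) (Xm D (m + 10)) (Pm D m) := by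
  intro F G hF hG h
  unfold Pm
  apply propext
  constructor
  · rintro ⟨m', h1, h2, h3⟩
    refine ⟨m', h1, h2, ?_⟩
    rw [← (chn hD).msr_mono (show m' ≤ m + 10 by omega) (cy_msr hD m') F G hF hG h]
    exact h3
  · rintro ⟨m', h1, h2, h3⟩
    refine ⟨m', h1, h2, ?_⟩
    rw [(chn hD).msr_mono (show m' ≤ m + 10 by omega) (cy_msr hD m') F G hF hG h]
    exact h3

/-- The number of new edges which close a cycle. -/
noncomputable def Np (D : Dm) (M : ℕ) (F : Finset Edg) : ℝ := ∑ m ∈ range M, ind (Cy D m F)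

/-- The increments. -/
noncomputable def uu (D : Dm) (m : ℕ) (F : Finset Edg) : ℝ :=
  1 / 512 * ind (Am D m F) - ind (Pm D m F)

theorem uu_abs (D : Dm) (m : ℕ) (F : Finset Edg) : |uu D m F| ≤ 1 := by
  unfold uu
  have h1 := ind_nonneg (Am D m F)
  have h2 := ind_le_one (Am D m F)
  have h3 := ind_nonneg (Pm D m F)
  have h4 := ind_le_one (Pm D m F)
  rw [abs_le]
  constructor <;> linarith

theorem block {D : Dm} (hD : D.Ok) (j K : ℕ) {t : ℝ} (ht : 0 ≤ t) (htK : t ≤ 2 * K)
    (hK : 1 ≤ K) :
    pr (un (rnd D)) (rnd D) (fun F => t ≤ ∑ k ∈ range K, uu D (10 * k + j) F) ≤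
      Real.exp (-(t ^ 2 / (4 * K))) := by
  have hK0 : (0:ℝ) < K := by exact_mod_cast hK
  obtain ⟨lam, hlam⟩ : ∃ lam, lam = t / (2 * K) := ⟨_, rfl⟩
  have hl0 : 0 ≤ lam := by rw [hlam]; positivity
  have hl1 : lam ≤ 1 := by
    rw [hlam, div_le_one (by positivity)]
    exact htK
  have h1 := exp_sum (X := Xm D) (un_law (rnd D)) (n := fun k => 10 * k + j)
    (u := fun k => uu D (10 * k + j)) (lam := lam) (b := 1) (fun k F _ => uu_abs D _ F)
    (by rw [abs_of_nonneg hl0, mul_one]; exact hl1) zero_le_one ?_ ?_ K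
  · have h2 := pr_le_exp (un_law (rnd D)) (t := t) hl0 h1
    refine h2.trans (le_of_eq ?_)
    rw [← Real.exp_add]
    congr 1
    rw [hlam]
    field_simp
    ring
  · intro k i hi
    have hc := chn hD
    have m1 : Msr (rnd D) (Xm D (10 * k + j)) (Am D (10 * i + j)) :=
      hc.msr_mono (by omega) (am_msr hD _)
    have m2 : Msr (rnd D) (Xm D (10 * k + j)) (Pm D (10 * i + j)) :=
      hc.msr_mono (by omega) (pm_msr hD _)
    exact msr_comp2 m1 m2 (fun p p' => 1 / 512 * ind p - ind p')
  · intro k A hA hA0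
    have h2 := price hD (10 * k + j) hA hA0
    have h3 : em (un (rnd D)) (rnd D) (fun F => A F * uu D (10 * k + j) F) =
        1 / 512 * em (un (rnd D)) (rnd D) (fun F => A F * ind (Am D (10 * k + j) F)) -
        em (un (rnd D)) (rnd D) (fun F => A F * ind (Pm D (10 * k + j) F)) := by
      rw [← em_smul, ← em_sub]
      refine em_congr fun F _ => ?_
      unfold uu
      ring
    rw [h3]
    have h4 : 1 / 512 * em (un (rnd D)) (rnd D) (fun F => A F * ind (Am D (10 * k + j) F)) -
        em (un (rnd D)) (rnd D) (fun F => A F * ind (Pm D (10 * k + j) F)) ≤ 0 := by linarith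
    exact mul_nonpos_of_nonneg_of_nonpos hl0 h4

theorem sum_blocks (K : ℕ) (g : ℕ → ℝ) :
    ∑ m ∈ range (10 * K), g m = ∑ j ∈ range 10, ∑ k ∈ range K, g (10 * k + j) := by
  induction K with
  | zero => simp
  | succ K ih =>
    rw [show 10 * (K + 1) = 10 * K + 10 by ring, Finset.sum_range_add, ih,
      ← Finset.sum_add_distrib]
    refine Finset.sum_congr rfl fun j _ => ?_
    rw [Finset.sum_range_succ]

theorem pm_count {D : Dm} (M : ℕ) (F : Finset Edg) :
    ∑ m ∈ range M, ind (Pm D m F) ≤ 9 * Np D (M + 10) F := by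
  have h1 : ∀ m ∈ range M, ind (Pm D m F) ≤ ∑ i ∈ range 9, ind (Cy D (m + 1 + i) F) := by
    intro m _
    by_cases h : Pm D m F
    · rw [ind_of h]
      obtain ⟨m', h1, h2, h3⟩ := h
      have h4 : ind (Cy D (m + 1 + (m' - (m + 1))) F) ≤
          ∑ i ∈ range 9, ind (Cy D (m + 1 + i) F) :=
        Finset.single_le_sum (f := fun i => ind (Cy D (m + 1 + i) F))
          (fun i _ => ind_nonneg _) (Finset.mem_range.mpr (by omega))
      rw [show m + 1 + (m' - (m + 1)) = m' by omega, ind_of h3] at h4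
      exact h4
    · rw [ind_not_of h]
      exact Finset.sum_nonneg fun i _ => ind_nonneg _
  refine (Finset.sum_le_sum h1).trans ?_
  rw [Finset.sum_comm]
  have h2 : ∀ i ∈ range 9, ∑ m ∈ range M, ind (Cy D (m + 1 + i) F) ≤ Np D (M + 10) F := by
    intro i hi
    rw [Finset.mem_range] at hi
    unfold Np
    have h3 : ∑ m ∈ range M, ind (Cy D (m + 1 + i) F) =
        ∑ m ∈ (range M).image (fun m => m + 1 + i), ind (Cy D m F) := by
      rw [Finset.sum_image]
      intro a _ b _ hab
      simp only at hab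
      omega
    rw [h3]
    apply Finset.sum_le_sum_of_subset_of_nonneg
    · intro m hm
      obtain ⟨a, ha, rfl⟩ := Finset.mem_image.mp hm
      rw [Finset.mem_range] at ha ⊢
      omega
    · intro m _ _
      exact ind_nonneg _
  refine (Finset.sum_le_sum h2).trans ?_
  rw [Finset.sum_const, Finset.card_range, nsmul_eq_mul]
  norm_num

theorem conc {D : Dm} (hD : D.Ok) {K : ℕ} (hK : 1 ≤ K) :
    pr (un (rnd D)) (rnd D) (fun F => 10 * K ≤ (Xm D (10 * K) F).card ∧
      Np D (10 * K + 10) F ≤ K / 5120) ≤ 10 * Real.exp (-(K / 104857600 : ℝ)) := by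
  have hK0 : (0:ℝ) < K := by exact_mod_cast hK
  obtain ⟨t, ht⟩ : ∃ t : ℝ, t = K / 5120 := ⟨_, rfl⟩
  have ht0 : 0 ≤ t := by rw [ht]; positivity
  have htK : t ≤ 2 * K := by
    rw [ht, div_le_iff₀ (by norm_num)]
    linarith
  have hb : ∀ j ∈ range 10, pr (un (rnd D)) (rnd D)
      (fun F => t ≤ ∑ k ∈ range K, uu D (10 * k + j) F) ≤
      Real.exp (-(K / 104857600 : ℝ)) := by
    intro j _
    refine (block hD j K ht0 htK hK).trans (le_of_eq ?_)
    congr 1
    rw [ht]
    field_simp
    norm_num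
  have h1 : pr (un (rnd D)) (rnd D) (fun F => 10 * K ≤ (Xm D (10 * K) F).card ∧
      Np D (10 * K + 10) F ≤ K / 5120) ≤
      ∑ j ∈ range 10, pr (un (rnd D)) (rnd D)
        (fun F => t ≤ ∑ k ∈ range K, uu D (10 * k + j) F) := by
    unfold pr
    rw [← em_sum]
    refine (un_law (rnd D)).mono fun F hF => ?_
    by_cases hc : 10 * K ≤ (Xm D (10 * K) F).card ∧ Np D (10 * K + 10) F ≤ K / 5120
    · rw [ind_of hc]
      obtain ⟨hc1, hc2⟩ := hc
      have hFE := hF.trans (rnd_sub D)
      have hcard : (Xm D (10 * K) F).card = 10 * K := le_antisymm (Xm_card _ _) hc1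
      obtain ⟨Z, hZ1, hZ2, hZ3⟩ := fifth hD (F := F) (tm_le_len hD (10 * K) hFE) (10 * K) hcard
      -- the sum of the increments is large
      have h2 : (Z.card : ℝ) ≤ ∑ m ∈ range (10 * K), (ind (Am D m F) + ind (Cy D m F)) := by
        have h3 : (Z.card : ℝ) ≤ ∑ m ∈ Z, (ind (Am D m F) + ind (Cy D m F)) := by
          have h4 : (Z.card : ℝ) = ∑ m ∈ Z, (1:ℝ) := by simp
          rw [h4]
          refine Finset.sum_le_sum fun m hm => ?_
          rcases al_cases hD hF (hZ3 m hm) with h5 | h5
          · rw [ind_of h5]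
            have := ind_nonneg (Cy D m F)
            linarith
          · rw [ind_of h5]
            have := ind_nonneg (Am D m F)
            linarith
        refine h3.trans (Finset.sum_le_sum_of_subset_of_nonneg hZ1 fun m _ _ => ?_)
        have := ind_nonneg (Cy D m F)
        have := ind_nonneg (Am D m F)
        linarith
      rw [Finset.sum_add_distrib] at h2
      have h3 : ∑ m ∈ range (10 * K), ind (Cy D m F) ≤ Np D (10 * K + 10) F := by
        unfold Np
        apply Finset.sum_le_sum_of_subset_of_nonneg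
        · intro m hm
          rw [Finset.mem_range] at hm ⊢
          omega
        · intro m _ _
          exact ind_nonneg _
      have h4 := pm_count (D := D) (10 * K) F
      have h5 : ∑ m ∈ range (10 * K), uu D m F =
          1 / 512 * ∑ m ∈ range (10 * K), ind (Am D m F) -
          ∑ m ∈ range (10 * K), ind (Pm D m F) := by
        unfold uu
        rw [Finset.sum_sub_distrib, Finset.mul_sum]
      have h6 : (10 * K : ℝ) ≤ 5 * Z.card := by exact_mod_cast hZ2
      have h7 : 10 * t ≤ ∑ j ∈ range 10, ∑ k ∈ range K, uu D (10 * k + j) F := by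
        rw [← sum_blocks K (fun m => uu D m F), h5, ht]
        linarith
      -- one of the blocks is large
      by_contra hcon
      push Not at hcon
      have h8 : ∀ j ∈ range 10, ∑ k ∈ range K, uu D (10 * k + j) F < t := by
        intro j hj
        by_contra h9
        push Not at h9
        have h10 : ind (t ≤ ∑ k ∈ range K, uu D (10 * k + j) F) ≤
            ∑ i ∈ range 10, ind (t ≤ ∑ k ∈ range K, uu D (10 * k + i) F) :=
          Finset.single_le_sum (f := fun i => ind (t ≤ ∑ k ∈ range K, uu D (10 * k + i) F))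
            (fun i _ => ind_nonneg _) hj
        rw [ind_of h9] at h10
        linarith
      have h9 := Finset.sum_lt_sum_of_nonempty (s := range 10) ⟨0, by simp⟩ h8
      rw [Finset.sum_const, Finset.card_range, nsmul_eq_mul] at h9
      norm_num at h9
      linarith
    · rw [ind_not_of hc]
      exact Finset.sum_nonneg fun j _ => ind_nonneg _
  refine h1.trans ((Finset.sum_le_sum hb).trans (le_of_eq ?_))
  rw [Finset.sum_const, Finset.card_range, nsmul_eq_mul]
  norm_num

end Q291.FK
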