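import Pool.Agent.Q291.FK.Low
import Pool.Agent.Q291.EP.Tv

/-!
The total variation window of the random-cluster interface near `q = 1`.
-/

set_option autoImplicit false

namespace Q291.FK

open H974 Finset H342P H984P H984N Q291.EP

/-- Probability in the random-cluster model with Dobrushin boundary condition. -/
noncomputable def fkp (q : ℝ) (D : Dm) (A : Finset Edg → Prop) : ℝ := pr (fkm q D) (rnd D) A

/-- Expectation in this model. -/
noncomputable def fke (q : ℝ) (D : Dm) (f : Finset Edg → ℝ) : ℝ := em (fkm q D) (rnd D) f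

theorem fkm_un (D : Dm) : fkm 1 D = un (rnd D) := funext (fkm_one D)

theorem cfg_rnd {D : Dm} {F : Finset Edg} (hF : F ⊆ D.edges) : D.cfg (F ∩ rnd D) = D.cfg F := by
  ext e
  unfold Dm.cfg
  simp only [Set.mem_union, Finset.mem_coe, Finset.mem_inter, mem_rnd]
  constructor
  · rintro (⟨h1, -⟩ | h)
    · exact Or.inl h1
    · exact Or.inr h
  · rintro (h | h)
    · by_cases hw : e ∈ D.wir
      · exact Or.inr hw
      · exact Or.inl ⟨h, hF h, hw⟩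
    · exact Or.inr h

theorem walk_rnd {D : Dm} {F : Finset Edg} (hF : F ⊆ D.edges) : D.walk (F ∩ rnd D) = D.walk F := by
  funext k
  unfold Dm.walk
  rw [cfg_rnd hF]

theorem len_rnd {D : Dm} {F : Finset Edg} (hF : F ⊆ D.edges) : D.len (F ∩ rnd D) = D.len F := by
  unfold Dm.len
  rw [walk_rnd hF]

theorem Yk_rnd {D : Dm} {F : Finset Edg} (hF : F ⊆ D.edges) (k : ℕ) :
    Yk D (F ∩ rnd D) k = Yk D F k := by
  unfold Yk
  rw [cfg_rnd hF]

theorem Xm_rnd {D : Dm} {F : Finset Edg} (hF : F ⊆ D.edges) (m : ℕ) :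
    Xm D m (F ∩ rnd D) = Xm D m F := by
  unfold Xm tm
  simp only [Yk_rnd hF, walk_rnd hF]

theorem em_rnd {D : Dm} {g : Finset Edg → ℝ} (hg : ∀ F, F ⊆ D.edges → g F = g (F ∩ rnd D)) :
    em (un (rnd D)) (rnd D) g = Ex (fun _ => 1/2) D.edges g := by
  rw [em_un, Ex_local (rnd_sub D) hg]

/-- Events of the exploration are events of the path. -/
theorem path_ev {D : Dm} (hD : D.Ok) {m : ℕ} {A : Finset Edg → Prop}
    (hA : Msr (rnd D) (Xm D m) A) : ∃ B : Set (ℕ → St), ∀ F, F ⊆ rnd D → (path D F ∈ B ↔ A F) := by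
  have h1 : Msr D.edges (Xm D m) (fun F => A (F ∩ rnd D)) := by
    intro F G hF hG h
    apply hA _ _ Finset.inter_subset_right Finset.inter_subset_right
    rw [Xm_rnd hF, Finset.inter_assoc, Finset.inter_assoc, Finset.inter_comm (rnd D),
      ← Finset.inter_assoc, ← Finset.inter_assoc, h]
  obtain ⟨B, hB⟩ := ev_of_path hD m h1
  refine ⟨B, fun F hF => ?_⟩
  rw [hB F (hF.trans (rnd_sub D)), Finset.inter_eq_left.mpr hF]

/-- Functions of the path are functions of the exploration. -/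
theorem msr_path {D : Dm} (hD : D.Ok) {β : Type*} (g : (ℕ → St) → β) :
    Msr (rnd D) (Xm D (D.edges.card + 1)) (fun F => g (path D F)) := by
  intro F G hF hG h
  show g (path D G) = g (path D F)
  rw [path_msr hD (Nat.lt_succ_self _) F G (hF.trans (rnd_sub D)) (hG.trans (rnd_sub D)) h]

theorem th_rr {q : ℝ} (hq : 0 < q) : |th q| = (rr q - 1) / (rr q + 1) := by
  have hs := Real.sqrt_pos.mpr hq
  unfold th rr
  rcases le_total 1 (Real.sqrt q) with h | h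
  · have h1 : 1 / Real.sqrt q ≤ Real.sqrt q := by
      rw [div_le_iff₀ hs]; nlinarith
    rw [max_eq_left h1, abs_of_nonneg]
    apply div_nonneg <;> linarith
  · have h1 : Real.sqrt q ≤ 1 / Real.sqrt q := by
      rw [le_div_iff₀ hs]; nlinarith
    rw [max_eq_right h1, abs_of_nonpos]
    · field_simp
      ring
    · apply div_nonpos_of_nonpos_of_nonneg <;> linarith

theorem sqrt_exp {x : ℝ} (hx : 0 ≤ x) : Real.sqrt (1 - Real.exp (-x)) ≤ Real.sqrt x ∧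
    Real.sqrt (1 - Real.exp (-x)) ≤ 1 := by
  have _ := hx
  constructor
  · apply Real.sqrt_le_sqrt
    have := Real.add_one_le_exp (-x)
    linarith
  · rw [Real.sqrt_le_one]
    have := Real.exp_pos (-x)
    linarith

/-- The upper bound in terms of the natural parameter. -/
theorem up_th {q : ℝ} (hq : 0 < q) {N N' : ℝ} (hN : 0 ≤ N) (hNN : N ≤ N') (h1 : 1 ≤ N') :
    Real.sqrt (1 - Real.exp (-((rr q - 1) ^ 2 / (8 * rr q) * N))) ≤
      3 * (|th q| * Real.sqrt N') := by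
  have hr := one_le_rr hq
  have hr0 : 0 < rr q := by linarith
  have ht := th_rr hq
  have hx : 0 ≤ (rr q - 1) ^ 2 / (8 * rr q) * N := by positivity
  obtain ⟨e1, e2⟩ := sqrt_exp hx
  have hs1 : 1 ≤ Real.sqrt N' := by rw [Real.one_le_sqrt]; exact h1
  rcases le_or_gt (rr q) 2 with h2 | h2
  · refine e1.trans ?_
    have h3 : (rr q - 1) ^ 2 / (8 * rr q) * N ≤ (3 * (|th q| * Real.sqrt N')) ^ 2 := by
      have h4 : (3 * (|th q| * Real.sqrt N')) ^ 2 = 9 * |th q| ^ 2 * N' := by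
        rw [mul_pow, mul_pow, Real.sq_sqrt (by linarith)]
        ring
      rw [h4, ht, div_pow]
      have h5 : (rr q - 1) ^ 2 / (8 * rr q) ≤ 9 * ((rr q - 1) ^ 2 / (rr q + 1) ^ 2) := by
        rw [← mul_div_assoc, div_le_div_iff₀ (by positivity) (by positivity)]
        have h6 : (rr q + 1) ^ 2 ≤ 9 * (8 * rr q) := by nlinarith
        have h7 : 0 ≤ (rr q - 1) ^ 2 := sq_nonneg _
        nlinarith
      exact mul_le_mul h5 hNN hN (by positivity)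
    calc Real.sqrt ((rr q - 1) ^ 2 / (8 * rr q) * N) ≤
        Real.sqrt ((3 * (|th q| * Real.sqrt N')) ^ 2) := Real.sqrt_le_sqrt h3
      _ = _ := Real.sqrt_sq (by positivity)
  · refine e2.trans ?_
    have h3 : 1 / 3 ≤ |th q| := by
      rw [ht, div_le_div_iff₀ (by norm_num) (by linarith)]
      linarith
    have h4 : 1 / 3 * 1 ≤ |th q| * Real.sqrt N' := mul_le_mul h3 hs1 (by norm_num) (abs_nonneg _)
    linarith

/-- Mean number of revealed edges. -/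
theorem mean_Xm {D : Dm} (hD : D.Ok) {C' n : ℝ}
    (hE : E D.edges (fun F => (D.len F : ℝ) + 1) ≤ C' * n ^ (7/4 : ℝ)) :
    em (un (rnd D)) (rnd D) (fun F => ((Xm D (D.edges.card + 1) F).card : ℝ)) ≤
      C' * n ^ (7/4 : ℝ) := by
  rw [em_rnd (fun F hF => by rw [Xm_rnd hF])]
  refine le_trans ?_ hE
  apply Ex_mono
  · intro e; norm_num
  · intro F hF
    unfold Xm
    rw [Xm_full hD (Nat.lt_succ_self _) hF]
    have := card_Yk_le D F (D.len F)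
    have h2 : ((Yk D F (D.len F)).card : ℝ) ≤ (D.len F : ℝ) := by exact_mod_cast this
    linarith

/-- General laws: upper bound. -/
theorem gen_up {D : Dm} (hD : D.Ok) {C' n : ℝ}
    (hE : E D.edges (fun F => (D.len F : ℝ) + 1) ≤ C' * n ^ (7/4 : ℝ)) {μ : Finset Edg → ℝ} {r : ℝ}
    (hμ : Law (rnd D) μ) (hN : Near (rnd D) μ r) (hr : 1 ≤ r) (f : (ℕ → St) → ℝ)
    (h0 : ∀ x, 0 ≤ f x) (h1 : ∀ x, f x ≤ 1) :
    |em μ (rnd D) (fun F => f (path D F)) - em (un (rnd D)) (rnd D) (fun F => f (path D F))| ≤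
      Real.sqrt (1 - Real.exp (-((r - 1) ^ 2 / (8 * r) * (C' * n ^ (7/4 : ℝ))))) := by
  have hr0 : 0 < r := by linarith
  refine (tv_up (chn hD) hμ hN hr (D.edges.card + 1) (msr_path hD f) (fun F _ => h0 _)
    (fun F _ => h1 _)).trans ?_
  apply Real.sqrt_le_sqrt
  have h2 := mean_Xm hD hE
  have h3 : 0 ≤ (r - 1) ^ 2 / (8 * r) := by positivity
  have h4 := mul_le_mul_of_nonneg_left h2 h3
  have h5 := Real.exp_le_exp.mpr (neg_le_neg h4)
  linarith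

theorem fk_up {D : Dm} (hD : D.Ok) {C' n : ℝ}
    (hE : E D.edges (fun F => (D.len F : ℝ) + 1) ≤ C' * n ^ (7/4 : ℝ)) (hn : 1 ≤ n)
    (hC' : 0 ≤ C') {q : ℝ} (hq : 0 < q) (f : (ℕ → St) → ℝ) (h0 : ∀ x, 0 ≤ f x)
    (h1 : ∀ x, f x ≤ 1) :
    |fke q D (fun F => f (path D F)) - fke 1 D (fun F => f (path D F))| ≤
      3 * (|th q| * Real.sqrt ((C' + 1) * n ^ (7/4 : ℝ))) := by
  unfold fke
  rw [fkm_un]
  refine (gen_up hD hE (fk_law hq D) (fk_near hq D) (one_le_rr hq) f h0 h1).trans ?_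
  have h2 : (1:ℝ) ≤ n ^ (7/4 : ℝ) := Real.one_le_rpow hn (by norm_num)
  exact up_th hq (by positivity) (by nlinarith) (by nlinarith)

theorem few' {R : Rect} {δ ε c1 : ℝ} (hs : (R.dm δ).Ok)
    (h : R.prob δ (fun F => (((Yk (R.dm δ) F ((R.dm δ).len F)).card : ℕ) : ℝ) < c1) ≤ ε) {m : ℕ}
    (hm : (m:ℝ) ≤ c1) :
    pr (un (rnd (R.dm δ))) (rnd (R.dm δ)) (fun F => (Xm (R.dm δ) m F).card < m) ≤ ε := by
  refine le_trans (le_of_eq ?_) (few hs h hm)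
  unfold pr Pr
  exact em_rnd (fun F hF => by beta_reduce; rw [Xm_rnd hF])

/-- Powers of small numbers are large. -/
theorem big_pow {A s : ℝ} (hs : 0 < s) (hA : 0 < A) : ∃ δ0 : ℝ, 0 < δ0 ∧ ∀ δ, 0 < δ → δ ≤ δ0 →
    A ≤ δ ^ (-s) := by
  refine ⟨A ^ (-(1/s)), by positivity, fun δ hδ hδ0 => ?_⟩
  have h1 : (A ^ (-(1/s)) : ℝ) ^ (-s) = A := by
    rw [← Real.rpow_mul hA.le]
    have : -(1/s) * -s = 1 := by field_simp
    rw [this, Real.rpow_one]
  rw [← h1]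
  exact Real.rpow_le_rpow_of_nonpos hδ hδ0 (by linarith)

theorem pow_sq {δ : ℝ} (hδ : 0 < δ) : Real.sqrt (δ ^ (-(7/4) : ℝ)) = δ ^ (-(7/8) : ℝ) := by
  rw [Real.sqrt_eq_iff_mul_self_eq (by positivity) (by positivity), ← Real.rpow_add hδ]
  norm_num

theorem ten_sqrt {K : ℕ} (hK : 1 ≤ K) : Real.sqrt ((10 * K + 10 : ℕ) : ℝ) ≤ 5 * Real.sqrt K := by
  have hK0 : (1:ℝ) ≤ K := by exact_mod_cast hK
  rw [Real.sqrt_le_left (by positivity), mul_pow, Real.sq_sqrt (by linarith)]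
  push_cast
  linarith

/-- **Singularity beyond the window.** -/
theorem fk_sing (R : Rect) (ht : ∀ ε : ℝ, 0 < ε → ∃ Λ δ0 : ℝ, 0 < Λ ∧ 0 < δ0 ∧
      ∀ δ : ℝ, 0 < δ → δ ≤ δ0 → 1 - ε ≤ R.prob δ (fun F => 1 / Λ ≤ R.time δ F)) {ε : ℝ}
    (hε : 0 < ε) :
    ∃ x0 δ0 : ℝ, 0 < x0 ∧ 0 < δ0 ∧ ∀ δ : ℝ, 0 < δ → δ ≤ δ0 → ∀ q : ℝ, 0 < q →
      x0 ≤ |th q| * δ ^ (-(7/8) : ℝ) → ∃ B : Set (ℕ → St),
        fkp q (R.dm δ) (fun F => path (R.dm δ) F ∈ B) ≤ ε ∧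
        1 - ε ≤ fkp 1 (R.dm δ) (fun F => path (R.dm δ) F ∈ B) := by
  obtain ⟨c1, δ1, hc1, hδ1, hmany⟩ := many R ht (ε := ε / 4) (by positivity)
  obtain ⟨L, hL⟩ : ∃ L : ℝ, L = 4 * Real.sqrt (8 / ε) := ⟨_, rfl⟩
  have hL0 : 0 < L := by rw [hL]; positivity
  have hLε : 2 * Real.exp (-(L ^ 2 / 16)) ≤ ε / 4 := by
    have h1 : L ^ 2 / 16 = 8 / ε := by
      rw [hL, mul_pow, Real.sq_sqrt (by positivity)]
      ring
    rw [h1, Real.exp_neg]
    have h2 := Real.add_one_le_exp (8 / ε)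
    have h3 : (Real.exp (8 / ε))⁻¹ ≤ (8 / ε)⁻¹ := inv_anti₀ (by positivity) (by linarith)
    rw [inv_div] at h3
    linarith
  obtain ⟨κ, hκ⟩ : ∃ κ : ℝ, κ = c1 / 20 := ⟨_, rfl⟩
  have hκ0 : 0 < κ := by rw [hκ]; positivity
  obtain ⟨A, hA⟩ : ∃ A : ℝ, A = (2 + L ^ 2 + 104857600 * (40 / ε)) / κ := ⟨_, rfl⟩
  have hA0 : 0 < A := by rw [hA]; positivity
  obtain ⟨δ2, hδ2, hbig⟩ := big_pow (s := 7/4) (by norm_num) hA0
  refine ⟨51200 * L / Real.sqrt κ, min δ1 δ2, by positivity, lt_min hδ1 hδ2, ?_⟩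
  intro δ hδ hδ0 q hq hx
  obtain ⟨hOk, hm⟩ := hmany δ hδ (hδ0.trans (min_le_left _ _))
  have hb := hbig δ hδ (hδ0.trans (min_le_right _ _))
  obtain ⟨y, hy⟩ : ∃ y : ℝ, y = δ ^ (-(7/4) : ℝ) := ⟨_, rfl⟩
  have hy0 : 0 < y := by rw [hy]; positivity
  rw [← hy] at hb hm
  have hAy : 2 + L ^ 2 + 104857600 * (40 / ε) ≤ κ * y := by
    have := mul_le_mul_of_nonneg_left hb hκ0.le
    rw [hA] at this
    have e : κ * ((2 + L ^ 2 + 104857600 * (40 / ε)) / κ) = 2 + L ^ 2 + 104857600 * (40 / ε) := by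
      field_simp
    rw [e] at this
    exact this
  obtain ⟨K, hK⟩ : ∃ K : ℕ, K = ⌊2 * (κ * y)⌋₊ := ⟨_, rfl⟩
  have hεp : 0 < 40 / ε := by positivity
  have hL2 : 0 ≤ L ^ 2 := sq_nonneg _
  have hK1 : κ * y ≤ K := by
    have := Nat.lt_floor_add_one (2 * (κ * y))
    rw [← hK] at this
    linarith
  have hK2 : (K:ℝ) ≤ 2 * (κ * y) := by
    rw [hK]; exact Nat.floor_le (by positivity)
  have hK3 : 1 ≤ K := by
    have : (1:ℝ) ≤ K := by linarith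
    exact_mod_cast this
  have hK0 : (0:ℝ) < K := by exact_mod_cast hK3
  have h10 : ((10 * K : ℕ) : ℝ) ≤ c1 * y := by
    push_cast
    rw [hκ] at hK2
    linarith
  have hη := few' hOk hm h10
  have hsK : Real.sqrt (κ * y) ≤ Real.sqrt K := Real.sqrt_le_sqrt hK1
  have hsK0 : 0 < Real.sqrt K := Real.sqrt_pos.mpr hK0
  obtain ⟨B, hB, b1, b2⟩ := low_sing hOk hq hK3 hη hL0.le (by
      have : L ≤ Real.sqrt K := by
        apply Real.le_sqrt_of_sq_le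
        linarith
      linarith) (by
      have h1 := ten_sqrt hK3
      have h2 : 51200 * L ≤ |th q| * Real.sqrt K := by
        have h3 : |th q| * δ ^ (-(7/8) : ℝ) * Real.sqrt κ ≤ |th q| * Real.sqrt K := by
          rw [mul_assoc]
          apply mul_le_mul_of_nonneg_left _ (abs_nonneg _)
          rw [← pow_sq hδ, ← hy, ← Real.sqrt_mul hy0.le, mul_comm y]
          exact hsK
        have h4 := mul_le_mul_of_nonneg_right hx (Real.sqrt_nonneg κ)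
        have e : 51200 * L / Real.sqrt κ * Real.sqrt κ = 51200 * L := by
          have := Real.sqrt_pos.mpr hκ0
          field_simp
        rw [e] at h4
        linarith
      have h5 : |th q| * (K / 5120) = (|th q| * Real.sqrt K) * Real.sqrt K / 5120 := by
        rw [mul_assoc (|th q|), ← sq, Real.sq_sqrt hK0.le]
        ring
      rw [h5]
      have h6 := mul_le_mul_of_nonneg_right h2 hsK0.le
      have h7 := mul_le_mul_of_nonneg_left h1 (by positivity : 0 ≤ 2 * L)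
      linarith)
  obtain ⟨B', hB'⟩ := path_ev hOk hB
  refine ⟨B', ?_, ?_⟩
  · unfold fkp
    have : pr (fkm q (R.dm δ)) (rnd (R.dm δ)) (fun F => path (R.dm δ) F ∈ B') =
        pr (fkm q (R.dm δ)) (rnd (R.dm δ)) B := em_congr fun F hF => by beta_reduce; rw [hB' F hF]
    rw [this]
    linarith
  · unfold fkp
    rw [fkm_un]
    have : pr (un (rnd (R.dm δ))) (rnd (R.dm δ)) (fun F => path (R.dm δ) F ∈ B') =
        pr (un (rnd (R.dm δ))) (rnd (R.dm δ)) B := em_congr fun F hF => by beta_reduce; rw [hB' F hF]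
    rw [this]
    have e1 : 10 * Real.exp (-(K / 104857600 : ℝ)) ≤ ε / 4 := by
      rw [Real.exp_neg]
      have h2 := Real.add_one_le_exp (K / 104857600 : ℝ)
      have h3 : (40:ℝ) / ε ≤ Real.exp (K / 104857600 : ℝ) := by
        have : 40 / ε ≤ K / 104857600 := by
          rw [le_div_iff₀ (by norm_num)]
          linarith
        linarith
      have h4 := inv_anti₀ hεp h3
      rw [inv_div] at h4
      linarith
    linarith

/-- **Linear lower bound inside the window.** -/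
theorem fk_small (R : Rect) (ht : ∀ ε : ℝ, 0 < ε → ∃ Λ δ0 : ℝ, 0 < Λ ∧ 0 < δ0 ∧
      ∀ δ : ℝ, 0 < δ → δ ≤ δ0 → 1 - ε ≤ R.prob δ (fun F => 1 / Λ ≤ R.time δ F)) {x0 : ℝ}
    (hx0 : 0 < x0) :
    ∃ c δ0 : ℝ, 0 < c ∧ 0 < δ0 ∧ ∀ δ : ℝ, 0 < δ → δ ≤ δ0 → ∀ q : ℝ, 0 < q →
      |th q| * δ ^ (-(7/8) : ℝ) ≤ x0 → ∃ B : Set (ℕ → St),
        c * (|th q| * δ ^ (-(7/8) : ℝ)) ≤ fkp q (R.dm δ) (fun F => path (R.dm δ) F ∈ B) -
          fkp 1 (R.dm δ) (fun F => path (R.dm δ) F ∈ B) := by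
  obtain ⟨c1, δ1, hc1, hδ1, hmany⟩ := many R ht (ε := 1/8) (by norm_num)
  obtain ⟨κ, hκ⟩ : ∃ κ : ℝ, κ = min (c1 / 20) ((1 / (15 * 409600 * x0)) ^ 2 / 2) := ⟨_, rfl⟩
  have hκ0 : 0 < κ := by rw [hκ]; exact lt_min (by positivity) (by positivity)
  have hκ1 : κ ≤ c1 / 20 := by rw [hκ]; exact min_le_left _ _
  have hκ2 : κ ≤ (1 / (15 * 409600 * x0)) ^ 2 / 2 := by rw [hκ]; exact min_le_right _ _
  obtain ⟨A, hA⟩ : ∃ A : ℝ, A = (10 + 104857600 * 80) / κ := ⟨_, rfl⟩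
  have hA0 : 0 < A := by rw [hA]; positivity
  obtain ⟨δ2, hδ2, hbig⟩ := big_pow (s := 7/4) (by norm_num) hA0
  refine ⟨Real.sqrt κ / 7372800, min δ1 δ2, by positivity, lt_min hδ1 hδ2, ?_⟩
  intro δ hδ hδ0 q hq hx
  obtain ⟨hOk, hm⟩ := hmany δ hδ (hδ0.trans (min_le_left _ _))
  have hb := hbig δ hδ (hδ0.trans (min_le_right _ _))
  obtain ⟨y, hy⟩ : ∃ y : ℝ, y = δ ^ (-(7/4) : ℝ) := ⟨_, rfl⟩
  have hy0 : 0 < y := by rw [hy]; positivity
  rw [← hy] at hb hm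
  have hAy : 10 + 104857600 * 80 ≤ κ * y := by
    have := mul_le_mul_of_nonneg_left hb hκ0.le
    rw [hA] at this
    have e : κ * ((10 + 104857600 * 80) / κ) = 10 + 104857600 * 80 := by field_simp
    rw [e] at this
    exact this
  obtain ⟨K, hK⟩ : ∃ K : ℕ, K = ⌊2 * (κ * y)⌋₊ := ⟨_, rfl⟩
  have hK1 : κ * y ≤ K := by
    have := Nat.lt_floor_add_one (2 * (κ * y))
    rw [← hK] at this
    linarith
  have hK2 : (K:ℝ) ≤ 2 * (κ * y) := by
    rw [hK]; exact Nat.floor_le (by positivity)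
  have hK3 : 10 ≤ K := by
    have : (10:ℝ) ≤ K := by linarith
    exact_mod_cast this
  have hK0 : (0:ℝ) < K := by linarith
  have h10 : ((10 * K : ℕ) : ℝ) ≤ c1 * y := by
    push_cast
    have := mul_le_mul_of_nonneg_right hκ1 hy0.le
    linarith
  have hη := few' hOk hm h10
  have hsy : Real.sqrt y = δ ^ (-(7/8) : ℝ) := by rw [hy, pow_sq hδ]
  have hexp : 10 * Real.exp (-(K / 104857600 : ℝ)) ≤ 1/8 := by
    rw [Real.exp_neg]
    have h2 := Real.add_one_le_exp (K / 104857600 : ℝ)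
    have h3 : (80:ℝ) ≤ Real.exp (K / 104857600 : ℝ) := by
      have : (80:ℝ) ≤ K / 104857600 := by
        rw [le_div_iff₀ (by norm_num)]
        linarith
      linarith
    have h4 := inv_anti₀ (by norm_num) h3
    norm_num at h4 ⊢
    linarith
  have hup : ∀ f : Finset Edg → ℝ, Msr (rnd (R.dm δ)) (Xm (R.dm δ) (10 * K + 10)) f →
      (∀ F, F ⊆ rnd (R.dm δ) → 0 ≤ f F) → (∀ F, F ⊆ rnd (R.dm δ) → f F ≤ 1) →
      |em (fkm q (R.dm δ)) (rnd (R.dm δ)) f - em (un (rnd (R.dm δ))) (rnd (R.dm δ)) f| ≤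
        1/409600 := by
    intro f hf h0 h1
    refine (tv_up (chn hOk) (fk_law hq _) (fk_near hq _) (one_le_rr hq) (10 * K + 10) hf h0
      h1).trans ?_
    have hN0 : 0 ≤ em (un (rnd (R.dm δ))) (rnd (R.dm δ))
        (fun F => ((Xm (R.dm δ) (10 * K + 10) F).card : ℝ)) := by
      have := (un_law (rnd (R.dm δ))).mono (f := fun _ => 0)
        (g := fun F => ((Xm (R.dm δ) (10 * K + 10) F).card : ℝ)) (fun F _ => Nat.cast_nonneg _)
      rwa [(un_law _).const] at this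
    have hN1 : em (un (rnd (R.dm δ))) (rnd (R.dm δ))
        (fun F => ((Xm (R.dm δ) (10 * K + 10) F).card : ℝ)) ≤ ((10 * K + 10 : ℕ) : ℝ) := by
      have := (un_law (rnd (R.dm δ))).mono
        (f := fun F => ((Xm (R.dm δ) (10 * K + 10) F).card : ℝ))
        (g := fun _ => ((10 * K + 10 : ℕ) : ℝ)) (fun F _ => by exact_mod_cast Xm_card _ _)
      rwa [(un_law _).const] at this
    refine (up_th hq hN0 hN1 (by push_cast; linarith)).trans ?_
    have h2 := ten_sqrt (show 1 ≤ K by omega)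
    have h3 : Real.sqrt K ≤ 1 / (15 * 409600 * x0) * δ ^ (-(7/8) : ℝ) := by
      rw [← hsy, Real.sqrt_le_left (by positivity), mul_pow, Real.sq_sqrt hy0.le]
      have := mul_le_mul_of_nonneg_right hκ2 hy0.le
      linarith
    have h4 : |th q| * Real.sqrt K ≤ 1 / (15 * 409600) := by
      calc |th q| * Real.sqrt K ≤ |th q| * (1 / (15 * 409600 * x0) * δ ^ (-(7/8) : ℝ)) :=
            mul_le_mul_of_nonneg_left h3 (abs_nonneg _)
        _ = 1 / (15 * 409600 * x0) * (|th q| * δ ^ (-(7/8) : ℝ)) := by ring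
        _ ≤ 1 / (15 * 409600 * x0) * x0 := mul_le_mul_of_nonneg_left hx (by positivity)
        _ = _ := by field_simp
    have h5 := mul_le_mul_of_nonneg_left h2 (abs_nonneg (th q))
    linarith
  obtain ⟨B, hB, b1⟩ := low_small hOk hq hK3 hη hexp hup
  obtain ⟨B', hB'⟩ := path_ev hOk hB
  refine ⟨B', ?_⟩
  unfold fkp
  rw [fkm_un]
  have e1 : ∀ μ : Finset Edg → ℝ, pr μ (rnd (R.dm δ)) (fun F => path (R.dm δ) F ∈ B') =
      pr μ (rnd (R.dm δ)) B := fun μ => em_congr fun F hF => by beta_reduce; rw [hB' F hF]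
  rw [e1, e1]
  refine le_trans ?_ b1
  have h2 : Real.sqrt κ * δ ^ (-(7/8) : ℝ) ≤ Real.sqrt ((10 * K + 10 : ℕ) : ℝ) := by
    rw [← hsy, ← Real.sqrt_mul hκ0.le]
    apply Real.sqrt_le_sqrt
    push_cast
    linarith
  have h3 := mul_le_mul_of_nonneg_left h2 (abs_nonneg (th q))
  have e2 : Real.sqrt κ / 7372800 * (|th q| * δ ^ (-(7/8) : ℝ)) =
      |th q| * (Real.sqrt κ * δ ^ (-(7/8) : ℝ)) / 7372800 := by ring
  rw [e2]
  exact div_le_div_of_nonneg_right h3 (by norm_num)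

/-- **The window.** -/
theorem fk_window {C' : ℝ} (hC' : 0 < C') (hlen : ∀ (D : Dm) (n : ℝ), D.Ok → 1 ≤ n →
      ((D.r - D.l : ℤ) : ℝ) ≤ n → (D.h : ℝ) ≤ n →
      E D.edges (fun F => (D.len F : ℝ) + 1) ≤ C' * n ^ (7/4 : ℝ)) (R : Rect)
    (ht : ∀ ε : ℝ, 0 < ε → ∃ Λ δ0 : ℝ, 0 < Λ ∧ 0 < δ0 ∧
      ∀ δ : ℝ, 0 < δ → δ ≤ δ0 → 1 - ε ≤ R.prob δ (fun F => 1 / Λ ≤ R.time δ F)) :
    ∃ c C δ0 : ℝ, 0 < c ∧ 0 < C ∧ 0 < δ0 ∧ ∀ δ : ℝ, 0 < δ → δ ≤ δ0 →
      (∀ (μ : Finset Edg → ℝ) (r : ℝ), Law (rnd (R.dm δ)) μ → Near (rnd (R.dm δ)) μ r → 1 ≤ r →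
        ∀ f : (ℕ → St) → ℝ, (∀ x, 0 ≤ f x) → (∀ x, f x ≤ 1) →
        |em μ (rnd (R.dm δ)) (fun F => f (path (R.dm δ) F)) -
          em (un (rnd (R.dm δ))) (rnd (R.dm δ)) (fun F => f (path (R.dm δ) F))| ≤
          Real.sqrt (1 - Real.exp (-(C * ((r - 1) ^ 2 / r * δ ^ (-(7/4) : ℝ)))))) ∧
      ∀ q : ℝ, 0 < q →
      (∀ f : (ℕ → St) → ℝ, (∀ x, 0 ≤ f x) → (∀ x, f x ≤ 1) →
        |fke q (R.dm δ) (fun F => f (path (R.dm δ) F)) -
          fke 1 (R.dm δ) (fun F => f (path (R.dm δ) F))| ≤ C * (|th q| * δ ^ (-(7/8) : ℝ))) ∧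
      ∃ B : Set (ℕ → St), c * min 1 (|th q| * δ ^ (-(7/8) : ℝ)) ≤
        fkp q (R.dm δ) (fun F => path (R.dm δ) F ∈ B) -
          fkp 1 (R.dm δ) (fun F => path (R.dm δ) F ∈ B) := by
  obtain ⟨κ, S, δ1, hκ, hS, hδ1, hδ1', hsh⟩ := R.shape
  obtain ⟨x0, δ2, hx0, hδ2, hsing⟩ := fk_sing R ht (ε := 1/4) (by norm_num)
  obtain ⟨c2, δ3, hc2, hδ3, hsmall⟩ := fk_small R ht hx0
  obtain ⟨C, hC⟩ : ∃ C : ℝ, C = C' * S ^ (7/4 : ℝ) + 3 * Real.sqrt ((C' + 1) * S ^ (7/4 : ℝ)) :=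
    ⟨_, rfl⟩
  have hC0 : 0 < C := by rw [hC]; positivity
  refine ⟨min c2 (1/2), C, min (min δ1 S) (min δ2 δ3), lt_min hc2 (by norm_num), hC0,
    lt_min (lt_min hδ1 hS) (lt_min hδ2 hδ3), ?_⟩
  intro δ hδ hδ0
  have d1 : δ ≤ δ1 := hδ0.trans ((min_le_left _ _).trans (min_le_left _ _))
  have dS : δ ≤ S := hδ0.trans ((min_le_left _ _).trans (min_le_right _ _))
  have d2 : δ ≤ δ2 := hδ0.trans ((min_le_right _ _).trans (min_le_left _ _))
  have d3 : δ ≤ δ3 := hδ0.trans ((min_le_right _ _).trans (min_le_right _ _))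
  have hs := hsh δ hδ d1
  have hn : 1 ≤ S / δ := by rw [le_div_iff₀ hδ]; linarith
  have hE := hlen (R.dm δ) (S / δ) hs.ok hn hs.w_le hs.h_le
  have hpow : (S / δ) ^ (7/4 : ℝ) = S ^ (7/4 : ℝ) * δ ^ (-(7/4) : ℝ) := by
    rw [Real.div_rpow hS.le hδ.le, Real.rpow_neg hδ.le, div_eq_mul_inv]
  refine ⟨?_, fun q hq => ⟨?_, ?_⟩⟩
  · intro μ r hμ hN hr f h0 h1
    refine (gen_up hs.ok hE hμ hN hr f h0 h1).trans ?_
    apply Real.sqrt_le_sqrt
    have hr0 : 0 < r := by linarith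
    have h2 : (r - 1) ^ 2 / (8 * r) * (C' * (S / δ) ^ (7/4 : ℝ)) ≤
        C * ((r - 1) ^ 2 / r * δ ^ (-(7/4) : ℝ)) := by
      rw [hpow]
      have h3 : C' * S ^ (7/4 : ℝ) ≤ C := by
        rw [hC]
        have := Real.sqrt_nonneg ((C' + 1) * S ^ (7/4 : ℝ))
        linarith
      have h4 : (r - 1) ^ 2 / (8 * r) ≤ (r - 1) ^ 2 / r := by
        apply div_le_div_of_nonneg_left (sq_nonneg _) hr0
        linarith
      have h5 : 0 ≤ δ ^ (-(7/4) : ℝ) := by positivity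
      calc (r - 1) ^ 2 / (8 * r) * (C' * (S ^ (7/4 : ℝ) * δ ^ (-(7/4) : ℝ)))
          = (C' * S ^ (7/4 : ℝ)) * ((r - 1) ^ 2 / (8 * r) * δ ^ (-(7/4) : ℝ)) := by ring
        _ ≤ C * ((r - 1) ^ 2 / r * δ ^ (-(7/4) : ℝ)) := by
            apply mul_le_mul h3 (mul_le_mul_of_nonneg_right h4 h5) (by positivity) hC0.le
    have h6 := Real.exp_le_exp.mpr (neg_le_neg h2)
    linarith
  · intro f h0 h1
    refine (fk_up hs.ok hE hn hC'.le hq f h0 h1).trans ?_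
    have h2 : Real.sqrt ((C' + 1) * (S / δ) ^ (7/4 : ℝ)) =
        Real.sqrt ((C' + 1) * S ^ (7/4 : ℝ)) * δ ^ (-(7/8) : ℝ) := by
      rw [hpow, ← mul_assoc, Real.sqrt_mul (by positivity), pow_sq hδ]
    rw [h2]
    have h3 : 3 * Real.sqrt ((C' + 1) * S ^ (7/4 : ℝ)) ≤ C := by
      rw [hC]
      have : 0 ≤ C' * S ^ (7/4 : ℝ) := by positivity
      linarith
    have h4 : 0 ≤ |th q| * δ ^ (-(7/8) : ℝ) := by positivity
    calc 3 * (|th q| * (Real.sqrt ((C' + 1) * S ^ (7/4 : ℝ)) * δ ^ (-(7/8) : ℝ)))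
        = (3 * Real.sqrt ((C' + 1) * S ^ (7/4 : ℝ))) * (|th q| * δ ^ (-(7/8) : ℝ)) := by ring
      _ ≤ C * (|th q| * δ ^ (-(7/8) : ℝ)) := mul_le_mul_of_nonneg_right h3 h4
  · have hx : 0 ≤ |th q| * δ ^ (-(7/8) : ℝ) := by positivity
    rcases le_or_gt (|th q| * δ ^ (-(7/8) : ℝ)) x0 with hle | hgt
    · obtain ⟨B, hB⟩ := hsmall δ hδ d3 q hq hle
      refine ⟨B, le_trans ?_ hB⟩
      exact mul_le_mul (min_le_left _ _) (min_le_right _ _) (le_min zero_le_one hx) hc2.le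
    · obtain ⟨B, b1, b2⟩ := hsing δ hδ d2 q hq hgt.le
      refine ⟨Bᶜ, ?_⟩
      have e1 : ∀ q : ℝ, 0 < q → fkp q (R.dm δ) (fun F => path (R.dm δ) F ∈ Bᶜ) =
          1 - fkp q (R.dm δ) (fun F => path (R.dm δ) F ∈ B) := fun q hq => by
        unfold fkp
        rw [← pr_not (fk_law hq _)]
        rfl
      rw [e1 q hq, e1 1 one_pos]
      have e2 : min c2 (1/2) * min 1 (|th q| * δ ^ (-(7/8) : ℝ)) ≤ 1/2 * 1 :=
        mul_le_mul (min_le_right _ _) (min_le_left _ _) (le_min zero_le_one hx) (by norm_num)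
      linarith

end Q291.FK
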