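import Pool.Agent.Q291.FK.Chain

/-!
Visited vertices and faces; the turn around a new face.
-/

set_option autoImplicit false

namespace Q291.FK

open H974 Finset H342P H984P H984N Q291.EP

/-- The next edge around the other face of the examined edge. -/
def RR (σ : St) : St := rt (rt (mv σ))

theorem face_mv (σ : St) : face (mv σ) = face σ := by
  obtain ⟨⟨x, y⟩, q⟩ := σ
  cases q <;> simp

theorem fst_rt (σ : St) : (rt σ).1 = σ.1 := by
  obtain ⟨⟨x, y⟩, q⟩ := σ
  cases q <;> simp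

theorem face_RR (σ : St) : face (rt (RR σ)) = face (rt σ) := by
  obtain ⟨⟨x, y⟩, q⟩ := σ
  cases q <;> simp [RR]

theorem fst_RR (σ : St) : (RR σ).1 = (mv σ).1 := by
  obtain ⟨⟨x, y⟩, q⟩ := σ
  cases q <;> simp [RR]

theorem fst_RR4 (σ : St) : (mv (RR (RR (RR σ)))).1 = σ.1 := by
  obtain ⟨⟨x, y⟩, q⟩ := σ
  cases q <;> simp [RR]

/-- The two end points of the examined edge. -/
theorem ends (σ : St) : (src (ae σ) = σ.1 ∧ tgt (ae σ) = (mv σ).1) ∨
    (tgt (ae σ) = σ.1 ∧ src (ae σ) = (mv σ).1) := by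
  obtain ⟨⟨x, y⟩, q⟩ := σ
  cases q <;> simp

/-- The two faces of the examined edge. -/
theorem sides (σ : St) : (dsrc (ae σ) = face σ ∧ dtgt (ae σ) = face (rt σ)) ∨
    (dtgt (ae σ) = face σ ∧ dsrc (ae σ) = face (rt σ)) := by
  obtain ⟨⟨x, y⟩, q⟩ := σ
  cases q <;> simp

/-- End points of the wired edges. -/
def Wv (D : Dm) : Set Vtx := {v | ∃ e ∈ D.wir, v = src e ∨ v = tgt e}

/-- Vertices visited up to time `s`, or wired. -/
def VV (D : Dm) (F : Finset Edg) (s : ℕ) : Set Vtx :=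
  {v | (∃ i ≤ s, (D.walk F i).1 = v) ∨ v ∈ Wv D}

/-- Faces visited up to time `s`. -/
def VF (D : Dm) (F : Finset Edg) (s : ℕ) : Set Vtx := {f | ∃ i ≤ s, face (D.walk F i) = f}

/-- The face is in the rectangle. -/
def Inn (D : Dm) (f : Vtx) : Prop := (D.l ≤ f.1 ∧ f.1 < D.r) ∧ 0 ≤ f.2 ∧ f.2 < D.h

theorem VV_mono {D : Dm} {F : Finset Edg} {s t : ℕ} (h : s ≤ t) : VV D F s ⊆ VV D F t := by
  rintro v (⟨i, hi, h1⟩ | h1)
  · exact Or.inl ⟨i, hi.trans h, h1⟩
  · exact Or.inr h1

theorem wired_conn {D : Dm} (hD : D.Ok) {v : Vtx} (hv : v ∈ Wv D) : Reach D.wir (0, 0) v := by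
  have hc : D.cfg ∅ = D.wir := by
    unfold Dm.cfg
    simp
  have hb : ∀ x : ℤ, D.l ≤ x → x ≤ 0 → Reach D.wir (0, 0) (x, 0) := by
    intro x h1 h2
    have := clu_bottom (D := D) ∅ (-x).toNat (by omega)
    rw [hc] at this
    have e : -((-x).toNat : ℤ) = x := by omega
    rwa [e] at this
  have hl : ∀ y : ℤ, 0 ≤ y → y ≤ D.h → Reach D.wir (0, 0) (D.l, y) := by
    intro y h1 h2
    have := clu_left (D := D) ∅ y.toNat (by omega)
    rw [hc] at this
    have e : ((y.toNat : ℕ) : ℤ) = y := by omega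
    rw [e] at this
    exact (hb D.l le_rfl hD.l_neg.le).trans this
  have ht : ∀ x : ℤ, D.l ≤ x → x ≤ D.t → Reach D.wir (0, 0) (x, D.h) := by
    intro x h1 h2
    have := clu_top (D := D) ∅ (x - D.l).toNat (by omega)
    rw [hc] at this
    have e : D.l + ((x - D.l).toNat : ℤ) = x := by omega
    rw [e] at this
    exact (hl D.h hD.h_pos.le le_rfl).trans this
  obtain ⟨⟨x, y, b⟩, he, hv⟩ := hv
  unfold Dm.wir at he
  simp only [Set.mem_ofPred_eq] at he
  rcases he with ⟨rfl, rfl, h1, h2⟩ | ⟨rfl, rfl, h1, h2⟩ | ⟨rfl, rfl, h1, h2⟩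
  · simp only [src_mk, tgt_true] at hv
    rcases hv with rfl | rfl
    · exact ht x h1 h2.le
    · exact ht (x + 1) (by omega) (by omega)
  · simp only [src_mk, tgt_false] at hv
    rcases hv with rfl | rfl
    · exact hl y h1 h2.le
    · exact hl (y + 1) (by omega) (by omega)
  · simp only [src_mk, tgt_true] at hv
    rcases hv with rfl | rfl
    · exact hb x h1 h2.le
    · exact hb (x + 1) (by omega) (by omega)

/-- The visited vertices are connected to the wired arc by revealed open edges. -/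
theorem VV_conn {D : Dm} (hD : D.Ok) {F : Finset Edg} (hF : F ⊆ rnd D) {s : ℕ} {v : Vtx}
    (hv : v ∈ VV D F s) : Reach (↑(F ∩ Yk D F s) ∪ D.wir) (0, 0) v := by
  rcases hv with ⟨i, hi, rfl⟩ | hv
  · induction i with
    | zero =>
      have h1 := clu_start hD ∅
      unfold Dm.clu Dm.cfg at h1
      simp only [Finset.coe_empty, Set.empty_union, Set.mem_ofPred_eq] at h1
      exact h1.mono Set.subset_union_right
    | succ i ih =>
      have h1 := ih (by omega)
      rw [walk_succ]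
      by_cases hc : ae (D.walk F i) ∈ D.cfg F
      · rw [nxt_open hc]
        refine h1.trans (Adj.reach ⟨ae (D.walk F i), ?_, ?_⟩)
        · rcases hc with hc | hc
          · left
            rw [Finset.mem_coe] at hc
            have := mem_rnd.mp (hF hc)
            exact Finset.mem_coe.mpr (Finset.mem_inter.mpr ⟨hc, mem_Yk.mpr
              ⟨⟨i, by omega, rfl⟩, this⟩⟩)
          · exact Or.inr hc
        · rcases ends (D.walk F i) with h | h
          · exact Or.inl h
          · exact Or.inr ⟨h.2, h.1⟩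
      · rw [nxt_closed hc, fst_rt]
        exact h1
  · exact (wired_conn hD hv).mono Set.subset_union_right

/-- An examined edge: both end points or both faces are visited. -/
theorem exam {D : Dm} {F : Finset Edg} {s : ℕ} {e : Edg} (he : e ∈ Yk D F s) :
    (e ∈ D.cfg F → src e ∈ VV D F s ∧ tgt e ∈ VV D F s) ∧
    (e ∉ D.cfg F → dsrc e ∈ VF D F s ∧ dtgt e ∈ VF D F s) := by
  obtain ⟨⟨i, hi, rfl⟩, -⟩ := mem_Yk.mp he
  constructor
  · intro hc
    have h1 : (D.walk F i).1 ∈ VV D F s := Or.inl ⟨i, hi.le, rfl⟩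
    have h2 : (mv (D.walk F i)).1 ∈ VV D F s := Or.inl ⟨i + 1, hi, by rw [walk_succ, nxt_open hc]⟩
    rcases ends (D.walk F i) with h | h
    · rw [h.1, h.2]; exact ⟨h1, h2⟩
    · rw [h.1, h.2]; exact ⟨h2, h1⟩
  · intro hc
    have h1 : face (D.walk F i) ∈ VF D F s := ⟨i, hi.le, rfl⟩
    have h2 : face (rt (D.walk F i)) ∈ VF D F s := ⟨i + 1, hi, by rw [walk_succ, nxt_closed hc]⟩
    rcases sides (D.walk F i) with h | h
    · rw [h.1, h.2]; exact ⟨h1, h2⟩
    · rw [h.1, h.2]; exact ⟨h2, h1⟩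

/-- Edges at a vertex which is neither visited nor wired. -/
theorem fresh_closed {D : Dm} {F : Finset Edg} {s : ℕ} {σ : St} (h : σ.1 ∉ VV D F s) :
    ae σ ∉ D.wir ∧ (ae σ ∈ Yk D F s → ae σ ∉ F) := by
  have h1 : ae σ ∉ D.wir := by
    intro hw
    apply h
    right
    refine ⟨ae σ, hw, ?_⟩
    rcases ends σ with h2 | h2
    · exact Or.inl h2.1.symm
    · exact Or.inr h2.1.symm
  refine ⟨h1, fun h2 h3 => ?_⟩
  have h4 := (exam h2).1 (Or.inl h3)
  rcases ends σ with h5 | h5
  · rw [h5.1] at h4; exact h h4.1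
  · rw [h5.1] at h4; exact h h4.2

/-- Edges around a face of the rectangle which is not visited. -/
theorem fresh_new {D : Dm} {F : Finset Edg} {s : ℕ} {σ : St} (hg : Inn D (face (rt σ)))
    (hf : face (rt σ) ∉ VF D F s) (h : σ.1 ∉ VV D F s ∨ (mv σ).1 ∉ VV D F s) :
    ae σ ∈ rnd D ∧ ae σ ∉ Yk D F s := by
  have h1 : ae σ ∉ D.wir := by
    intro hw
    have a1 : σ.1 ∈ VV D F s := Or.inr ⟨ae σ, hw, by
      rcases ends σ with h2 | h2
      · exact Or.inl h2.1.symm
      · exact Or.inr h2.1.symm⟩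
    have a2 : (mv σ).1 ∈ VV D F s := Or.inr ⟨ae σ, hw, by
      rcases ends σ with h2 | h2
      · exact Or.inr h2.2.symm
      · exact Or.inl h2.2.symm⟩
    rcases h with h | h
    · exact h a1
    · exact h a2
  refine ⟨mem_rnd.mpr ⟨?_, h1⟩, fun h2 => ?_⟩
  · obtain ⟨⟨x, y⟩, q⟩ := σ
    unfold Inn at hg
    unfold Dm.edges
    cases q <;> simp only [rt_ne, rt_nw, rt_se, rt_sw, face_ne, face_nw, face_se, face_sw] at hg <;>
      simp only [ae_ne, ae_nw, ae_se, ae_sw]
    · rw [mem_RE_true]; omega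
    · rw [mem_RE_false]; omega
    · rw [mem_RE_true]; omega
    · rw [mem_RE_false]; omega
  · by_cases hc : ae σ ∈ D.cfg F
    · have h4 := (exam h2).1 hc
      rcases ends σ with h5 | h5
      · rw [h5.1, h5.2] at h4
        rcases h with h | h
        · exact h h4.1
        · exact h h4.2
      · rw [h5.1, h5.2] at h4
        rcases h with h | h
        · exact h h4.2
        · exact h h4.1
    · have h4 := (exam h2).2 hc
      rcases sides σ with h5 | h5
      · rw [h5.2] at h4; exact hf h4.2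
      · rw [h5.2] at h4; exact hf h4.1

end Q291.FK
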