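import Pool.Agent.Q291.FK.Conc

/-!
Lower bounds for the total variation distance between the random-cluster law and fair coins.
-/

set_option autoImplicit false

namespace Q291.FK

open H974 Finset H342P H984P H984N Q291.EP

/-- The natural parameter. -/
noncomputable def th (q : ℝ) : ℝ := (Real.sqrt q - 1) / (Real.sqrt q + 1)

theorem th_rho {q : ℝ} (hq : 0 < q) : Real.sqrt q * (1 - th q) = 1 + th q := by
  have := Real.sqrt_pos.mpr hq
  unfold th
  field_simp
  ring

theorem th_abs {q : ℝ} (hq : 0 < q) : |th q| ≤ 1 := by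
  have := Real.sqrt_pos.mpr hq
  unfold th
  rw [abs_le]
  constructor
  · rw [le_div_iff₀ (by linarith)]; linarith
  · rw [div_le_one (by linarith)]; linarith

/-- The coefficients. -/
noncomputable def cc (D : Dm) (m : ℕ) (F : Finset Edg) : ℝ := ind (Cy D m F)

theorem cc_msr {D : Dm} (hD : D.Ok) (m : ℕ) : Msr (rnd D) (Xm D m) (cc D m) :=
  msr_comp (cy_msr hD m) (fun p => ind p)

theorem un_rat {D : Dm} (hD : D.Ok) (m : ℕ) {a : Finset Edg → ℝ}
    (h : ∀ q : ℝ, 0 < q → Rat (rnd D) (Xm D) (fkm q D) (Real.sqrt q) m a) :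
    Rat (rnd D) (Xm D) (un (rnd D)) 1 m a := by
  have _ := hD
  have h1 := h 1 one_pos
  rw [Real.sqrt_one] at h1
  intro F hF h0
  obtain ⟨e, he, h2, h3⟩ := h1 F hF h0
  refine ⟨e, he, h2, ?_⟩
  rw [fkm_one, fkm_one] at h3
  exact h3

theorem wt_eq (D : Dm) (θ : ℝ) (M : ℕ) (F : Finset Edg) :
    Wt (Xm D) (cc D) θ M F = Wt (Xm D) (cc D) 0 M F - θ * Np D M F := by
  unfold Wt Np cc
  rw [Finset.mul_sum, ← Finset.sum_sub_distrib]
  refine Finset.sum_congr rfl fun i _ => ?_
  ring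

theorem pr_le_one {S : Finset Edg} {μ : Finset Edg → ℝ} (hμ : Law S μ) (A : Finset Edg → Prop) :
    pr μ S A ≤ 1 := by
  have := hμ.mono (f := fun F => ind (A F)) (g := fun _ => 1) (fun F _ => ind_le_one _)
  rwa [hμ.const] at this

theorem pr_nonneg {S : Finset Edg} {μ : Finset Edg → ℝ} (hμ : Law S μ) (A : Finset Edg → Prop) :
    0 ≤ pr μ S A := by
  have := hμ.mono (f := fun _ => 0) (g := fun F => ind (A F)) (fun F _ => ind_nonneg _)
  rwa [hμ.const] at this

theorem pr_mono {S : Finset Edg} {μ : Finset Edg → ℝ} (hμ : Law S μ) {A B : Finset Edg → Prop}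
    (h : ∀ F, F ⊆ S → A F → B F) : pr μ S A ≤ pr μ S B :=
  hμ.mono fun F hF => by
    by_cases hA : A F
    · rw [ind_of hA, ind_of (h F hF hA)]
    · rw [ind_not_of hA]; exact ind_nonneg _

theorem pr_not {S : Finset Edg} {μ : Finset Edg → ℝ} (hμ : Law S μ) (A : Finset Edg → Prop) :
    pr μ S (fun F => ¬ A F) = 1 - pr μ S A := by
  have h : em μ S (fun F => ind (¬ A F)) = em μ S (fun F => 1 - ind (A F)) := by
    refine em_congr fun F _ => ?_
    by_cases hA : A F
    · rw [ind_of hA, ind_not_of (not_not_intro hA)]; ring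
    · rw [ind_not_of hA, ind_of hA]; ring
  unfold pr
  rw [h, em_sub, hμ.const]

theorem pr_or {S : Finset Edg} {μ : Finset Edg → ℝ} (hμ : Law S μ) (A B : Finset Edg → Prop) :
    pr μ S (fun F => A F ∨ B F) ≤ pr μ S A + pr μ S B := by
  unfold pr
  rw [← em_add]
  refine hμ.mono fun F _ => ?_
  by_cases hA : A F
  · rw [ind_of (Or.inl hA : A F ∨ B F), ind_of hA]
    have := ind_nonneg (B F)
    linarith
  · by_cases hB : B F
    · rw [ind_of (Or.inr hB : A F ∨ B F), ind_of hB]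
      have := ind_nonneg (A F)
      linarith
    · rw [ind_not_of (by rintro (h | h); exacts [hA h, hB h])]
      have := ind_nonneg (B F)
      have := ind_nonneg (A F)
      linarith

/-- Few cycles. -/
theorem few_cy {D : Dm} (hD : D.Ok) {K : ℕ} (hK : 1 ≤ K) {η : ℝ}
    (hη : pr (un (rnd D)) (rnd D) (fun F => (Xm D (10 * K) F).card < 10 * K) ≤ η) :
    pr (un (rnd D)) (rnd D) (fun F => Np D (10 * K + 10) F ≤ K / 5120) ≤
      η + 10 * Real.exp (-(K / 104857600 : ℝ)) := by
  have h1 := conc hD hK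
  refine le_trans (pr_mono (un_law _) ?_) ((pr_or (un_law _) _ _).trans (add_le_add hη h1))
  intro F _ hF
  rcases Nat.lt_or_ge (Xm D (10 * K) F).card (10 * K) with h | h
  · exact Or.inl h
  · exact Or.inr ⟨h, hF⟩

/-- **Singularity**: the test on the signs of the edges which close cycles. -/
theorem low_sing {D : Dm} (hD : D.Ok) {q : ℝ} (hq : 0 < q) {K : ℕ} (hK : 1 ≤ K) {η L : ℝ}
    (hη : pr (un (rnd D)) (rnd D) (fun F => (Xm D (10 * K) F).card < 10 * K) ≤ η) (hL : 0 ≤ L)
    (hLK : L ≤ 4 * Real.sqrt K)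
    (hθ : 2 * L * Real.sqrt (10 * K + 10 : ℕ) ≤ |th q| * (K / 5120)) :
    ∃ B : Finset Edg → Prop, Msr (rnd D) (Xm D (10 * K + 10)) B ∧
      pr (fkm q D) (rnd D) B ≤ 2 * Real.exp (-(L ^ 2 / 16)) ∧
      1 - pr (un (rnd D)) (rnd D) B ≤ η + 10 * Real.exp (-(K / 104857600 : ℝ)) +
        2 * Real.exp (-(L ^ 2 / 16)) := by
  obtain ⟨M, hM⟩ : ∃ M, M = 10 * K + 10 := ⟨_, rfl⟩
  rw [← hM] at hθ ⊢
  have hM0 : (0:ℝ) < M := by rw [hM]; push_cast; positivity
  have hsM := Real.sq_sqrt hM0.le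
  have hsM0 := Real.sqrt_pos.mpr hM0
  have hKM : Real.sqrt K ≤ Real.sqrt M := by
    apply Real.sqrt_le_sqrt
    rw [hM]; push_cast
    have : (0:ℝ) ≤ K := Nat.cast_nonneg _
    linarith
  have ht : L * Real.sqrt M ≤ 4 * M := by
    have h1 : L ≤ 4 * Real.sqrt M := by linarith
    calc L * Real.sqrt M ≤ 4 * Real.sqrt M * Real.sqrt M :=
          mul_le_mul_of_nonneg_right h1 hsM0.le
      _ = 4 * M := by rw [mul_assoc, ← sq, hsM]
  have hsq : (L * Real.sqrt M) ^ 2 / (16 * M) = L ^ 2 / 16 := by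
    rw [mul_pow, hsM]
    field_simp
  have hc := chn hD
  refine ⟨fun F => K / 5120 < Np D M F ∧ |Wt (Xm D) (cc D) 0 M F| < L * Real.sqrt M, ?_, ?_, ?_⟩
  · have m1 : Msr (rnd D) (Xm D M) (Np D M) :=
      msr_sum (range M) (fun i hi => hc.msr_mono (Finset.mem_range.mp hi).le (cc_msr hD i))
    have m2 : Msr (rnd D) (Xm D M) (Wt (Xm D) (cc D) 0 M) :=
      msr_sum (range M) (fun i hi => wt_msr hc (cc_msr hD) 0 (Finset.mem_range.mp hi))
    exact msr_comp2 m1 m2 (fun x y => K / 5120 < x ∧ |y| < L * Real.sqrt M)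
  · have h1 := wt_tail hc (fk_law hq D) (cc_msr hD) (fun i F => ind_nonneg _)
      (fun i F => ind_le_one _) (th_rho hq) (th_abs hq) (fun i => cy_rat hD i hq)
      (m := M) (by omega) (t := L * Real.sqrt M) (by positivity) ht
    rw [hsq] at h1
    refine le_trans (pr_mono (fk_law hq D) ?_) h1
    rintro F _ ⟨h2, h3⟩
    rw [wt_eq]
    have h4 : |th q| * (K / 5120) ≤ |th q * Np D M F| := by
      rw [abs_mul]
      apply mul_le_mul_of_nonneg_left _ (abs_nonneg _)
      exact h2.le.trans (le_abs_self _)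
    have h5 := abs_sub_abs_le_abs_sub (th q * Np D M F) (Wt (Xm D) (cc D) 0 M F)
    rw [abs_sub_comm] at h5
    linarith
  · have h1 := wt_tail hc (un_law (rnd D)) (cc_msr hD) (fun i F => ind_nonneg _)
      (fun i F => ind_le_one _) (ρ := 1) (θ := 0) (by norm_num) (by norm_num)
      (fun i => un_rat hD i (fun q hq => cy_rat hD i hq))
      (m := M) (by omega) (t := L * Real.sqrt M) (by positivity) ht
    rw [hsq] at h1
    rw [← pr_not (un_law _)]
    have h2 := few_cy hD hK hη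
    rw [← hM] at h2
    refine le_trans (pr_mono (un_law _) ?_) ((pr_or (un_law _) _ _).trans (add_le_add h2 h1))
    intro F _ hF
    by_contra hcon
    push Not at hcon
    exact hF ⟨hcon.1, hcon.2⟩

/-! ### small parameters -/

/-- The sum has not yet exceeded the level `A`. -/
def Nst (D : Dm) (A : ℝ) (m : ℕ) (F : Finset Edg) : Prop :=
  ∀ i ≤ m, |Wt (Xm D) (cc D) 0 i F| < A

/-- The stopped coefficients. -/
noncomputable def ca (D : Dm) (A : ℝ) (m : ℕ) (F : Finset Edg) : ℝ :=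
  ind (Nst D A m F) * cc D m F

theorem nst_msr {D : Dm} (hD : D.Ok) (A : ℝ) (m : ℕ) :
    Msr (rnd D) (Xm D m) (Nst D A m) := by
  have hc := chn hD
  have m2 : ∀ i ≤ m, Msr (rnd D) (Xm D m) (Wt (Xm D) (cc D) 0 i) := fun i hi =>
    msr_sum (range i) (fun j hj => wt_msr hc (cc_msr hD) 0
      (lt_of_lt_of_le (Finset.mem_range.mp hj) hi))
  intro F G hF hG h
  unfold Nst
  apply propext
  refine forall_congr' fun i => forall_congr' fun hi => ?_
  rw [m2 i hi F G hF hG h]

theorem ca_msr {D : Dm} (hD : D.Ok) (A : ℝ) (m : ℕ) : Msr (rnd D) (Xm D m) (ca D A m) :=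
  msr_comp2 (nst_msr hD A m) (cc_msr hD m) (fun p x => ind p * x)

theorem ca_bounds (D : Dm) (A : ℝ) (m : ℕ) (F : Finset Edg) : 0 ≤ ca D A m F ∧ ca D A m F ≤ 1 := by
  unfold ca cc
  have h1 := ind_nonneg (Nst D A m F)
  have h2 := ind_le_one (Nst D A m F)
  have h3 := ind_nonneg (Cy D m F)
  have h4 := ind_le_one (Cy D m F)
  exact ⟨mul_nonneg h1 h3, by nlinarith⟩

/-- The stopped sum. -/
theorem stopped {D : Dm} {A : ℝ} (hA : 0 < A) (F : Finset Edg) (m : ℕ) :
    (Nst D A m F → Wt (Xm D) (ca D A) 0 m F = Wt (Xm D) (cc D) 0 m F) ∧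
    |Wt (Xm D) (ca D A) 0 m F| ≤ A + 1 ∧
    (¬ Nst D A m F → A ≤ |Wt (Xm D) (ca D A) 0 m F|) := by
  have hsucc : ∀ (a : ℕ → Finset Edg → ℝ) (k : ℕ), Wt (Xm D) a 0 (k + 1) F =
      Wt (Xm D) a 0 k F + a k F * sgn (Xm D) k F := by
    intro a k
    unfold Wt
    rw [Finset.sum_range_succ, sub_zero]
  have hz : ∀ a : ℕ → Finset Edg → ℝ, Wt (Xm D) a 0 0 F = 0 := fun a => by
    unfold Wt; simp
  induction m with
  | zero =>
    refine ⟨fun _ => by rw [hz, hz], by rw [hz, abs_zero]; linarith, fun h => ?_⟩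
    exfalso
    apply h
    intro i hi
    have : i = 0 := by omega
    rw [this, hz, abs_zero]
    exact hA
  | succ m ih =>
    obtain ⟨i1, i2, i3⟩ := ih
    by_cases hn : Nst D A m F
    · have e1 : Wt (Xm D) (ca D A) 0 (m + 1) F = Wt (Xm D) (cc D) 0 (m + 1) F := by
        rw [hsucc, hsucc, i1 hn]
        unfold ca
        rw [ind_of hn, one_mul]
      have e2 : |Wt (Xm D) (cc D) 0 m F| < A := hn m le_rfl
      refine ⟨fun _ => e1, ?_, fun h => ?_⟩
      · rw [hsucc, i1 hn]
        have h3 : |ca D A m F * sgn (Xm D) m F| ≤ 1 := by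
          rw [abs_mul, abs_of_nonneg (ca_bounds D A m F).1]
          have := (ca_bounds D A m F).2
          have h4 := sgn_abs (Xm D) m F
          calc ca D A m F * |sgn (Xm D) m F| ≤ 1 * 1 :=
                mul_le_mul this h4 (abs_nonneg _) (by norm_num)
            _ = 1 := by norm_num
        have h5 := abs_add_le (Wt (Xm D) (cc D) 0 m F) (ca D A m F * sgn (Xm D) m F)
        linarith
      · rw [e1]
        by_contra hcon
        push Not at hcon
        apply h
        intro i hi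
        rcases Nat.lt_or_ge i (m + 1) with h6 | h6
        · exact hn i (by omega)
        · have : i = m + 1 := by omega
          rw [this]; exact hcon
    · have e1 : Wt (Xm D) (ca D A) 0 (m + 1) F = Wt (Xm D) (ca D A) 0 m F := by
        rw [hsucc]
        unfold ca
        rw [ind_not_of hn, zero_mul, zero_mul, add_zero]
      refine ⟨fun h => ?_, ?_, fun _ => ?_⟩
      · exfalso
        apply hn
        intro i hi
        exact h i (by omega)
      · rw [e1]; exact i2
      · rw [e1]; exact i3 hn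

/-- **Linear lower bound** for small parameters. -/
theorem low_small {D : Dm} (hD : D.Ok) {q : ℝ} (hq : 0 < q) {K : ℕ} (hK : 10 ≤ K)
    (hη : pr (un (rnd D)) (rnd D) (fun F => (Xm D (10 * K) F).card < 10 * K) ≤ 1/8)
    (hKe : 10 * Real.exp (-(K / 104857600 : ℝ)) ≤ 1/8)
    (hup : ∀ f : Finset Edg → ℝ, Msr (rnd D) (Xm D (10 * K + 10)) f →
      (∀ F, F ⊆ rnd D → 0 ≤ f F) → (∀ F, F ⊆ rnd D → f F ≤ 1) →
      |em (fkm q D) (rnd D) f - em (un (rnd D)) (rnd D) f| ≤ 1/409600) :
    ∃ B : Finset Edg → Prop, Msr (rnd D) (Xm D (10 * K + 10)) B ∧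
      |th q| * Real.sqrt (10 * K + 10 : ℕ) / 7372800 ≤
        pr (fkm q D) (rnd D) B - pr (un (rnd D)) (rnd D) B := by
  obtain ⟨M, hM⟩ : ∃ M, M = 10 * K + 10 := ⟨_, rfl⟩
  rw [← hM] at hup ⊢
  have hMK : (M:ℝ) = 10 * K + 10 := by rw [hM]; push_cast; ring
  have hK0 : (10:ℝ) ≤ K := by exact_mod_cast hK
  have hM0 : (0:ℝ) < M := by rw [hMK]; linarith
  have hsM := Real.sq_sqrt hM0.le
  have hsM0 := Real.sqrt_pos.mpr hM0
  have hsM8 : 8 ≤ Real.sqrt M := by
    apply Real.le_sqrt_of_sq_le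
    rw [hMK]; linarith
  have hc := chn hD
  obtain ⟨A, hA⟩ : ∃ A, A = 8 * Real.sqrt M := ⟨_, rfl⟩
  have hA0 : 0 < A := by rw [hA]; positivity
  have hcaM : ∀ i, Msr (rnd D) (Xm D i) (ca D A i) := fun i => ca_msr hD A i
  have hrat : ∀ q : ℝ, 0 < q → ∀ i, Rat (rnd D) (Xm D) (fkm q D) (Real.sqrt q) i (ca D A i) :=
    fun q hq i => (cy_rat hD i hq).mul _
  -- means
  have hE0 : em (un (rnd D)) (rnd D) (Wt (Xm D) (ca D A) 0 M) = 0 := by
    have : em (un (rnd D)) (rnd D) (Wt (Xm D) (ca D A) 0 M) = ∑ i ∈ range M,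
        em (un (rnd D)) (rnd D) (fun F => ca D A i F * (sgn (Xm D) i F - 0)) := by
      rw [← em_sum]; rfl
    rw [this]
    refine Finset.sum_eq_zero fun i _ => ?_
    exact mart hc i (hcaM i) (ρ := 1) (by norm_num) (un_rat hD i (fun q hq => hrat q hq i))
  have hEq : em (fkm q D) (rnd D) (Wt (Xm D) (ca D A) 0 M) =
      th q * em (fkm q D) (rnd D) (fun F => ∑ i ∈ range M, ca D A i F) := by
    have h1 : em (fkm q D) (rnd D) (Wt (Xm D) (ca D A) (th q) M) = 0 := by
      have : em (fkm q D) (rnd D) (Wt (Xm D) (ca D A) (th q) M) = ∑ i ∈ range M,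
          em (fkm q D) (rnd D) (fun F => ca D A i F * (sgn (Xm D) i F - th q)) := by
        rw [← em_sum]; rfl
      rw [this]
      refine Finset.sum_eq_zero fun i _ => ?_
      exact mart hc i (hcaM i) (th_rho hq) (hrat q hq i)
    have h2 : em (fkm q D) (rnd D) (Wt (Xm D) (ca D A) (th q) M) =
        em (fkm q D) (rnd D) (Wt (Xm D) (ca D A) 0 M) -
        th q * em (fkm q D) (rnd D) (fun F => ∑ i ∈ range M, ca D A i F) := by
      rw [← em_smul, ← em_sub]
      refine em_congr fun F _ => ?_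
      unfold Wt
      rw [Finset.mul_sum, ← Finset.sum_sub_distrib]
      refine Finset.sum_congr rfl fun i _ => ?_
      ring
    linarith
  -- the number of increments
  have hN0 : (K:ℝ) / 10240 ≤ em (un (rnd D)) (rnd D) (fun F => ∑ i ∈ range M, ca D A i F) := by
    have a1 := few_cy hD (by omega : 1 ≤ K) hη
    rw [← hM] at a1
    have a2 := wt_tail hc (un_law (rnd D)) hcaM (fun i F => (ca_bounds D A i F).1)
      (fun i F => (ca_bounds D A i F).2) (ρ := 1) (θ := 0) (by norm_num) (by norm_num)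
      (fun i => un_rat hD i (fun q hq => hrat q hq i))
      (m := M) (by omega) (t := A) hA0.le (by
        rw [hA]
        nlinarith)
    have e1 : A ^ 2 / (16 * M) = 4 := by
      rw [hA, mul_pow, hsM]
      field_simp
      norm_num
    rw [e1] at a2
    have e4 : 2 * Real.exp (-4) ≤ 1/8 := by
      have h2 : Real.exp (-4) = (Real.exp 1)⁻¹ ^ 4 := by
        rw [← Real.exp_neg, ← Real.exp_nat_mul]
        norm_num
      have h3 := Real.exp_one_gt_d9
      have h4 : (Real.exp 1)⁻¹ ≤ 1/2 := by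
        rw [inv_le_comm₀ (by linarith) (by norm_num)]
        linarith
      have h5 := pow_le_pow_left₀ (inv_nonneg.mpr (Real.exp_pos 1).le) h4 4
      rw [h2]
      norm_num at h5 ⊢
      linarith
    have a3 : pr (un (rnd D)) (rnd D) (fun F => Np D M F ≤ K / 5120 ∨
        A ≤ |Wt (Xm D) (ca D A) 0 M F|) ≤ 1/2 := by
      refine (pr_or (un_law _) _ _).trans ?_
      linarith
    have a4 : (1:ℝ)/2 ≤ pr (un (rnd D)) (rnd D) (fun F => ¬ (Np D M F ≤ K / 5120 ∨
        A ≤ |Wt (Xm D) (ca D A) 0 M F|)) := by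
      rw [pr_not (un_law _)]
      linarith
    have a5 : (K:ℝ) / 5120 * pr (un (rnd D)) (rnd D) (fun F => ¬ (Np D M F ≤ K / 5120 ∨
        A ≤ |Wt (Xm D) (ca D A) 0 M F|)) ≤
        em (un (rnd D)) (rnd D) (fun F => ∑ i ∈ range M, ca D A i F) := by
      unfold pr
      rw [← em_smul]
      refine (un_law _).mono fun F _ => ?_
      by_cases hcs : ¬ (Np D M F ≤ K / 5120 ∨ A ≤ |Wt (Xm D) (ca D A) 0 M F|)
      · rw [ind_of hcs, mul_one]
        push Not at hcs
        have hn : Nst D A M F := by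
          by_contra hn
          exact absurd ((stopped hA0 F M).2.2 hn) (not_le.mpr hcs.2)
        have h1 : ∑ i ∈ range M, ca D A i F = Np D M F := by
          unfold Np
          refine Finset.sum_congr rfl fun i hi => ?_
          rw [Finset.mem_range] at hi
          unfold ca cc
          rw [ind_of (show Nst D A i F from fun j hj => hn j (by omega)), one_mul]
        rw [h1]
        exact hcs.1.le
      · rw [ind_not_of hcs, mul_zero]
        exact Finset.sum_nonneg fun i _ => (ca_bounds D A i F).1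
    have a6 : (K:ℝ) / 5120 * (1/2) ≤ (K:ℝ) / 5120 * pr (un (rnd D)) (rnd D)
        (fun F => ¬ (Np D M F ≤ K / 5120 ∨ A ≤ |Wt (Xm D) (ca D A) 0 M F|)) :=
      mul_le_mul_of_nonneg_left a4 (by positivity)
    linarith
  have hNq : (M:ℝ) / 409600 ≤ em (fkm q D) (rnd D) (fun F => ∑ i ∈ range M, ca D A i F) := by
    have b1 := hup (fun F => (1 / M) * ∑ i ∈ range M, ca D A i F)
      (msr_comp (msr_sum (range M) (fun i hi => hc.msr_mono (Finset.mem_range.mp hi).le
        (hcaM i))) (fun x => (1 / M) * x))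
      (fun F _ => mul_nonneg (by positivity) (Finset.sum_nonneg fun i _ => (ca_bounds D A i F).1))
      (fun F _ => by
        have : ∑ i ∈ range M, ca D A i F ≤ M := by
          refine (Finset.sum_le_sum fun i _ => (ca_bounds D A i F).2).trans ?_
          simp
        calc (1 / M : ℝ) * ∑ i ∈ range M, ca D A i F ≤ (1 / M) * M :=
              mul_le_mul_of_nonneg_left this (by positivity)
          _ = 1 := by field_simp)
    rw [em_smul, em_smul, ← mul_sub, abs_mul, abs_of_pos (by positivity : (0:ℝ) < 1 / M)] at b1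
    have b2 : |em (fkm q D) (rnd D) (fun F => ∑ i ∈ range M, ca D A i F) -
        em (un (rnd D)) (rnd D) (fun F => ∑ i ∈ range M, ca D A i F)| ≤ M / 409600 := by
      have := mul_le_mul_of_nonneg_left b1 hM0.le
      have e : (M:ℝ) * (1 / M * |em (fkm q D) (rnd D) (fun F => ∑ i ∈ range M, ca D A i F) -
        em (un (rnd D)) (rnd D) (fun F => ∑ i ∈ range M, ca D A i F)|) =
        |em (fkm q D) (rnd D) (fun F => ∑ i ∈ range M, ca D A i F) -
        em (un (rnd D)) (rnd D) (fun F => ∑ i ∈ range M, ca D A i F)| := by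
        field_simp
      rw [e] at this
      linarith
    have b3 := (abs_le.mp b2).1
    have b4 : (M:ℝ) / 204800 ≤ K / 10240 := by
      rw [hMK]
      linarith
    linarith
  -- conclusion
  obtain ⟨B, hB, hBf⟩ := ev_of_fun hc (fk_law hq D) M
  refine ⟨B, hB, ?_⟩
  obtain ⟨ε, hε⟩ : ∃ ε : ℝ, ε = if 0 ≤ th q then 1 else -1 := ⟨_, rfl⟩
  have hε1 : |ε| = 1 := by rw [hε]; split_ifs <;> simp
  have hεθ : ε * th q = |th q| := by
    rw [hε]
    split_ifs with h
    · rw [abs_of_nonneg h, one_mul]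
    · rw [abs_of_neg (not_le.mp h)]; ring
  have hA1 : 0 < A + 1 := by linarith
  have c1 := hBf (fun F => 1 / (2 * (A + 1)) * (ε * Wt (Xm D) (ca D A) 0 M F + (A + 1)))
    (msr_comp (msr_sum (range M) (fun i hi => wt_msr hc hcaM 0 (Finset.mem_range.mp hi)))
      (fun x => 1 / (2 * (A + 1)) * (ε * x + (A + 1))))
    (fun F _ => by
      have h1 := (stopped (D := D) hA0 F M).2.1
      have h2 : |ε * Wt (Xm D) (ca D A) 0 M F| ≤ A + 1 := by rw [abs_mul, hε1, one_mul]; exact h1
      have h3 := (abs_le.mp h2).1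
      exact mul_nonneg (by positivity) (by linarith))
    (fun F _ => by
      have h1 := (stopped (D := D) hA0 F M).2.1
      have h2 : |ε * Wt (Xm D) (ca D A) 0 M F| ≤ A + 1 := by rw [abs_mul, hε1, one_mul]; exact h1
      have h3 := (abs_le.mp h2).2
      rw [one_div, inv_mul_le_iff₀ (by positivity)]
      linarith)
  refine le_trans ?_ c1
  have c2 : ∀ μ : Finset Edg → ℝ, Law (rnd D) μ → em μ (rnd D)
      (fun F => 1 / (2 * (A + 1)) * (ε * Wt (Xm D) (ca D A) 0 M F + (A + 1))) =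
      1 / (2 * (A + 1)) * (ε * em μ (rnd D) (Wt (Xm D) (ca D A) 0 M) + (A + 1)) := by
    intro μ hμ
    rw [em_smul, em_add, em_smul, hμ.const]
  rw [c2 _ (fk_law hq D), c2 _ (un_law _), hE0, hEq]
  have c3 : 1 / (2 * (A + 1)) * (ε * (th q * em (fkm q D) (rnd D)
      (fun F => ∑ i ∈ range M, ca D A i F)) + (A + 1)) -
      1 / (2 * (A + 1)) * (ε * 0 + (A + 1)) = |th q| * em (fkm q D) (rnd D)
      (fun F => ∑ i ∈ range M, ca D A i F) / (2 * (A + 1)) := by
    rw [← hεθ]
    field_simp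
    ring
  rw [c3]
  have c4 : A + 1 ≤ 9 * Real.sqrt M := by rw [hA]; linarith
  have c5 : |th q| * (M / 409600) / (18 * Real.sqrt M) ≤ |th q| * em (fkm q D) (rnd D)
      (fun F => ∑ i ∈ range M, ca D A i F) / (2 * (A + 1)) := by
    apply div_le_div₀ _ _ (by positivity) (by linarith)
    · exact mul_nonneg (abs_nonneg _) (le_trans (by positivity) hNq)
    · exact mul_le_mul_of_nonneg_left hNq (abs_nonneg _)
  refine le_trans (le_of_eq ?_) c5
  have c6 : (M:ℝ) = Real.sqrt M * Real.sqrt M := by rw [← sq, hsM]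
  field_simp
  rw [hsM]
  ring

end Q291.FK
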