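import Pool.Agent.Q291.FK.Seq

/-!
Upper bound for the total variation distance between a law whose single coin ratios are between
`1/r` and `r` and the uniform law, along an exploration; exponential bounds.
-/

set_option autoImplicit false

namespace Q291.FK

open Finset H974 Q291.EP

variable {E : Type*} [DecidableEq E]

/-- The flip of one coin changes the weight by a factor between `1/r` and `r`. -/
def Near (S : Finset E) (μ : Finset E → ℝ) (r : ℝ) : Prop :=
  ∀ e ∈ S, ∀ G, G ⊆ S → e ∉ G → μ (insert e G) ≤ r * μ G ∧ μ G ≤ r * μ (insert e G)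

variable {S : Finset E} {X : ℕ → Finset E → Finset E} {μ : Finset E → ℝ} {r : ℝ}

theorem filt_split {K F : Finset E} {e : E} (hF : F ⊆ S) (heS : e ∈ S) (heK : e ∉ K) :
    (∑ G ∈ S.powerset with G ∩ insert e K = insert e F ∩ insert e K, μ G) +
      (∑ G ∈ S.powerset with G ∩ insert e K = F.erase e ∩ insert e K, μ G) =
    ∑ G ∈ S.powerset with G ∩ K = F ∩ K, μ G := by
  have _ := hF
  have _ := heS
  rw [← Finset.sum_filter_add_sum_filter_not (S.powerset.filter (fun G => G ∩ K = F ∩ K))
    (fun G => e ∈ G)]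
  congr 1
  · apply Finset.sum_congr _ (fun _ _ => rfl)
    ext G
    simp only [Finset.mem_filter, and_assoc, and_congr_right_iff]
    intro _
    constructor
    · intro h
      have h1 : e ∈ G ∩ insert e K := by rw [h]; simp
      refine ⟨?_, (Finset.mem_inter.mp h1).1⟩
      ext x
      have h2 : x ∈ G ∩ insert e K ↔ x ∈ insert e F ∩ insert e K := by rw [h]
      simp only [Finset.mem_inter, Finset.mem_insert] at h2 ⊢
      by_cases hx : x = e
      · subst hx; simp [heK]
      · simpa [hx] using h2
    · rintro ⟨h, he⟩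
      ext x
      have h2 : x ∈ G ∩ K ↔ x ∈ F ∩ K := by rw [h]
      simp only [Finset.mem_inter, Finset.mem_insert] at h2 ⊢
      by_cases hx : x = e
      · subst hx; simp [he]
      · simpa [hx] using h2
  · apply Finset.sum_congr _ (fun _ _ => rfl)
    ext G
    simp only [Finset.mem_filter, and_assoc, and_congr_right_iff]
    intro _
    constructor
    · intro h
      have h1 : e ∉ G ∩ insert e K := by rw [h]; simp
      refine ⟨?_, fun h3 => h1 (Finset.mem_inter.mpr ⟨h3, Finset.mem_insert_self e K⟩)⟩
      ext x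
      have h2 : x ∈ G ∩ insert e K ↔ x ∈ F.erase e ∩ insert e K := by rw [h]
      simp only [Finset.mem_inter, Finset.mem_insert, Finset.mem_erase] at h2 ⊢
      by_cases hx : x = e
      · subst hx; simp [heK]
      · simpa [hx] using h2
    · rintro ⟨h, he⟩
      ext x
      have h2 : x ∈ G ∩ K ↔ x ∈ F ∩ K := by rw [h]
      simp only [Finset.mem_inter, Finset.mem_insert, Finset.mem_erase] at h2 ⊢
      by_cases hx : x = e
      · subst hx; simp [he]
      · simpa [hx] using h2

/-- The masses of the two outcomes of a new coin are comparable. -/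
theorem filt_ratio (hN : Near S μ r) {K F : Finset E} {e : E} (heS : e ∈ S)
    (heK : e ∉ K) :
    (∑ G ∈ S.powerset with G ∩ insert e K = insert e F ∩ insert e K, μ G) ≤
      r * (∑ G ∈ S.powerset with G ∩ insert e K = F.erase e ∩ insert e K, μ G) ∧
    (∑ G ∈ S.powerset with G ∩ insert e K = F.erase e ∩ insert e K, μ G) ≤
      r * (∑ G ∈ S.powerset with G ∩ insert e K = insert e F ∩ insert e K, μ G) := by
  have hb : ∑ G ∈ S.powerset with G ∩ insert e K = insert e F ∩ insert e K, μ G =
      ∑ G ∈ S.powerset with G ∩ insert e K = F.erase e ∩ insert e K, μ (insert e G) := by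
    refine Finset.sum_bij' (fun G _ => G.erase e) (fun G _ => insert e G) ?_ ?_ ?_ ?_ ?_
    · intro G hG
      rw [Finset.mem_filter, Finset.mem_powerset] at hG ⊢
      refine ⟨(Finset.erase_subset _ _).trans hG.1, ?_⟩
      ext x
      have h2 : x ∈ G ∩ insert e K ↔ x ∈ insert e F ∩ insert e K := by rw [hG.2]
      simp only [Finset.mem_inter, Finset.mem_insert, Finset.mem_erase] at h2 ⊢
      by_cases hx : x = e
      · subst hx; simp
      · simpa [hx] using h2
    · intro G hG
      rw [Finset.mem_filter, Finset.mem_powerset] at hG ⊢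
      refine ⟨Finset.insert_subset heS hG.1, ?_⟩
      ext x
      have h2 : x ∈ G ∩ insert e K ↔ x ∈ F.erase e ∩ insert e K := by rw [hG.2]
      simp only [Finset.mem_inter, Finset.mem_insert, Finset.mem_erase] at h2 ⊢
      by_cases hx : x = e
      · subst hx; simp
      · simpa [hx] using h2
    · intro G hG
      rw [Finset.mem_filter] at hG
      have h1 : e ∈ G ∩ insert e K := by rw [hG.2]; simp
      exact Finset.insert_erase (Finset.mem_inter.mp h1).1
    · intro G hG
      rw [Finset.mem_filter] at hG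
      have h1 : e ∉ G ∩ insert e K := by rw [hG.2]; simp
      exact Finset.erase_insert (fun h3 => h1 (Finset.mem_inter.mpr
        ⟨h3, Finset.mem_insert_self e K⟩))
    · intro G hG
      rw [Finset.mem_filter] at hG
      have h1 : e ∈ G ∩ insert e K := by rw [hG.2]; simp
      show μ G = μ (insert e (G.erase e))
      rw [Finset.insert_erase (Finset.mem_inter.mp h1).1]
  have hk : ∀ G ∈ S.powerset.filter (fun G => G ∩ insert e K = F.erase e ∩ insert e K),
      μ (insert e G) ≤ r * μ G ∧ μ G ≤ r * μ (insert e G) := by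
    intro G hG
    rw [Finset.mem_filter, Finset.mem_powerset] at hG
    refine hN e heS G hG.1 ?_
    intro h3
    have h1 : e ∉ G ∩ insert e K := by rw [hG.2]; simp
    exact h1 (Finset.mem_inter.mpr ⟨h3, Finset.mem_insert_self e K⟩)
  rw [hb, Finset.mul_sum, Finset.mul_sum]
  exact ⟨Finset.sum_le_sum fun G hG => (hk G hG).1, Finset.sum_le_sum fun G hG => (hk G hG).2⟩

theorem log_half {a b : ℝ} (ha : 0 < a) (hb : 0 < b) (hr : 1 ≤ r) (h1 : a ≤ r * b)
    (h2 : b ≤ r * a) :
    -((r - 1) ^ 2 / (4 * r)) ≤ Real.log (2 * (a / (a + b))) + Real.log (2 * (b / (a + b))) := by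
  have hr0 : 0 < r := by linarith
  have hab : 0 < a + b := by linarith
  rw [← Real.log_mul (by positivity) (by positivity)]
  have h3 : (a - b) ^ 2 * r ≤ (r - 1) ^ 2 * (a * b) := by
    have : 0 ≤ (r * b - a) * (r * a - b) := mul_nonneg (by linarith) (by linarith)
    nlinarith
  have h4 : 2 * (a / (a + b)) * (2 * (b / (a + b))) = 4 * (a * b) / (a + b) ^ 2 := by
    field_simp
    ring
  rw [h4]
  have h5 := Real.one_sub_inv_le_log_of_pos (x := 4 * (a * b) / (a + b) ^ 2) (by positivity)
  refine le_trans ?_ h5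
  rw [inv_div]
  have h6 : 1 - (a + b) ^ 2 / (4 * (a * b)) = -((a - b) ^ 2 / (4 * (a * b))) := by
    field_simp
    ring
  rw [h6, neg_le_neg_iff, div_le_div_iff₀ (by positivity) (by positivity)]
  nlinarith [h3]

/-- The logarithm of the density of the revealed configuration. -/
noncomputable def ld (μ : Finset E → ℝ) (S : Finset E) (X : Finset E → Finset E)
    (F : Finset E) : ℝ := Real.log (2 ^ (X F).card * ms μ S X F)

theorem ld_step (h : Chn S X) (hμ : Law S μ) (hN : Near S μ r) (hr : 1 ≤ r) (m : ℕ) :
    em (un S) S (ld μ S (X m)) -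
      (r - 1) ^ 2 / (8 * r) * (em (un S) S (fun F => ((X (m + 1) F).card : ℝ)) -
        em (un S) S (fun F => ((X m F).card : ℝ))) ≤
    em (un S) S (ld μ S (X (m + 1))) := by
  have hr0 : 0 < r := by linarith
  rw [← em_sub, ← em_smul, ← em_sub]
  have e1 : em (un S) S (ld μ S (X (m + 1))) = (1/2) ^ S.card *
      ∑ F ∈ S.powerset, ld μ S (X (m + 1)) F := by
    unfold em un
    rw [Finset.mul_sum]
  rw [e1, h.sum_pair m]
  unfold em un
  rw [← Finset.mul_sum, Finset.sum_div]
  apply mul_le_mul_of_nonneg_left _ (by positivity)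
  apply Finset.sum_le_sum
  intro F hF
  rw [Finset.mem_powerset] at hF
  obtain ⟨t1, t2⟩ := h.tg_X m hF
  rcases h.cases m hF with hc | ⟨e, he, heS, hc⟩
  · rw [Chn.tg_same hc]
    have : ld μ S (X (m + 1)) F = ld μ S (X m) F := by
      unfold ld ms
      rw [hc]
    rw [this, hc]
    linarith
  · have hcard : ((X (m + 1) F).card : ℝ) = (X m F).card + 1 := by
      rw [hc, Finset.card_insert_of_notMem he]
      push_cast
      ring
    obtain ⟨a, ha⟩ : ∃ a, a = ∑ G ∈ S.powerset with G ∩ insert e (X m F) =
        insert e F ∩ insert e (X m F), μ G := ⟨_, rfl⟩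
    obtain ⟨b, hb⟩ : ∃ b, b = ∑ G ∈ S.powerset with G ∩ insert e (X m F) =
        F.erase e ∩ insert e (X m F), μ G := ⟨_, rfl⟩
    have hsum : a + b = ms μ S (X m) F := by
      rw [ha, hb]
      exact filt_split hF heS he
    have hrat := filt_ratio hN (K := X m F) (F := F) heS he
    rw [← ha, ← hb] at hrat
    have hFe : F.erase e ⊆ S := (Finset.erase_subset _ _).trans hF
    have hIe : insert e F ⊆ S := Finset.insert_subset heS hF
    have ha0 : 0 < a := by
      rw [ha]
      exact Finset.sum_pos (fun G hG => hμ.pos G (Finset.mem_powerset.mp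
        (Finset.mem_filter.mp hG).1)) ⟨insert e F, Finset.mem_filter.mpr
          ⟨Finset.mem_powerset.mpr hIe, rfl⟩⟩
    have hb0 : 0 < b := by
      rw [hb]
      exact Finset.sum_pos (fun G hG => hμ.pos G (Finset.mem_powerset.mp
        (Finset.mem_filter.mp hG).1)) ⟨F.erase e, Finset.mem_filter.mpr
          ⟨Finset.mem_powerset.mpr hFe, rfl⟩⟩
    have hlog := log_half ha0 hb0 hr hrat.1 hrat.2
    have hab : 0 < a + b := by linarith
    -- the sum of the two logarithms
    have hs : ld μ S (X (m + 1)) F + ld μ S (X (m + 1)) (tg X m F) =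
        2 * ld μ S (X m) F + (Real.log (2 * (a / (a + b))) + Real.log (2 * (b / (a + b)))) := by
      have l1 : ∀ x : ℝ, 0 < x → Real.log (2 ^ (X (m + 1) F).card * x) =
          ld μ S (X m) F + Real.log (2 * (x / (a + b))) := by
        intro x hx
        unfold ld
        rw [← hsum, ← Real.log_mul (by positivity) (by positivity)]
        congr 1
        have : (X (m + 1) F).card = (X m F).card + 1 := by
          rw [hc, Finset.card_insert_of_notMem he]
        rw [this, pow_succ]
        field_simp
      by_cases heF : e ∈ F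
      · have g1 : ms μ S (X (m + 1)) F = a := by
          unfold ms
          rw [hc, ha, Finset.insert_eq_of_mem heF]
        have g2 : ms μ S (X (m + 1)) (tg X m F) = b := by
          unfold ms
          rw [t2, hc, hb, Chn.tg_new he hc, if_pos heF]
        have l2 : ld μ S (X (m + 1)) F = Real.log (2 ^ (X (m + 1) F).card * a) := by
          unfold ld; rw [g1]
        have l3 : ld μ S (X (m + 1)) (tg X m F) = Real.log (2 ^ (X (m + 1) F).card * b) := by
          unfold ld; rw [g2, t2]
        rw [l2, l3, l1 a ha0, l1 b hb0]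
        ring
      · have g1 : ms μ S (X (m + 1)) F = b := by
          unfold ms
          rw [hc, hb, Finset.erase_eq_of_notMem heF]
        have g2 : ms μ S (X (m + 1)) (tg X m F) = a := by
          unfold ms
          rw [t2, hc, ha, Chn.tg_new he hc, if_neg heF]
        have l2 : ld μ S (X (m + 1)) F = Real.log (2 ^ (X (m + 1) F).card * b) := by
          unfold ld; rw [g1]
        have l3 : ld μ S (X (m + 1)) (tg X m F) = Real.log (2 ^ (X (m + 1) F).card * a) := by
          unfold ld; rw [g2, t2]
        rw [l2, l3, l1 a ha0, l1 b hb0]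
        ring
    rw [hs, hcard]
    have h8 : (r - 1) ^ 2 / (8 * r) = ((r - 1) ^ 2 / (4 * r)) / 2 := by
      field_simp
      ring
    rw [h8]
    linarith

theorem ld_ge (h : Chn S X) (hμ : Law S μ) (hN : Near S μ r) (hr : 1 ≤ r) (m : ℕ) :
    -((r - 1) ^ 2 / (8 * r) * em (un S) S (fun F => ((X m F).card : ℝ))) ≤
      em (un S) S (ld μ S (X m)) := by
  induction m with
  | zero =>
    have h1 : em (un S) S (fun F => ((X 0 F).card : ℝ)) = em (un S) S (fun _ => 0) :=
      em_congr fun F hF => by rw [h.zero F hF]; simp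
    have h2 : em (un S) S (ld μ S (X 0)) = em (un S) S (fun _ => 0) := by
      refine em_congr fun F hF => ?_
      unfold ld ms
      rw [h.zero F hF]
      simp only [Finset.card_empty, pow_zero, one_mul, Finset.inter_empty, Finset.filter_true]
      rw [hμ.one, Real.log_one]
    rw [h1, h2, (un_law S).const]
    simp
  | succ m ih =>
    have h1 := ld_step h hμ hN hr m
    linarith

theorem em_cs (hμ : Law S μ) (f g : Finset E → ℝ) :
    em μ S (fun F => f F * g F) ^ 2 ≤ em μ S (fun F => f F ^ 2) * em μ S (fun F => g F ^ 2) := by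
  unfold em
  refine Finset.sum_sq_le_sum_mul_sum_of_sq_eq_mul S.powerset ?_ ?_ ?_
  · intro F hF
    exact mul_nonneg (hμ.pos F (Finset.mem_powerset.mp hF)).le (sq_nonneg _)
  · intro F hF
    exact mul_nonneg (hμ.pos F (Finset.mem_powerset.mp hF)).le (sq_nonneg _)
  · intro F _
    ring

/-- Upper bound for the total variation. -/
theorem tv_up (h : Chn S X) (hμ : Law S μ) (hN : Near S μ r) (hr : 1 ≤ r) (m : ℕ)
    {f : Finset E → ℝ} (hf : Msr S (X m) f) (h0 : ∀ F, F ⊆ S → 0 ≤ f F)
    (h1 : ∀ F, F ⊆ S → f F ≤ 1) :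
    |em μ S f - em (un S) S f| ≤ Real.sqrt (1 - Real.exp (-((r - 1) ^ 2 / (8 * r) *
      em (un S) S (fun F => ((X m F).card : ℝ))))) := by
  obtain ⟨D, hD⟩ : ∃ D : Finset E → ℝ, D = fun F => 2 ^ (X m F).card * ms μ S (X m) F := ⟨_, rfl⟩
  have hDp : ∀ F, F ⊆ S → 0 < D F := fun F hF => by
    rw [hD]
    have := ms_pos hμ (X m) hF
    positivity
  have hone : em (un S) S D = 1 := by
    have h2 := em_msr (μ := μ) (h.stp m) (f := fun _ => (1:ℝ)) (fun _ _ _ _ _ => rfl)
    rw [hμ.const] at h2
    rw [h2, hD]
    exact em_congr fun F _ => by ring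
  have hch : ∀ g : Finset E → ℝ, Msr S (X m) g → em μ S g = em (un S) S (fun F => g F * D F) :=
    fun g hg => by
      rw [em_msr (h.stp m) hg, hD]
  obtain ⟨A, hA⟩ : ∃ A, A = em (un S) S (fun F => Real.sqrt (D F)) := ⟨_, rfl⟩
  -- lower bound of the affinity
  have hAlow : Real.exp (-((r - 1) ^ 2 / (8 * r) *
      em (un S) S (fun F => ((X m F).card : ℝ))) / 2) ≤ A := by
    have h2 := ld_ge h hμ hN hr m
    obtain ⟨L, hL⟩ : ∃ L, L = em (un S) S (ld μ S (X m)) := ⟨_, rfl⟩
    have h3 : Real.exp (L / 2) ≤ A := by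
      have h4 : em (un S) S (fun F => Real.exp (L / 2) * ((1/2) * ld μ S (X m) F + (1 - L / 2))) ≤
          A := by
        rw [hA]
        refine (un_law S).mono fun F hF => ?_
        have h5 : Real.sqrt (D F) = Real.exp (ld μ S (X m) F / 2) := by
          rw [Real.exp_half]
          congr 1
          unfold ld
          rw [Real.exp_log]
          · rw [hD]
          · have := hDp F hF
            rw [hD] at this
            exact this
        rw [h5]
        have h6 := Real.add_one_le_exp (ld μ S (X m) F / 2 - L / 2)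
        have h7 : Real.exp (ld μ S (X m) F / 2) =
            Real.exp (L / 2) * Real.exp (ld μ S (X m) F / 2 - L / 2) := by
          rw [← Real.exp_add]
          congr 1
          ring
        rw [h7]
        refine mul_le_mul_of_nonneg_left ?_ (Real.exp_pos _).le
        linarith
      rw [em_smul, em_add, em_smul, ← hL, (un_law S).const] at h4
      have h8 : (1/2) * L + (1 - L/2) = 1 := by ring
      rwa [h8, mul_one] at h4
    refine le_trans (Real.exp_le_exp.mpr ?_) h3
    linarith
  apply Real.abs_le_sqrt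
  have e1 : em μ S f - em (un S) S f = em (un S) S (fun F =>
      ((f F - 1/2) * (Real.sqrt (D F) + 1)) * (Real.sqrt (D F) - 1)) := by
    rw [hch f hf]
    have e2 : em (un S) S (fun F => ((f F - 1/2) * (Real.sqrt (D F) + 1)) *
        (Real.sqrt (D F) - 1)) = em (un S) S (fun F => (f F * D F - f F) -
        (1/2) * (D F - 1)) := by
      refine em_congr fun F hF => ?_
      have h := Real.sq_sqrt (hDp F hF).le
      linear_combination (f F - 1/2) * h
    rw [e2, em_sub, em_sub, em_smul, em_sub, hone, (un_law S).const]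
    ring
  have hcs : em (un S) S (fun F => ((f F - 1/2) * (Real.sqrt (D F) + 1)) *
      (Real.sqrt (D F) - 1)) ^ 2 ≤ em (un S) S (fun F =>
      ((f F - 1/2) * (Real.sqrt (D F) + 1)) ^ 2) * em (un S) S (fun F =>
      (Real.sqrt (D F) - 1) ^ 2) := by
    exact em_cs (un_law S) _ _
  rw [e1]
  refine hcs.trans ?_
  have e3 : em (un S) S (fun F => (Real.sqrt (D F) - 1) ^ 2) = 2 - 2 * A := by
    have : em (un S) S (fun F => (Real.sqrt (D F) - 1) ^ 2) =
        em (un S) S (fun F => D F + (1 - 2 * Real.sqrt (D F))) := by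
      refine em_congr fun F hF => ?_
      have h := Real.sq_sqrt (hDp F hF).le
      linear_combination h
    rw [this, em_add, em_sub, em_smul, hone, (un_law S).const, ← hA]
    ring
  have e4 : em (un S) S (fun F => (Real.sqrt (D F) + 1) ^ 2) = 2 + 2 * A := by
    have : em (un S) S (fun F => (Real.sqrt (D F) + 1) ^ 2) =
        em (un S) S (fun F => D F + (1 + 2 * Real.sqrt (D F))) := by
      refine em_congr fun F hF => ?_
      have h := Real.sq_sqrt (hDp F hF).le
      linear_combination h
    rw [this, em_add, em_add, em_smul, hone, (un_law S).const, ← hA]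
    ring
  have e5 : em (un S) S (fun F => ((f F - 1/2) * (Real.sqrt (D F) + 1)) ^ 2) ≤
      (1/4) * (2 + 2 * A) := by
    rw [← e4, ← em_smul]
    refine (un_law S).mono fun F hF => ?_
    rw [mul_pow]
    refine mul_le_mul_of_nonneg_right ?_ (sq_nonneg _)
    have := h0 F hF
    have := h1 F hF
    nlinarith
  rw [e3]
  have e6 : 0 ≤ 2 - 2 * A := by
    rw [← e3]
    have := (un_law S).mono (f := fun _ => 0) (g := fun F => (Real.sqrt (D F) - 1) ^ 2)
      (fun F _ => sq_nonneg _)
    rwa [(un_law S).const] at this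
  have e7 : Real.exp (-((r - 1) ^ 2 / (8 * r) *
      em (un S) S (fun F => ((X m F).card : ℝ)))) ≤ A ^ 2 := by
    have h2 := pow_le_pow_left₀ (Real.exp_pos _).le hAlow 2
    rw [← Real.exp_nat_mul] at h2
    refine le_trans (le_of_eq ?_) h2
    congr 1
    push_cast
    ring
  refine (mul_le_mul_of_nonneg_right e5 e6).trans ?_
  nlinarith

/-! ### exponential bounds -/

theorem exp_quad {x : ℝ} (hx : |x| ≤ 1) : Real.exp x ≤ 1 + x + x ^ 2 := by
  have h1 := Real.abs_exp_sub_one_sub_id_le hx
  have h2 := (abs_le.mp h1).2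
  linarith

/-- One step of the exponential supermartingale. -/
theorem exp_step (hμ : Law S μ) {A u : Finset E → ℝ} {lam b : ℝ} (hA : ∀ F, F ⊆ S → 0 ≤ A F)
    (hu : ∀ F, F ⊆ S → |u F| ≤ b) (hl : |lam| * b ≤ 1)
    (hm : lam * em μ S (fun F => A F * u F) ≤ 0) :
    em μ S (fun F => A F * Real.exp (lam * u F)) ≤ (1 + lam ^ 2 * b ^ 2) * em μ S A := by
  have h1 : em μ S (fun F => A F * Real.exp (lam * u F)) ≤
      em μ S (fun F => (1 + lam ^ 2 * b ^ 2) * A F + lam * (A F * u F)) := by
    refine hμ.mono fun F hF => ?_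
    have h2 : |lam * u F| ≤ |lam| * b := by
      rw [abs_mul]
      exact mul_le_mul_of_nonneg_left (hu F hF) (abs_nonneg _)
    have h3 := exp_quad (h2.trans hl)
    have h4 : (lam * u F) ^ 2 ≤ lam ^ 2 * b ^ 2 := by
      have h5 := pow_le_pow_left₀ (abs_nonneg _) h2 2
      rw [sq_abs, mul_pow |lam| b, sq_abs] at h5
      exact h5
    have h6 := mul_le_mul_of_nonneg_left (h3.trans (by linarith :
      1 + lam * u F + (lam * u F) ^ 2 ≤ 1 + lam * u F + lam ^ 2 * b ^ 2)) (hA F hF)
    refine h6.trans (le_of_eq ?_)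
    ring
  rw [em_add, em_smul, em_smul] at h1
  linarith

end Q291.FK
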