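import Pool.Agent.Q291.FK.Geo

/-!
After the examination of an edge with a new vertex and a new face, the path may turn around the
new face, with at most nine prescribed edges, and then examine an edge which closes a cycle.
-/

set_option autoImplicit false

namespace Q291.FK

open H974 Finset H342P H984P H984N Q291.EP

theorem distinct (σ : St) (i j : ℕ) (hi : i ≤ 2) (hj : j ≤ 3) :
    ae (RR^[j] σ) ≠ ae (mv (RR^[i] σ)) ∧ ae (RR^[j] σ) ≠ ae (rt (mv (RR^[i] σ))) ∧
      (i < j → ae (RR^[j] σ) ≠ ae (RR^[i] σ)) := by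
  obtain ⟨⟨x, y⟩, q⟩ := σ
  interval_cases i <;> interval_cases j <;> cases q <;>
    simp only [Function.iterate_succ, Function.iterate_zero, Function.comp_apply, id_eq, RR,
      mv_ne, mv_nw, mv_se, mv_sw, rt_ne, rt_nw, rt_se, rt_sw, ae_ne, ae_nw, ae_se, ae_sw, ne_eq,
      Prod.mk.injEq] <;> simp <;> omega

/-- The edges which may be changed. -/
noncomputable def KK (σ : St) : Finset Edg :=
  (range 3).image (fun i => ae (RR^[i] σ)) ∪ ((range 3).image (fun i => ae (mv (RR^[i] σ))) ∪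
    (range 3).image (fun i => ae (rt (mv (RR^[i] σ)))))

theorem card_KK (σ : St) : (KK σ).card ≤ 9 := by
  unfold KK
  have h1 : ∀ f : ℕ → Edg, ((range 3).image f).card ≤ 3 := fun f =>
    Finset.card_image_le.trans (by rw [Finset.card_range])
  refine (Finset.card_union_le _ _).trans ?_
  have h2 := Finset.card_union_le ((range 3).image (fun i => ae (mv (RR^[i] σ))))
    ((range 3).image (fun i => ae (rt (mv (RR^[i] σ)))))
  have a1 := h1 (fun i => ae (RR^[i] σ))
  have a2 := h1 (fun i => ae (mv (RR^[i] σ)))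
  have a3 := h1 (fun i => ae (rt (mv (RR^[i] σ))))
  omega

theorem face_iter (σ : St) (i : ℕ) : face (rt (RR^[i] σ)) = face (rt σ) := by
  induction i with
  | zero => rfl
  | succ i ih => rw [Function.iterate_succ_apply', face_RR, ih]

theorem zero_wired {D : Dm} (hD : D.Ok) : ((0, 0) : Vtx) ∈ Wv D := by
  have := hD.l_neg
  exact ⟨(-1, 0, true), Or.inr (Or.inr ⟨rfl, rfl, by show D.l ≤ -1; omega, by
    show (-1 : ℤ) < 0; omega⟩), Or.inr (by simp)⟩

theorem Yk_card_add {D : Dm} {F : Finset Edg} (s t : ℕ) :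
    (Yk D F (s + t)).card ≤ (Yk D F s).card + t := by
  induction t with
  | zero => simp
  | succ t ih =>
    have := Yk_succ_card D F (s + t)
    rw [← add_assoc]
    omega

theorem pat_core {D : Dm} (hD : D.Ok) {F : Finset Edg} (hF : F ⊆ rnd D) {s : ℕ}
    (hs : s < D.len F) (hnew : New D F s) (hg : Inn D (face (rt (D.walk F s))))
    (hf : face (rt (D.walk F s)) ∉ VF D F s) {k : ℕ} (hk1 : 1 ≤ k) (hk3 : k ≤ 3)
    (hb : ∀ i < k, (mv (RR^[i] (D.walk F s))).1 ∉ VV D F s)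
    (hend : (mv (RR^[k] (D.walk F s))).1 ∈ VV D F s) :
    ∃ F', F' ⊆ rnd D ∧ F ∩ Yk D F s = F' ∩ Yk D F s ∧
      (∀ e, e ∉ KK (D.walk F s) → (e ∈ F ↔ e ∈ F')) ∧ New D F' s ∧ s < D.len F' ∧
      D.walk F' s = D.walk F s ∧ Yk D F' s = Yk D F s ∧
      ∃ m', (Yk D F s).card + 1 ≤ m' ∧ m' ≤ (Yk D F s).card + 9 ∧ Cy D m' F' := by
  classical
  obtain ⟨σ, hσ⟩ : ∃ σ, σ = D.walk F s := ⟨_, rfl⟩
  rw [← hσ] at hg hf hb hend
  have hFE := hF.trans (rnd_sub D)
  -- vertices of the turn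
  have hv : ∀ j, 1 ≤ j → j ≤ k → (RR^[j] σ).1 ∉ VV D F s := by
    intro j h1 h2
    obtain ⟨i, rfl⟩ : ∃ i, j = i + 1 := ⟨j - 1, by omega⟩
    rw [Function.iterate_succ_apply', fst_RR]
    exact hb i (by omega)
  have hfn : ∀ j ≤ k, ae (RR^[j] σ) ∈ rnd D ∧ ae (RR^[j] σ) ∉ Yk D F s := by
    intro j hj
    apply fresh_new
    · rw [face_iter]; exact hg
    · rw [face_iter]; exact hf
    · rcases Nat.eq_zero_or_pos j with h0 | h0
      · right
        rw [h0]
        exact hb 0 (by omega)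
      · left
        exact hv j h0 hj
  obtain ⟨O, hO⟩ : ∃ O, O = (range k).image (fun i => ae (RR^[i] σ)) := ⟨_, rfl⟩
  obtain ⟨C, hC⟩ : ∃ C, C = (range k).image (fun i => ae (mv (RR^[i] σ))) ∪
    (range k).image (fun i => ae (rt (mv (RR^[i] σ)))) := ⟨_, rfl⟩
  have hOm : ∀ e, e ∈ O ↔ ∃ i < k, ae (RR^[i] σ) = e := by
    intro e
    rw [hO, Finset.mem_image]
    simp only [Finset.mem_range]
  have hCm : ∀ e, e ∈ C ↔ (∃ i < k, ae (mv (RR^[i] σ)) = e) ∨
      ∃ i < k, ae (rt (mv (RR^[i] σ))) = e := by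
    intro e
    rw [hC, Finset.mem_union, Finset.mem_image, Finset.mem_image]
    simp only [Finset.mem_range]
  have hKO : ∀ e, e ∈ O → e ∈ KK σ := by
    intro e he
    obtain ⟨i, hi, h1⟩ := (hOm e).mp he
    unfold KK
    exact Finset.mem_union_left _ (Finset.mem_image.mpr ⟨i, Finset.mem_range.mpr (by omega), h1⟩)
  have hKC : ∀ e, e ∈ C → e ∈ KK σ := by
    intro e he
    unfold KK
    rcases (hCm e).mp he with ⟨i, hi, h1⟩ | ⟨i, hi, h1⟩
    · exact Finset.mem_union_right _ (Finset.mem_union_left _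
        (Finset.mem_image.mpr ⟨i, Finset.mem_range.mpr (by omega), h1⟩))
    · exact Finset.mem_union_right _ (Finset.mem_union_right _
        (Finset.mem_image.mpr ⟨i, Finset.mem_range.mpr (by omega), h1⟩))
  -- closed edges
  have hcl : ∀ i < k, (ae (mv (RR^[i] σ)) ∉ D.wir ∧ (ae (mv (RR^[i] σ)) ∈ Yk D F s →
      ae (mv (RR^[i] σ)) ∉ F)) ∧ (ae (rt (mv (RR^[i] σ))) ∉ D.wir ∧
      (ae (rt (mv (RR^[i] σ))) ∈ Yk D F s → ae (rt (mv (RR^[i] σ))) ∉ F)) := by
    intro i hi
    exact ⟨fresh_closed (hb i hi), fresh_closed (by rw [fst_rt]; exact hb i hi)⟩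
  obtain ⟨F', hF'⟩ : ∃ F', F' = (F ∪ O) \ C := ⟨_, rfl⟩
  have hm : ∀ e, e ∈ F' ↔ (e ∈ F ∨ e ∈ O) ∧ e ∉ C := by
    intro e
    rw [hF', Finset.mem_sdiff, Finset.mem_union]
  have hF's : F' ⊆ rnd D := by
    intro e he
    rcases ((hm e).mp he).1 with h | h
    · exact hF h
    · obtain ⟨i, hi, rfl⟩ := (hOm e).mp h
      exact (hfn i hi.le).1
  have hF'E := hF's.trans (rnd_sub D)
  have hag : F ∩ Yk D F s = F' ∩ Yk D F s := by
    ext e
    simp only [Finset.mem_inter, hm]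
    constructor
    · rintro ⟨h1, h2⟩
      refine ⟨⟨Or.inl h1, fun h3 => ?_⟩, h2⟩
      rcases (hCm e).mp h3 with ⟨i, hi, rfl⟩ | ⟨i, hi, rfl⟩
      · exact (hcl i hi).1.2 h2 h1
      · exact (hcl i hi).2.2 h2 h1
    · rintro ⟨⟨h1 | h1, -⟩, h2⟩
      · exact ⟨h1, h2⟩
      · obtain ⟨i, hi, rfl⟩ := (hOm e).mp h1
        exact absurd h2 (hfn i hi.le).2
  have hw : ∀ j ≤ s, D.walk F' j = D.walk F j := agree hFE hF'E hag
  have hY : ∀ j ≤ s, Yk D F' j = Yk D F j := Yk_congr hw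
  have hws : D.walk F' s = σ := by rw [hw s le_rfl, hσ]
  -- status of the edges of the turn
  have hop : ∀ i < k, ae (RR^[i] σ) ∈ D.cfg F' := by
    intro i hi
    left
    rw [Finset.mem_coe, hm]
    refine ⟨Or.inr ((hOm _).mpr ⟨i, hi, rfl⟩), fun h3 => ?_⟩
    rcases (hCm _).mp h3 with ⟨j, hj, h4⟩ | ⟨j, hj, h4⟩
    · exact (distinct σ j i (by omega) (by omega)).1 h4.symm
    · exact (distinct σ j i (by omega) (by omega)).2.1 h4.symm
  have hc1 : ∀ i < k, ae (mv (RR^[i] σ)) ∉ D.cfg F' := by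
    rintro i hi (h | h)
    · rw [Finset.mem_coe, hm] at h
      exact h.2 ((hCm _).mpr (Or.inl ⟨i, hi, rfl⟩))
    · exact (hcl i hi).1.1 h
  have hc2 : ∀ i < k, ae (rt (mv (RR^[i] σ))) ∉ D.cfg F' := by
    rintro i hi (h | h)
    · rw [Finset.mem_coe, hm] at h
      exact h.2 ((hCm _).mpr (Or.inr ⟨i, hi, rfl⟩))
    · exact (hcl i hi).2.1 h
  have hwalk : ∀ j ≤ k, D.walk F' (s + 3 * j) = RR^[j] σ := by
    intro j
    induction j with
    | zero => intro _; exact hws
    | succ j ih =>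
      intro hj
      have h0 := ih (by omega)
      have h1 : D.walk F' (s + 3 * j + 1) = mv (RR^[j] σ) := by
        rw [walk_succ, h0, nxt_open (hop j (by omega))]
      have h2 : D.walk F' (s + 3 * j + 1 + 1) = rt (mv (RR^[j] σ)) := by
        rw [walk_succ, h1, nxt_closed (hc1 j (by omega))]
      have h3 : D.walk F' (s + 3 * j + 1 + 1 + 1) = rt (rt (mv (RR^[j] σ))) := by
        rw [walk_succ, h2, nxt_closed (hc2 j (by omega))]
      rw [Function.iterate_succ_apply']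
      exact h3
  have hwalk1 : ∀ j < k, D.walk F' (s + 3 * j + 1) = mv (RR^[j] σ) := by
    intro j hj
    rw [walk_succ, hwalk j hj.le, nxt_open (hop j hj)]
  have hwalk2 : ∀ j < k, D.walk F' (s + 3 * j + 2) = rt (mv (RR^[j] σ)) := by
    intro j hj
    rw [show s + 3 * j + 2 = s + 3 * j + 1 + 1 by ring, walk_succ, hwalk1 j hj,
      nxt_closed (hc1 j hj)]
  have hcase : ∀ i, s ≤ i → i < s + 3 * k → ∃ j < k, i = s + 3 * j ∨ i = s + 3 * j + 1 ∨
      i = s + 3 * j + 2 := by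
    intro i h1 h2
    refine ⟨(i - s) / 3, by omega, by omega⟩
  have hvert : ∀ i, s < i → i ≤ s + 3 * k → (D.walk F' i).1 ∉ VV D F s := by
    intro i h1 h2
    rcases Nat.lt_or_ge i (s + 3 * k) with h3 | h3
    · obtain ⟨j, hj, h4 | h4 | h4⟩ := hcase i h1.le h3
      · rw [h4, hwalk j hj.le]
        exact hv j (by omega) hj.le
      · rw [h4, hwalk1 j hj]
        exact hb j hj
      · rw [h4, hwalk2 j hj, fst_rt]
        exact hb j hj
    · have : i = s + 3 * k := by omega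
      rw [this, hwalk k le_rfl]
      exact hv k hk1 le_rfl
  have hlen : s + 3 * k < D.len F' := by
    by_contra hcon
    push Not at hcon
    have h1 := walk_len hD hF'E
    rcases Nat.lt_or_ge s (D.len F') with h2 | h2
    · have h3 := hvert _ h2 hcon
      rw [h1] at h3
      exact h3 (Or.inr (zero_wired hD))
    · rw [hw _ h2] at h1
      exact walk_ne (by omega) h1
  have hks := hwalk k le_rfl
  have hnew' : New D F' (s + 3 * k) := by
    unfold New
    rw [hks]
    refine ⟨(hfn k le_rfl).1, fun h => ?_⟩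
    obtain ⟨⟨i, hi, h1⟩, h2⟩ := mem_Yk.mp h
    rcases Nat.lt_or_ge i s with h3 | h3
    · rw [hw i h3.le] at h1
      exact (hfn k le_rfl).2 (mem_Yk.mpr ⟨⟨i, h3, h1⟩, h2⟩)
    · obtain ⟨j, hj, h4 | h4 | h4⟩ := hcase i h3 hi
      · rw [h4, hwalk j hj.le] at h1
        exact (distinct σ j k (by omega) hk3).2.2 hj h1.symm
      · rw [h4, hwalk1 j hj] at h1
        exact (distinct σ j k (by omega) hk3).1 h1.symm
      · rw [h4, hwalk2 j hj] at h1
        exact (distinct σ j k (by omega) hk3).2.1 h1.symm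
  have hnews : New D F' s := by
    unfold New
    rw [hws, hY s le_rfl, hσ]
    exact hnew
  obtain ⟨i1, i2, i3⟩ := idx hD hF'E hlen hnew'
  refine ⟨F', hF's, hag, ?_, hnews, by omega, by rw [hws, hσ], hY s le_rfl,
    (Yk D F' (s + 3 * k)).card, ?_, ?_, ?_⟩
  · intro e he
    rw [← hσ] at he
    rw [hm]
    constructor
    · intro h
      exact ⟨Or.inl h, fun h' => he (hKC e h')⟩
    · rintro ⟨h | h, -⟩
      · exact h
      · exact absurd (hKO e h) he
  · rw [← hY s le_rfl, ← Yk_new_card hnews]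
    exact Finset.card_le_card (Yk_mono D F' (by omega))
  · rw [← hY s le_rfl]
    have := Yk_card_add (D := D) (F := F') s (3 * k)
    omega
  · refine ⟨ae (D.walk F' (s + 3 * k)), ?_, i3, ?_⟩
    · rw [i2]; exact hnew'.2
    · rw [i2]
      have v1 : (D.walk F' (s + 3 * k)).1 ∈ VV D F' (s + 3 * k) := Or.inl ⟨_, le_rfl, rfl⟩
      have v2 : (mv (D.walk F' (s + 3 * k))).1 ∈ VV D F' (s + 3 * k) := by
        rw [hks]
        rcases hend with ⟨i, hi, h1⟩ | h1
        · exact Or.inl ⟨i, by omega, by rw [hw i hi]; exact h1⟩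
        · exact Or.inr h1
      have r1 := VV_conn hD hF's v1
      have r2 := VV_conn hD hF's v2
      rcases ends (D.walk F' (s + 3 * k)) with h | h
      · rw [h.1, h.2]
        exact r1.symm.trans r2
      · rw [h.1, h.2]
        exact r2.symm.trans r1

theorem pat {D : Dm} (hD : D.Ok) {F : Finset Edg} (hF : F ⊆ rnd D) {s : ℕ}
    (hs : s < D.len F) (hnew : New D F s) (hg : Inn D (face (rt (D.walk F s))))
    (hf : face (rt (D.walk F s)) ∉ VF D F s) (hb : (mv (D.walk F s)).1 ∉ VV D F s) :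
    ∃ F', F' ⊆ rnd D ∧ F ∩ Yk D F s = F' ∩ Yk D F s ∧
      (∀ e, e ∉ KK (D.walk F s) → (e ∈ F ↔ e ∈ F')) ∧ New D F' s ∧ s < D.len F' ∧
      D.walk F' s = D.walk F s ∧ Yk D F' s = Yk D F s ∧
      ∃ m', (Yk D F s).card + 1 ≤ m' ∧ m' ≤ (Yk D F s).card + 9 ∧ Cy D m' F' := by
  have hb3 : (mv (RR^[3] (D.walk F s))).1 ∈ VV D F s := by
    have : (mv (RR^[3] (D.walk F s))).1 = (D.walk F s).1 := fst_RR4 _
    rw [this]
    exact Or.inl ⟨s, le_rfl, rfl⟩
  have hb0 : (mv (RR^[0] (D.walk F s))).1 ∉ VV D F s := hb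
  by_cases h1 : (mv (RR^[1] (D.walk F s))).1 ∈ VV D F s
  · exact pat_core hD hF hs hnew hg hf (k := 1) le_rfl (by norm_num)
      (fun i hi => by interval_cases i; exact hb0) h1
  · by_cases h2 : (mv (RR^[2] (D.walk F s))).1 ∈ VV D F s
    · exact pat_core hD hF hs hnew hg hf (k := 2) (by norm_num) (by norm_num)
        (fun i hi => by
          interval_cases i
          · exact hb0
          · exact h1) h2
    · exact pat_core hD hF hs hnew hg hf (k := 3) (by norm_num) le_rfl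
        (fun i hi => by
          interval_cases i
          · exact hb0
          · exact h1
          · exact h2) hb3

end Q291.FK
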