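import Pool.Agent.Q291.EP.Cyl

/-!
Sequential explorations of a finite set of coins, for laws which are not products.
-/

set_option autoImplicit false

namespace Q291.FK

open Finset H974 Q291.EP

variable {E : Type*} [DecidableEq E]

/-- Sum against the weights `μ`. -/
noncomputable def em (μ : Finset E → ℝ) (S : Finset E) (f : Finset E → ℝ) : ℝ :=
  ∑ F ∈ S.powerset, μ F * f F

/-- The uniform weights. -/
noncomputable def un (S : Finset E) : Finset E → ℝ := fun _ => (1 / 2) ^ S.card

/-- Positive weights with total mass one. -/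
structure Law (S : Finset E) (μ : Finset E → ℝ) : Prop where
  pos : ∀ F, F ⊆ S → 0 < μ F
  one : ∑ F ∈ S.powerset, μ F = 1

/-- A sequential exploration: `X m F` is the set of the first `m` revealed elements. -/
structure Chn (S : Finset E) (X : ℕ → Finset E → Finset E) : Prop where
  zero : ∀ F, F ⊆ S → X 0 F = ∅
  sub : ∀ m F, F ⊆ S → X m F ⊆ S
  mono : ∀ m F, F ⊆ S → X m F ⊆ X (m + 1) F
  one : ∀ m F, F ⊆ S → (X (m + 1) F).card ≤ (X m F).card + 1
  pre : ∀ m F G, F ⊆ S → G ⊆ S → F ∩ X m F = G ∩ X m F → X (m + 1) G = X (m + 1) F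

/-- The flip of the next revealed element. -/
def tg (X : ℕ → Finset E → Finset E) (m : ℕ) (F : Finset E) : Finset E :=
  symmDiff F (X (m + 1) F \ X m F)

/-- The sign of the next revealed element. -/
noncomputable def sgn (X : ℕ → Finset E → Finset E) (m : ℕ) (F : Finset E) : ℝ :=
  if X (m + 1) F \ X m F ⊆ F then 1 else -1

/-- The mass of the configurations which agree with `F` on `X F`. -/
noncomputable def ms (μ : Finset E → ℝ) (S : Finset E) (X : Finset E → Finset E)
    (F : Finset E) : ℝ := ∑ G ∈ S.powerset with G ∩ X F = F ∩ X F, μ G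

theorem em_add (μ : Finset E → ℝ) (S : Finset E) (f g : Finset E → ℝ) :
    em μ S (fun F => f F + g F) = em μ S f + em μ S g := by
  unfold em
  rw [← Finset.sum_add_distrib]
  exact Finset.sum_congr rfl fun F _ => by ring

theorem em_sub (μ : Finset E → ℝ) (S : Finset E) (f g : Finset E → ℝ) :
    em μ S (fun F => f F - g F) = em μ S f - em μ S g := by
  unfold em
  rw [← Finset.sum_sub_distrib]
  exact Finset.sum_congr rfl fun F _ => by ring

theorem em_smul (μ : Finset E → ℝ) (S : Finset E) (c : ℝ) (f : Finset E → ℝ) :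
    em μ S (fun F => c * f F) = c * em μ S f := by
  unfold em
  rw [Finset.mul_sum]
  exact Finset.sum_congr rfl fun F _ => by ring

theorem em_sum (μ : Finset E → ℝ) (S : Finset E) {ι : Type*} (s : Finset ι)
    (f : ι → Finset E → ℝ) : em μ S (fun F => ∑ i ∈ s, f i F) = ∑ i ∈ s, em μ S (f i) := by
  unfold em
  rw [Finset.sum_comm]
  exact Finset.sum_congr rfl fun F _ => by rw [Finset.mul_sum]

theorem em_congr {μ : Finset E → ℝ} {S : Finset E} {f g : Finset E → ℝ}
    (h : ∀ F, F ⊆ S → f F = g F) : em μ S f = em μ S g :=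
  Finset.sum_congr rfl fun F hF => by rw [h F (Finset.mem_powerset.mp hF)]

theorem Law.mono {S : Finset E} {μ : Finset E → ℝ} (hμ : Law S μ) {f g : Finset E → ℝ}
    (h : ∀ F, F ⊆ S → f F ≤ g F) : em μ S f ≤ em μ S g :=
  Finset.sum_le_sum fun F hF =>
    mul_le_mul_of_nonneg_left (h F (Finset.mem_powerset.mp hF))
      (hμ.pos F (Finset.mem_powerset.mp hF)).le

theorem Law.const {S : Finset E} {μ : Finset E → ℝ} (hμ : Law S μ) (c : ℝ) :
    em μ S (fun _ => c) = c := by
  unfold em
  rw [← Finset.sum_mul, hμ.one, one_mul]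

theorem un_law (S : Finset E) : Law S (un S) where
  pos F _ := by unfold un; positivity
  one := by
    unfold un
    rw [Finset.sum_const, Finset.card_powerset, nsmul_eq_mul]
    push_cast
    rw [← mul_pow]
    norm_num

theorem em_un (S : Finset E) (f : Finset E → ℝ) :
    em (un S) S f = Ex (fun _ => 1 / 2) S f := by
  rw [Ex_wt]
  unfold em un wt
  refine Finset.sum_congr rfl fun F hF => ?_
  rw [Finset.mem_powerset] at hF
  congr 1
  have h1 := Finset.card_sdiff_add_card_eq_card hF
  rw [show (1 - 1 / 2 : ℝ) = 1 / 2 by norm_num, ← pow_add]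
  congr 1
  omega

namespace Chn

variable {S : Finset E} {X : ℕ → Finset E → Finset E}

theorem st (h : Chn S X) (m : ℕ) {F G : Finset E} (hF : F ⊆ S) (hG : G ⊆ S)
    (hFG : F ∩ X m F = G ∩ X m F) : X m G = X m F := by
  rcases m with _ | m
  · rw [h.zero F hF, h.zero G hG]
  · apply h.pre m F G hF hG
    have h1 : ∀ H : Finset E, H ∩ X m F = (H ∩ X (m + 1) F) ∩ X m F := fun H => by
      rw [Finset.inter_assoc, Finset.inter_eq_right.mpr (h.mono m F hF)]
    rw [h1 F, h1 G, hFG]

theorem stp (h : Chn S X) (m : ℕ) : Stp S (X m) where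
  sub := h.sub m
  st F G hF hG hFG := h.st m hF hG hFG

theorem mono' (h : Chn S X) {m n : ℕ} (hmn : m ≤ n) {F : Finset E} (hF : F ⊆ S) :
    X m F ⊆ X n F := by
  induction n, hmn using Nat.le_induction with
  | base => exact subset_rfl
  | succ n _ ih => exact ih.trans (h.mono n F hF)

theorem msr_mono {β : Type*} (h : Chn S X) {m n : ℕ} (hmn : m ≤ n) {g : Finset E → β}
    (hg : Msr S (X m) g) : Msr S (X n) g := by
  intro F G hF hG hFG
  apply hg F G hF hG
  have h1 : ∀ H : Finset E, H ∩ X m F = (H ∩ X n F) ∩ X m F := fun H => by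
    rw [Finset.inter_assoc, Finset.inter_eq_right.mpr (h.mono' hmn hF)]
  rw [h1 F, h1 G, hFG]

theorem card_le (h : Chn S X) (m : ℕ) {F : Finset E} (hF : F ⊆ S) : (X m F).card ≤ m := by
  induction m with
  | zero => rw [h.zero F hF]; simp
  | succ m ih => exact (h.one m F hF).trans (by omega)

theorem tg_sub (h : Chn S X) (m : ℕ) {F : Finset E} (hF : F ⊆ S) : tg X m F ⊆ S := by
  unfold tg
  intro x hx
  rw [Finset.mem_symmDiff] at hx
  rcases hx with hx | hx
  · exact hF hx.1
  · exact h.sub (m + 1) F hF (Finset.mem_sdiff.mp hx.1).1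

theorem tg_inter (_h : Chn S X) (m : ℕ) (F : Finset E) :
    F ∩ X m F = tg X m F ∩ X m F := by
  ext x
  unfold tg
  simp only [Finset.mem_inter, Finset.mem_symmDiff, Finset.mem_sdiff]
  tauto

theorem tg_X (h : Chn S X) (m : ℕ) {F : Finset E} (hF : F ⊆ S) :
    X m (tg X m F) = X m F ∧ X (m + 1) (tg X m F) = X (m + 1) F :=
  ⟨h.st m hF (h.tg_sub m hF) (h.tg_inter m F), h.pre m _ _ hF (h.tg_sub m hF) (h.tg_inter m F)⟩

theorem tg_tg (h : Chn S X) (m : ℕ) {F : Finset E} (hF : F ⊆ S) :
    tg X m (tg X m F) = F := by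
  obtain ⟨h1, h2⟩ := h.tg_X m hF
  change symmDiff (tg X m F) (X (m + 1) (tg X m F) \ X m (tg X m F)) = F
  rw [h1, h2]
  unfold tg
  rw [symmDiff_symmDiff_cancel_right]

theorem sum_tg (h : Chn S X) (m : ℕ) (g : Finset E → ℝ) :
    ∑ F ∈ S.powerset, g (tg X m F) = ∑ F ∈ S.powerset, g F := by
  refine Finset.sum_bij' (fun F _ => tg X m F) (fun F _ => tg X m F) ?_ ?_ ?_ ?_ ?_
  · intro F hF
    rw [Finset.mem_powerset] at hF ⊢
    exact h.tg_sub m hF
  · intro F hF
    rw [Finset.mem_powerset] at hF ⊢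
    exact h.tg_sub m hF
  · intro F hF
    exact h.tg_tg m (Finset.mem_powerset.mp hF)
  · intro F hF
    exact h.tg_tg m (Finset.mem_powerset.mp hF)
  · intro F _
    rfl

theorem sum_pair (h : Chn S X) (m : ℕ) (g : Finset E → ℝ) :
    ∑ F ∈ S.powerset, g F = (∑ F ∈ S.powerset, (g F + g (tg X m F))) / 2 := by
  rw [Finset.sum_add_distrib, h.sum_tg m g]
  ring

/-- Either nothing new is revealed, or one element. -/
theorem cases (h : Chn S X) (m : ℕ) {F : Finset E} (hF : F ⊆ S) :
    X (m + 1) F = X m F ∨ ∃ e, e ∉ X m F ∧ e ∈ S ∧ X (m + 1) F = insert e (X m F) := by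
  have h1 := h.mono m F hF
  have h2 := h.one m F hF
  rcases Nat.lt_or_ge (X m F).card (X (m + 1) F).card with h3 | h3
  · right
    have h4 : (X (m + 1) F \ X m F).card = 1 := by
      have := Finset.card_sdiff_add_card_eq_card h1
      omega
    obtain ⟨e, he⟩ := Finset.card_eq_one.mp h4
    have he' : e ∈ X (m + 1) F \ X m F := by rw [he]; exact Finset.mem_singleton_self e
    rw [Finset.mem_sdiff] at he'
    refine ⟨e, he'.2, h.sub _ F hF he'.1, ?_⟩
    rw [← Finset.sdiff_union_of_subset h1, he]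
    rfl
  · left
    exact (Finset.eq_of_subset_of_card_le h1 h3).symm

theorem tg_same {m : ℕ} {F : Finset E} (h : X (m + 1) F = X m F) : tg X m F = F := by
  unfold tg
  rw [h, Finset.sdiff_self]
  simp

theorem new_sdiff {m : ℕ} {F : Finset E} {e : E} (he : e ∉ X m F)
    (h : X (m + 1) F = insert e (X m F)) : X (m + 1) F \ X m F = {e} := by
  rw [h]
  ext x
  simp only [Finset.mem_sdiff, Finset.mem_insert, Finset.mem_singleton]
  constructor
  · rintro ⟨h1 | h1, h2⟩
    · exact h1
    · exact absurd h1 h2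
  · intro h1
    exact ⟨Or.inl h1, by rw [h1]; exact he⟩

theorem tg_new {m : ℕ} {F : Finset E} {e : E} (he : e ∉ X m F)
    (h : X (m + 1) F = insert e (X m F)) :
    tg X m F = if e ∈ F then F.erase e else insert e F := by
  unfold tg
  rw [new_sdiff he h]
  ext x
  rw [Finset.mem_symmDiff]
  by_cases hx : x = e
  · subst hx
    by_cases hF : x ∈ F
    · simp [hF]
    · simp [hF]
  · split_ifs
    · simp [hx]
    · simp [hx]

theorem sgn_new {m : ℕ} {F : Finset E} {e : E} (he : e ∉ X m F)
    (h : X (m + 1) F = insert e (X m F)) : sgn X m F = if e ∈ F then 1 else -1 := by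
  unfold sgn
  rw [new_sdiff he h]
  simp only [Finset.singleton_subset_iff]

end Chn

/-! ### masses -/

theorem ms_pos {S : Finset E} {μ : Finset E → ℝ} (hμ : Law S μ) (X : Finset E → Finset E)
    {F : Finset E} (hF : F ⊆ S) : 0 < ms μ S X F := by
  unfold ms
  apply Finset.sum_pos
  · intro G hG
    exact hμ.pos G (Finset.mem_powerset.mp (Finset.mem_filter.mp hG).1)
  · exact ⟨F, Finset.mem_filter.mpr ⟨Finset.mem_powerset.mpr hF, rfl⟩⟩

theorem ms_msr {S : Finset E} {μ : Finset E → ℝ} {X : Finset E → Finset E} (hX : Stp S X) :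
    Msr S X (ms μ S X) := by
  intro F G hF hG h
  unfold ms
  rw [hX.st F G hF hG h, h]

/-- Sums of functions of the revealed configuration. -/
theorem em_msr {S : Finset E} {μ : Finset E → ℝ} {X : Finset E → Finset E}
    (hX : Stp S X) {f : Finset E → ℝ} (hf : Msr S X f) :
    em μ S f = em (un S) S (fun F => f F * (2 ^ (X F).card * ms μ S X F)) := by
  classical
  have key : ∀ F, F ⊆ S → ∀ G, G ⊆ S → (G ∩ X F = F ∩ X F ↔ F ∩ X G = G ∩ X G) := by
    intro F hF G hG
    constructor
    · intro h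
      rw [hX.st F G hF hG h.symm]
      exact h.symm
    · intro h
      rw [hX.st G F hG hF h.symm]
      exact h.symm
  have hun : ∀ F, F ⊆ S → ms (un S) S X F = (1/2) ^ (X F).card := by
    intro F hF
    have h1 := cyl (1/2 : ℝ) (hX.sub F hF) (A := F ∩ X F) Finset.inter_subset_right
    have h2 : ms (un S) S X F = ∑ G ∈ S.powerset with G ∩ X F = F ∩ X F, wt (1/2) S G := by
      unfold ms
      refine Finset.sum_congr rfl fun G hG => ?_
      rw [Finset.mem_filter, Finset.mem_powerset] at hG
      unfold un wt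
      have h3 := Finset.card_sdiff_add_card_eq_card hG.1
      rw [show (1 - 1 / 2 : ℝ) = 1 / 2 by norm_num, ← pow_add]
      congr 1
      omega
    rw [h2, h1, show (1 - 1 / 2 : ℝ) = 1 / 2 by norm_num, ← pow_add]
    congr 1
    have h3 := Finset.card_sdiff_add_card_eq_card
      (Finset.inter_subset_right : F ∩ X F ⊆ X F)
    omega
  have h1 : em μ S f = ∑ F ∈ S.powerset, ∑ G ∈ S.powerset,
      (if G ∩ X F = F ∩ X F then μ F * f F * (2 ^ (X F).card * un S G) else 0) := by
    unfold em
    refine Finset.sum_congr rfl fun F hF => ?_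
    rw [Finset.mem_powerset] at hF
    rw [← Finset.sum_filter, ← Finset.mul_sum, ← Finset.mul_sum]
    have h2 := hun F hF
    unfold ms at h2
    rw [h2, ← mul_pow]
    norm_num
  have h2 : em (un S) S (fun F => f F * (2 ^ (X F).card * ms μ S X F)) =
      ∑ F ∈ S.powerset, ∑ G ∈ S.powerset,
      (if G ∩ X F = F ∩ X F then un S F * (f F * (2 ^ (X F).card * μ G)) else 0) := by
    unfold em
    refine Finset.sum_congr rfl fun F hF => ?_
    rw [← Finset.sum_filter]
    unfold ms
    simp only [Finset.mul_sum]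
  rw [h1, h2, Finset.sum_comm]
  refine Finset.sum_congr rfl fun G hG => Finset.sum_congr rfl fun F hF => ?_
  rw [Finset.mem_powerset] at hF hG
  by_cases hc : G ∩ X F = F ∩ X F
  · have hc' := (key F hF G hG).mp hc
    rw [if_pos hc, if_pos hc']
    have e1 := hX.st F G hF hG hc.symm
    have e2 := hf F G hF hG hc.symm
    rw [e1, e2]
    ring
  · rw [if_neg hc, if_neg (fun h => hc ((key F hF G hG).mpr h))]

end Q291.FK
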