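import Pool.Agent.Q291.FK.Mart

/-!
Signed counts along an exploration.
-/

set_option autoImplicit false

namespace Q291.FK

open Finset H974 Q291.EP

variable {E : Type*} [DecidableEq E]

variable {S : Finset E} {X : ℕ → Finset E → Finset E} {μ : Finset E → ℝ}

/-- Probability of an event. -/
noncomputable def pr (μ : Finset E → ℝ) (S : Finset E) (A : Finset E → Prop) : ℝ :=
  em μ S (fun F => ind (A F))

theorem pr_un (S : Finset E) (A : Finset E → Prop) :
    pr (un S) S A = Pr (fun _ => 1 / 2) S A := em_un S _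

theorem msr_comp {β γ : Type*} {Y : Finset E → Finset E} {g : Finset E → β}
    (h : Msr S Y g) (φ : β → γ) : Msr S Y (fun F => φ (g F)) :=
  fun F G hF hG hFG => congrArg φ (h F G hF hG hFG)

theorem msr_comp2 {β γ δ : Type*} {Y : Finset E → Finset E} {g : Finset E → β}
    {k : Finset E → γ} (h : Msr S Y g) (h' : Msr S Y k) (φ : β → γ → δ) :
    Msr S Y (fun F => φ (g F) (k F)) := fun F G hF hG hFG => by
  show φ (g G) (k G) = φ (g F) (k F)
  rw [h F G hF hG hFG, h' F G hF hG hFG]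

theorem msr_sum {ι : Type*} {Y : Finset E → Finset E} (s : Finset ι) {g : ι → Finset E → ℝ}
    (h : ∀ i ∈ s, Msr S Y (g i)) : Msr S Y (fun F => ∑ i ∈ s, g i F) := fun F G hF hG hFG =>
  Finset.sum_congr rfl fun i hi => h i hi F G hF hG hFG

theorem msr_const {β : Type*} (Y : Finset E → Finset E) (c : β) : Msr S Y (fun _ => c) :=
  fun _ _ _ _ _ => rfl

theorem sgn_msr (h : Chn S X) (m : ℕ) : Msr S (X (m + 1)) (sgn X m) := by
  intro F G hF hG hFG
  have h1 : F ∩ X m F = G ∩ X m F := by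
    have h1 : ∀ H : Finset E, H ∩ X m F = (H ∩ X (m + 1) F) ∩ X m F := fun H => by
      rw [Finset.inter_assoc, Finset.inter_eq_right.mpr (h.mono m F hF)]
    rw [h1 F, h1 G, hFG]
  have e1 := h.pre m F G hF hG h1
  have e2 := h.st m hF hG h1
  unfold sgn
  rw [e1, e2]
  have : X (m + 1) F \ X m F ⊆ G ↔ X (m + 1) F \ X m F ⊆ F := by
    have key : ∀ x ∈ X (m + 1) F, (x ∈ G ↔ x ∈ F) := by
      intro x hx
      have : x ∈ F ∩ X (m + 1) F ↔ x ∈ G ∩ X (m + 1) F := by rw [hFG]
      simp only [Finset.mem_inter, hx, and_true] at this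
      exact this.symm
    constructor
    · intro h2 x hx
      exact (key x (Finset.mem_sdiff.mp hx).1).mp (h2 hx)
    · intro h2 x hx
      exact (key x (Finset.mem_sdiff.mp hx).1).mpr (h2 hx)
  simp only [this]

theorem sgn_abs (X : ℕ → Finset E → Finset E) (m : ℕ) (F : Finset E) : |sgn X m F| ≤ 1 := by
  unfold sgn
  split_ifs <;> simp

/-- The new element is flipped with the ratio `ρ` where `a` does not vanish. -/
def Rat (S : Finset E) (X : ℕ → Finset E → Finset E) (μ : Finset E → ℝ) (ρ : ℝ) (m : ℕ)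
    (a : Finset E → ℝ) : Prop :=
  ∀ F, F ⊆ S → a F ≠ 0 → ∃ e, e ∉ X m F ∧ X (m + 1) F = insert e (X m F) ∧
    μ (insert e F) = ρ * μ (F.erase e)

theorem Rat.mul {ρ : ℝ} {m : ℕ} {a : Finset E → ℝ} (h : Rat S X μ ρ m a) (b : Finset E → ℝ) :
    Rat S X μ ρ m (fun F => b F * a F) := fun F hF h0 =>
  h F hF (fun h1 => h0 (by show b F * a F = 0; rw [h1, mul_zero]))

theorem mart (h : Chn S X) (m : ℕ) {a : Finset E → ℝ} (ha : Msr S (X m) a) {ρ θ : ℝ}
    (hρ : ρ * (1 - θ) = 1 + θ) (hr : Rat S X μ ρ m a) :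
    em μ S (fun F => a F * (sgn X m F - θ)) = 0 := by
  unfold em
  rw [h.sum_pair m]
  have : ∀ F ∈ S.powerset, μ F * (a F * (sgn X m F - θ)) +
      μ (tg X m F) * (a (tg X m F) * (sgn X m (tg X m F) - θ)) = 0 := by
    intro F hF
    rw [Finset.mem_powerset] at hF
    have e1 : a (tg X m F) = a F := ha F _ hF (h.tg_sub m hF) (h.tg_inter m F)
    rw [e1]
    by_cases h0 : a F = 0
    · rw [h0]; ring
    · obtain ⟨e, he, hc, hμe⟩ := hr F hF h0
      obtain ⟨t1, t2⟩ := h.tg_X m hF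
      have he' : e ∉ X m (tg X m F) := by rw [t1]; exact he
      have hc' : X (m + 1) (tg X m F) = insert e (X m (tg X m F)) := by rw [t1, t2]; exact hc
      rw [Chn.sgn_new he hc, Chn.sgn_new he' hc']
      have ht := Chn.tg_new he hc
      by_cases heF : e ∈ F
      · rw [if_pos heF] at ht
        rw [ht, if_pos heF, if_neg (Finset.notMem_erase e F)]
        rw [Finset.insert_eq_of_mem heF] at hμe
        rw [hμe]
        linear_combination (a F * μ (F.erase e)) * hρ
      · rw [if_neg heF] at ht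
        rw [ht, if_neg heF, if_pos (Finset.mem_insert_self e F)]
        rw [Finset.erase_eq_of_notMem heF] at hμe
        rw [hμe]
        linear_combination (a F * μ F) * hρ
  rw [Finset.sum_eq_zero this]
  norm_num

/-- Exponential bound for sums of increments. -/
theorem exp_sum (hμ : Law S μ) {n : ℕ → ℕ} {u : ℕ → Finset E → ℝ} {lam b : ℝ}
    (hu : ∀ k F, F ⊆ S → |u k F| ≤ b) (hl : |lam| * b ≤ 1) (hb : 0 ≤ b)
    (hmsr : ∀ k i, i < k → Msr S (X (n k)) (u i))
    (hcond : ∀ k A, Msr S (X (n k)) A → (∀ F, F ⊆ S → 0 ≤ A F) →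
      lam * em μ S (fun F => A F * u k F) ≤ 0) (k : ℕ) :
    em μ S (fun F => Real.exp (lam * ∑ i ∈ range k, u i F)) ≤
      Real.exp (lam ^ 2 * b ^ 2 * k) := by
  have _ := hb
  induction k with
  | zero =>
    simp only [Finset.range_zero, Finset.sum_empty, mul_zero, Real.exp_zero, Nat.cast_zero]
    rw [hμ.const]
  | succ k ih =>
    have h1 : em μ S (fun F => Real.exp (lam * ∑ i ∈ range (k + 1), u i F)) =
        em μ S (fun F => Real.exp (lam * ∑ i ∈ range k, u i F) * Real.exp (lam * u k F)) := by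
      refine em_congr fun F _ => ?_
      rw [Finset.sum_range_succ, mul_add, Real.exp_add]
    rw [h1]
    have hA : Msr S (X (n k)) (fun F => Real.exp (lam * ∑ i ∈ range k, u i F)) :=
      msr_comp (msr_sum (range k) (fun i hi => hmsr k i (Finset.mem_range.mp hi)))
        (fun x => Real.exp (lam * x))
    have h2 := exp_step hμ (A := fun F => Real.exp (lam * ∑ i ∈ range k, u i F)) (u := u k)
      (fun F _ => (Real.exp_pos _).le) (hu k) hl (hcond k _ hA (fun F _ => (Real.exp_pos _).le))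
    refine h2.trans ?_
    have h3 : 1 + lam ^ 2 * b ^ 2 ≤ Real.exp (lam ^ 2 * b ^ 2) := by
      have := Real.add_one_le_exp (lam ^ 2 * b ^ 2)
      linarith
    have h4 : Real.exp (lam ^ 2 * b ^ 2 * (k + 1 : ℕ)) =
        Real.exp (lam ^ 2 * b ^ 2) * Real.exp (lam ^ 2 * b ^ 2 * k) := by
      rw [← Real.exp_add]
      congr 1
      push_cast
      ring
    rw [h4]
    exact mul_le_mul h3 ih (by
      have := hμ.mono (f := fun _ => 0)
        (g := fun F => Real.exp (lam * ∑ i ∈ range k, u i F)) (fun F _ => (Real.exp_pos _).le)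
      rwa [hμ.const] at this) (Real.exp_pos _).le

theorem pr_le_exp (hμ : Law S μ) {W : Finset E → ℝ} {lam t B : ℝ} (hl : 0 ≤ lam)
    (h : em μ S (fun F => Real.exp (lam * W F)) ≤ B) :
    pr μ S (fun F => t ≤ W F) ≤ B * Real.exp (-(lam * t)) := by
  have h1 : pr μ S (fun F => t ≤ W F) ≤
      em μ S (fun F => Real.exp (-(lam * t)) * Real.exp (lam * W F)) := by
    refine hμ.mono fun F _ => ?_
    by_cases hW : t ≤ W F
    · rw [ind_of hW, ← Real.exp_add]
      apply Real.one_le_exp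
      have := mul_le_mul_of_nonneg_left hW hl
      linarith
    · rw [ind_not_of hW]
      positivity
  rw [em_smul] at h1
  refine h1.trans ?_
  rw [mul_comm]
  exact mul_le_mul_of_nonneg_right h (Real.exp_pos _).le

/-- The weighted sum of the signs, centred. -/
noncomputable def Wt (X : ℕ → Finset E → Finset E) (a : ℕ → Finset E → ℝ) (θ : ℝ) (m : ℕ)
    (F : Finset E) : ℝ := ∑ i ∈ range m, a i F * (sgn X i F - θ)

theorem wt_msr (h : Chn S X) {a : ℕ → Finset E → ℝ} (ha : ∀ i, Msr S (X i) (a i)) (θ : ℝ)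
    {m i : ℕ} (hi : i < m) : Msr S (X m) (fun F => a i F * (sgn X i F - θ)) :=
  msr_comp2 (h.msr_mono hi.le (ha i)) (h.msr_mono hi (sgn_msr h i)) (fun x y => x * (y - θ))

theorem wt_tail (h : Chn S X) (hμ : Law S μ) {a : ℕ → Finset E → ℝ}
    (ha : ∀ i, Msr S (X i) (a i)) (ha0 : ∀ i F, 0 ≤ a i F) (ha1 : ∀ i F, a i F ≤ 1) {ρ θ : ℝ}
    (hρ : ρ * (1 - θ) = 1 + θ) (hθ : |θ| ≤ 1) (hr : ∀ i, Rat S X μ ρ i (a i)) {m : ℕ} (hm : 1 ≤ m)
    {t : ℝ} (ht : 0 ≤ t) (htm : t ≤ 4 * m) :
    pr μ S (fun F => t ≤ |Wt X a θ m F|) ≤ 2 * Real.exp (-(t ^ 2 / (16 * m))) := by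
  have hm0 : (0:ℝ) < m := by exact_mod_cast hm
  have key : ∀ lam : ℝ, |lam| * 2 ≤ 1 →
      em μ S (fun F => Real.exp (lam * Wt X a θ m F)) ≤ Real.exp (lam ^ 2 * 2 ^ 2 * m) := by
    intro lam hl
    refine exp_sum (X := X) hμ (n := fun k => k) (u := fun i F => a i F * (sgn X i F - θ)) ?_ hl
      (by norm_num) ?_ ?_ m
    · intro i F _
      rw [abs_mul, abs_of_nonneg (ha0 i F)]
      have h1 := ha1 i F
      have h2 : |sgn X i F - θ| ≤ 2 := by
        have := sgn_abs X i F
        rw [abs_le] at this hθ ⊢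
        constructor <;> linarith [this.1, this.2, hθ.1, hθ.2]
      calc a i F * |sgn X i F - θ| ≤ 1 * 2 := mul_le_mul h1 h2 (abs_nonneg _) (by norm_num)
        _ = 2 := by norm_num
    · intro k i hi
      exact wt_msr h ha θ hi
    · intro k A hA hA0
      have h1 := mart h k (a := fun F => A F * a k F) (msr_comp2 hA (ha k) (fun x y => x * y))
        hρ ((hr k).mul A)
      have h2 : em μ S (fun F => A F * (a k F * (sgn X k F - θ))) = 0 := by
        rw [← h1]
        exact em_congr fun F _ => by ring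
      rw [h2, mul_zero]
  obtain ⟨lam, hlam⟩ : ∃ lam, lam = t / (8 * m) := ⟨_, rfl⟩
  have hl0 : 0 ≤ lam := by rw [hlam]; positivity
  have hl1 : lam * 2 ≤ 1 := by
    rw [hlam, div_mul_eq_mul_div, div_le_one (by positivity)]
    linarith
  have e1 := pr_le_exp hμ (W := Wt X a θ m) (t := t) hl0 (key lam (by rw [abs_of_nonneg hl0]; exact hl1))
  have e2 := pr_le_exp hμ (W := fun F => -Wt X a θ m F) (t := t) hl0
    (B := Real.exp (lam ^ 2 * 2 ^ 2 * m)) (by
      have := key (-lam) (by rw [abs_neg, abs_of_nonneg hl0]; exact hl1)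
      rw [neg_sq] at this
      refine le_trans (le_of_eq ?_) this
      refine em_congr fun F _ => ?_
      congr 1
      ring)
  have e3 : Real.exp (lam ^ 2 * 2 ^ 2 * m) * Real.exp (-(lam * t)) =
      Real.exp (-(t ^ 2 / (16 * m))) := by
    rw [← Real.exp_add]
    congr 1
    rw [hlam]
    field_simp
    ring
  rw [e3] at e1 e2
  have e4 : pr μ S (fun F => t ≤ |Wt X a θ m F|) ≤
      pr μ S (fun F => t ≤ Wt X a θ m F) + pr μ S (fun F => t ≤ -Wt X a θ m F) := by
    unfold pr
    rw [← em_add]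
    refine hμ.mono fun F _ => ?_
    by_cases hc : t ≤ |Wt X a θ m F|
    · rw [ind_of hc]
      rcases le_abs.mp hc with h1 | h1
      · rw [ind_of h1]
        have := ind_nonneg (t ≤ -Wt X a θ m F)
        linarith
      · rw [ind_of h1]
        have := ind_nonneg (t ≤ Wt X a θ m F)
        linarith
    · rw [ind_not_of hc]
      have := ind_nonneg (t ≤ -Wt X a θ m F)
      have := ind_nonneg (t ≤ Wt X a θ m F)
      linarith
  linarith

/-- Functions with values in `[0,1]` and events. -/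
theorem ev_of_fun (h : Chn S X) (hμ : Law S μ) (m : ℕ) : ∃ B : Finset E → Prop,
    Msr S (X m) B ∧ ∀ f : Finset E → ℝ, Msr S (X m) f → (∀ F, F ⊆ S → 0 ≤ f F) →
      (∀ F, F ⊆ S → f F ≤ 1) → em μ S f - em (un S) S f ≤ pr μ S B - pr (un S) S B := by
  obtain ⟨D, hD⟩ : ∃ D : Finset E → ℝ, D = fun F => 2 ^ (X m F).card * ms μ S (X m) F := ⟨_, rfl⟩
  have hDm : Msr S (X m) D := by
    intro F G hF hG hFG
    rw [hD]
    simp only
    rw [(h.stp m).st F G hF hG hFG, ms_msr (h.stp m) F G hF hG hFG]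
  have hch : ∀ g : Finset E → ℝ, Msr S (X m) g → em μ S g = em (un S) S (fun F => g F * D F) :=
    fun g hg => by
      rw [em_msr (h.stp m) hg, hD]
  have hB : Msr S (X m) (fun F => 1 ≤ D F) := msr_comp hDm (fun x => 1 ≤ x)
  refine ⟨fun F => 1 ≤ D F, hB, fun f hf h0 h1 => ?_⟩
  unfold pr
  rw [hch f hf, hch _ (msr_comp hB (fun p => ind p)), ← em_sub, ← em_sub]
  refine (un_law S).mono fun F hF => ?_
  have a0 := h0 F hF
  have a1 := h1 F hF
  by_cases hc : 1 ≤ D F
  · rw [ind_of hc]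
    nlinarith
  · rw [ind_not_of hc]
    nlinarith

end Q291.FK
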